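import Mathlib.RingTheory.Kaehler.Basic
import Mathlib.RingTheory.MvPolynomial.Homogeneous
import Mathlib.Data.Complex.Basic
import Mathlib.AlgebraicGeometry.Morphisms.Proper
import Mathlib.AlgebraicGeometry.OrderOfVanishing
import Mathlib.AlgebraicGeometry.ProjectiveSpectrum.Basic
import Mathlib.Combinatorics.Quiver.ReflQuiver

/-!
Projective varieties, divisors, ampleness, the anticanonical class and the Picard number.
-/

open AlgebraicGeometry CategoryTheory

namespace Pool.Agent.MP_a703b5_ag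

attribute [local instance] MvPolynomial.gradedAlgebra in
/-- `s : X ⟶ Spec ℂ` is projective: it factors through a closed immersion into some `ℙⁿ`. -/
def IsProjective {X : Scheme.{0}} (s : X ⟶ Spec (CommRingCat.of ℂ)) : Prop :=
  ∃ (n : ℕ) (i : X ⟶ Proj (MvPolynomial.homogeneousSubmodule (Fin (n + 1)) ℂ)),
    IsClosedImmersion i ∧ i ≫ Proj.toSpecZero _ ≫ Spec.map (CommRingCat.ofHom
      (algebraMap ℂ (MvPolynomial.homogeneousSubmodule (Fin (n + 1)) ℂ 0))) = s

/-- Prime divisors: points of codimension one. -/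
abbrev PrimeDiv (X : Scheme.{0}) : Type := {z : X // Order.coheight z = 1}

/-- Weil divisors. -/
abbrev WDiv (X : Scheme.{0}) : Type := PrimeDiv X →₀ ℤ

variable {X : Scheme.{0}} [IsIntegral X] [IsLocallyNoetherian X]

/-- `D` is ample: every point lies in an affine open set that is the complement of the support
of an effective divisor `n D + div φ` with `n > 0`. -/
def IsAmple (D : WDiv X) : Prop :=
  ∀ x : X, ∃ (n : ℕ) (φ : X.functionField) (U : X.Opens), 0 < n ∧ φ ≠ 0 ∧
    (∀ z : PrimeDiv X, 0 ≤ n * D z + X.ord φ z) ∧ x ∈ U ∧ IsAffineOpen U ∧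
    ∀ y : X, y ∈ U ↔ ∀ z : PrimeDiv X, z.1 ⤳ y → n * D z + X.ord φ z = 0

/-- The constants in the function field. -/
noncomputable def const (s : X ⟶ Spec (CommRingCat.of ℂ)) : ℂ →+* X.functionField :=
  ((Scheme.ΓSpecIso (CommRingCat.of ℂ)).inv ≫ s.appTop ≫
    X.presheaf.germ ⊤ (genericPoint X) trivial).hom

/-- `D = - div ω` for a nonzero rational top form `ω = b₁ ∧ ⋯ ∧ bₙ`: `D z` is the least order at
`z` of a nonzero quotient `(da₁ ∧ ⋯ ∧ daₙ) / ω` with the `aᵢ` regular at `z`. -/
def IsAnticanonical (s : X ⟶ Spec (CommRingCat.of ℂ)) (D : WDiv X) : Prop :=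
  letI : Algebra ℂ X.functionField := (const s).toAlgebra
  ∃ (n : ℕ) (b : Module.Basis (Fin n) X.functionField Ω[X.functionField⁄ℂ]), ∀ z : PrimeDiv X,
    IsLeast {k : ℤ | ∃ (a : Fin n → X.presheaf.stalk z.1) (φ : X.functionField), φ ≠ 0 ∧
      φ = b.det (fun i => KaehlerDifferential.D ℂ X.functionField (algebraMap _ _ (a i))) ∧
      k = X.ord φ z} (D z)

/-- `g` is a local equation of `D` at `x`. -/
def IsLocalEq (D : WDiv X) (x : X) (g : X.functionField) : Prop :=
  g ≠ 0 ∧ ∀ z : PrimeDiv X, z.1 ⤳ x → D z = X.ord g z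

/-- `E` is the divisor of a rational section of the pull-back of `O(D)` along `γ`. -/
def IsPullbackDiv {C : Scheme.{0}} [IsIntegral C] [IsLocallyNoetherian C] (γ : C ⟶ X) (D : WDiv X)
    (E : C →₀ ℤ) : Prop :=
  ∃ (g : C → X.functionField) (u : C → (X.presheaf.stalk (γ (genericPoint C)))ˣ), ∀ p : C,
    IsLocalEq D (γ p) (g p) ∧
    g p = algebraMap (X.presheaf.stalk (γ (genericPoint C))) _ (u p) * g (genericPoint C) ∧
    E p = C.ord (γ.stalkMap (genericPoint C) (u p)) p

/-- `D` has degree zero on every complete curve mapping to `X`. -/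
def NumTrivial (s : X ⟶ Spec (CommRingCat.of ℂ)) (D : WDiv X) : Prop :=
  ∀ (C : Scheme.{0}) [IsIntegral C] [IsLocallyNoetherian C] (γ : C ⟶ X), IsProper (γ ≫ s) →
    topologicalKrullDim C = 1 → ∃ E : C →₀ ℤ, IsPullbackDiv γ D E ∧ E.degree = 0

/-- The Picard number: the rank of divisors modulo numerical equivalence. -/
noncomputable def picardNumber (s : X ⟶ Spec (CommRingCat.of ℂ)) : ℕ :=
  Module.finrank ℤ (WDiv X ⧸ Submodule.span ℤ {D | NumTrivial s D})

end Pool.Agent.MP_a703b5_ag
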