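import Mathlib.Algebra.MonoidAlgebra.Grading
import Mathlib.AlgebraicGeometry.Properties
import Mathlib.AlgebraicGeometry.ProjectiveSpectrum.Basic
import Mathlib.Analysis.Complex.Polynomial.Basic
import Mathlib.RingTheory.Finiteness.ModuleFinitePresentation
import Mathlib.AlgebraicGeometry.ProjectiveSpectrum.Functor
import Mathlib.AlgebraicGeometry.ProjectiveSpectrum.Proper
import Mathlib.RingTheory.TotallySplit
import Pool.Agent.MP_a703b5_ag.Defs
import Mathlib.Algebra.AffineMonoid.UniqueSums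
import Mathlib.RingTheory.SimpleRing.Principal
import Mathlib.Order.CompletePartialOrder
import Mathlib.RingTheory.Henselian
import Mathlib.RingTheory.RegularLocalRing.Defs
import Mathlib.AlgebraicGeometry.Fiber
import Mathlib.AlgebraicGeometry.Morphisms.Smooth
import Mathlib.AlgebraicGeometry.Modules.Sheaf
import Mathlib.RingTheory.KrullDimension.Polynomial

-- ======== part 0: formerly Pool.Agent.MP_a703b5_ag.Hom
section MrgPart0

/-!
Homogeneous subalgebras of monoid algebras (adapted from the files of MP_19ffc6_ag).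
-/

set_option autoImplicit false
set_option linter.unusedSectionVars false
set_option linter.style.haveILetI false

open AddMonoidAlgebra DirectSum

namespace Pool.Agent.MP_a703b5_ag

section SubGrade

variable {ι k E : Type} [DecidableEq ι] [AddCommMonoid ι] [CommRing k] [CommRing E] [Algebra k E]
  (ℰ : ι → Submodule k E) [GradedAlgebra ℰ]

/-- The grading induced on a subalgebra. -/
def subGr (C : Subalgebra k E) (d : ι) : Submodule k C := (ℰ d).comap C.val.toLinearMap

lemma mem_subGr {C : Subalgebra k E} {d : ι} {x : C} : x ∈ subGr ℰ C d ↔ (x : E) ∈ ℰ d := Iff.rfl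

/-- A homogeneous subalgebra of a graded algebra is graded. -/
@[reducible] noncomputable def subGraded (C : Subalgebra k E)
    (hC : ∀ c ∈ C, ∀ d, (decompose ℰ c d : E) ∈ C) : GradedAlgebra (subGr ℰ C) := by
  classical
  have hint : DirectSum.IsInternal (subGr ℰ C) := by
    constructor
    · rw [injective_iff_map_eq_zero]
      intro x hx
      ext d
      have h1 : ((DirectSum.coeAddMonoidHom (subGr ℰ C) x : C) : E) =
          ∑ i ∈ x.support, ((x i : C) : E) := by
        rw [DirectSum.coeAddMonoidHom_eq_dfinsuppSum, DFinsupp.sum]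
        simp
      rw [hx] at h1
      have h2 := congrArg (fun z => (decompose ℰ z d : E)) h1
      have h3 : ∀ z, (decompose ℰ z d : E) = GradedAlgebra.proj ℰ d z := fun z => rfl
      simp only [h3, ZeroMemClass.coe_zero, map_zero, map_sum] at h2
      simp only [← h3] at h2
      have hm : ∀ i, ((x i : C) : E) ∈ ℰ i := fun i => (x i).2
      rw [Finset.sum_eq_single d (fun i _ hi => decompose_of_mem_ne ℰ (hm i) hi) (fun hd => by
        rw [DFinsupp.notMem_support_iff.mp hd]; simp), decompose_of_mem_same ℰ (hm d)] at h2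
      simpa using h2.symm
    · intro c
      refine ⟨∑ i ∈ (decompose ℰ (c : E)).support,
        DirectSum.of (fun i => subGr ℰ C i) i
          ⟨⟨decompose ℰ (c : E) i, hC c c.2 i⟩, (decompose ℰ (c : E) i).2⟩, Subtype.ext ?_⟩
      rw [map_sum]
      simp only [coeAddMonoidHom_of, AddSubmonoidClass.coe_finsetSum]
      exact sum_support_decompose ℰ (c : E)
  exact
    { one_mem := SetLike.one_mem_graded ℰ
      mul_mem := fun _ _ _ _ hx hy => SetLike.mul_mem_graded (A := ℰ) hx hy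
      toDecomposition := hint.chooseDecomposition }

end SubGrade

variable {k L M : Type} [Field k] [Field L] [Algebra k L] [AddCommMonoid M]

/-- A subalgebra of a monoid algebra containing the monomials of its elements. -/
def IsHom (C : Subalgebra k (AddMonoidAlgebra L M)) : Prop :=
  ∀ c ∈ C, ∀ μ, single μ (c.coeff μ) ∈ C

lemma sum_mono (c : AddMonoidAlgebra L M) :
    ∑ μ ∈ c.coeff.support, single μ (c.coeff μ) = c := sum_coeff_single c

lemma mem_of_mono {C : Subalgebra k (AddMonoidAlgebra L M)} {c : AddMonoidAlgebra L M}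
    (h : ∀ μ ∈ c.coeff.support, single μ (c.coeff μ) ∈ C) : c ∈ C := by
  rw [← sum_mono c]; exact sum_mem h

lemma single_coeff_single (ν μ : M) (a : L) :
    (single μ ((single ν a).coeff μ) : AddMonoidAlgebra L M) = single ν a ∨
      (single μ ((single ν a).coeff μ) : AddMonoidAlgebra L M) = 0 := by
  by_cases h : ν = μ
  · left; subst h; simp
  · right; simp [Finsupp.single_eq_of_ne' h]

/-- The largest homogeneous subalgebra contained in a given one. -/
def homCore (C : Subalgebra k (AddMonoidAlgebra L M)) : Subalgebra k (AddMonoidAlgebra L M) where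
  carrier := {c | ∀ μ, single μ (c.coeff μ) ∈ C}
  add_mem' := fun {a b} ha hb μ => by
    rw [coeff_add, Finsupp.add_apply, single_add]; exact add_mem (ha μ) (hb μ)
  mul_mem' := fun {a b} ha hb μ => by
    rw [← sum_mono a, ← sum_mono b, Finset.sum_mul_sum, coeff_sum, Finsupp.finsetSum_apply,
      ← singleAddHom_apply, map_sum]
    refine sum_mem fun i _ => ?_
    rw [coeff_sum, Finsupp.finsetSum_apply, map_sum]
    refine sum_mem fun j _ => ?_
    have := mul_mem (ha i) (hb j)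
    rw [single_mul_single] at this ⊢
    rcases single_coeff_single (i + j) μ (a.coeff i * b.coeff j) with h | h <;>
      rw [singleAddHom_apply, h]
    exacts [this, zero_mem _]
  algebraMap_mem' := fun r μ => by
    have : algebraMap k (AddMonoidAlgebra L M) r = single 0 (algebraMap k L r) := rfl
    rcases single_coeff_single (0 : M) μ (algebraMap k L r) with h | h <;> rw [this, h]
    exacts [this ▸ C.algebraMap_mem r, zero_mem _]

lemma single_mem_homCore {C : Subalgebra k (AddMonoidAlgebra L M)} {ν : M} {a : L}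
    (h : single ν a ∈ C) : single ν a ∈ homCore C := fun μ => by
  rcases single_coeff_single ν μ a with h' | h' <;> rw [h']
  exacts [h, zero_mem _]

lemma isHom_iff {C : Subalgebra k (AddMonoidAlgebra L M)} : IsHom C ↔ C ≤ homCore C := Iff.rfl

lemma isHom_adjoin {S : Set (AddMonoidAlgebra L M)} (h : ∀ s ∈ S, ∃ μ a, s = single μ a) :
    IsHom (Algebra.adjoin k S) := by
  rw [isHom_iff, Algebra.adjoin_le_iff]
  intro s hs
  obtain ⟨μ, a, rfl⟩ := h s hs
  exact single_mem_homCore (Algebra.subset_adjoin hs)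

section Grade

variable {ι : Type} [DecidableEq ι] [AddCommMonoid ι]

variable (k L) in
/-- The grading of a monoid algebra along an additive map, over the small field. -/
noncomputable abbrev grd (ℓ : M →+ ι) (d : ι) : Submodule k (AddMonoidAlgebra L M) :=
  (gradeBy L ℓ d).restrictScalars k

lemma single_mem_grd (ℓ : M →+ ι) (μ : M) (a : L) : single μ a ∈ grd k L ℓ (ℓ μ) :=
  single_mem_gradeBy ℓ μ a

lemma mem_grd {ℓ : M →+ ι} {d : ι} {c : AddMonoidAlgebra L M} :
    c ∈ grd k L ℓ d ↔ ∀ μ ∈ c.coeff.support, ℓ μ = d := Iff.rfl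

lemma IsHom.decompose_mem {C : Subalgebra k (AddMonoidAlgebra L M)} (hC : IsHom C) (ℓ : M →+ ι) :
    ∀ c ∈ C, ∀ d, (decompose (grd k L ℓ) c d : AddMonoidAlgebra L M) ∈ C := by
  intro c hc d
  have h3 : ∀ z, (decompose (grd k L ℓ) z d : AddMonoidAlgebra L M) =
    GradedAlgebra.proj (grd k L ℓ) d z := fun z => rfl
  rw [← sum_mono c, h3, map_sum]
  refine sum_mem fun μ _ => ?_
  rw [← h3]
  by_cases h : ℓ μ = d
  · rw [decompose_of_mem_same (grd k L ℓ) (h ▸ single_mem_grd ℓ μ _)]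
    exact hC c hc μ
  · rw [decompose_of_mem_ne (grd k L ℓ) (single_mem_grd ℓ μ _) h]
    exact zero_mem _

end Grade

section

open AlgebraicGeometry CategoryTheory HomogeneousLocalization

variable {σ S : Type} [CommRing S] [IsDomain S] [SetLike σ S] [AddSubgroupClass σ S]
  (𝒜 : ℕ → σ) [GradedRing 𝒜]

lemma isIntegral_proj {s : S} {d : ℕ} (hs : s ∈ 𝒜 d) (hd : 0 < d) (hs0 : s ≠ 0) :
    IsIntegral (Proj 𝒜) := by
  have hred : IsReduced (Proj 𝒜) := by
    have : ∀ i, IsReduced ((Proj.affineOpenCover 𝒜).openCover.X i) := fun i => by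
      change IsReduced (Spec (CommRingCat.of (Away 𝒜 (i.2 : S))))
      have : _root_.IsReduced (Away 𝒜 (i.2 : S)) :=
        isReduced_of_injective (algebraMap _ (Localization.Away (i.2 : S)))
          (fun _ _ h => HomogeneousLocalization.val_injective _ h)
      infer_instance
    exact IsReduced.of_openCover _ (Proj.affineOpenCover 𝒜).openCover
  let η : Proj 𝒜 := (⟨⊥, Ideal.isPrime_bot, fun h => hs0
    (h (HomogeneousIdeal.mem_irrelevant_of_mem 𝒜 hd hs))⟩ : ProjectiveSpectrum 𝒜)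
  have hη : ∀ U : Set (Proj 𝒜), IsOpen U → U.Nonempty → η ∈ U := by
    rintro U hU ⟨x, hx⟩
    obtain ⟨_, ⟨_, ⟨f, rfl⟩, rfl⟩, hxf, hf⟩ :=
      (Proj.isBasis_basicOpen 𝒜).exists_subset_of_mem_open hx hU
    refine hf ?_
    change f ∉ (⊥ : HomogeneousIdeal 𝒜)
    intro h0
    have : f = 0 := h0
    exact hxf (this ▸ zero_mem _)
  have : PreirreducibleSpace (Proj 𝒜) := PreirreducibleSpace.of_forall_nonempty_inter
    fun U V hU hV hU' hV' => ⟨η, hη U hU hU', hη V hV hV'⟩
  have : IrreducibleSpace (Proj 𝒜) := { toNonempty := ⟨η⟩ }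
  exact isIntegral_of_irreducibleSpace_of_isReduced _

end

end Pool.Agent.MP_a703b5_ag

end MrgPart0

-- ======== part 1: formerly Pool.Agent.MP_a703b5_ag.ProjEmb
section MrgPart1

/-!
Closed immersions of `Proj`, and properness of projective schemes.
-/

set_option autoImplicit false
set_option linter.unusedSectionVars false
set_option linter.style.haveILetI false

open AlgebraicGeometry CategoryTheory HomogeneousLocalization DirectSum Limits

namespace Pool.Agent.MP_a703b5_ag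

section

variable {A B σ τ : Type} [CommRing A] [SetLike σ A] [AddSubgroupClass σ A]
  [CommRing B] [SetLike τ B] [AddSubgroupClass τ B]
  {𝒜 : ℕ → σ} {ℬ : ℕ → τ} [GradedRing 𝒜] [GradedRing ℬ] (f : 𝒜 →+*ᵍ ℬ)

lemma graded_surj (hf : Function.Surjective f) {d : ℕ} {b : B} (hb : b ∈ ℬ d) :
    ∃ a ∈ 𝒜 d, f a = b := by
  classical
  obtain ⟨a, rfl⟩ := hf b
  refine ⟨decompose 𝒜 a d, (decompose 𝒜 a d).2, ?_⟩
  have h : ∀ x : A, f (decompose 𝒜 x d) = decompose ℬ (f x) d := by
    intro x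
    induction x using Decomposition.inductionOn 𝒜 with
    | zero => simp
    | homogeneous x =>
      rename_i i
      by_cases hi : i = d
      · subst hi
        rw [decompose_of_mem_same 𝒜 x.2, decompose_of_mem_same ℬ (Graded.map_mem f x.2)]
      · rw [decompose_of_mem_ne 𝒜 x.2 hi, decompose_of_mem_ne ℬ (Graded.map_mem f x.2) hi,
          map_zero]
    | add x y hx hy => simp [decompose_add, hx, hy]
  rw [h, decompose_of_mem_same ℬ hb]

lemma irrelevant_le_of_surj (hf : Function.Surjective f) :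
    HomogeneousIdeal.irrelevant ℬ ≤ (HomogeneousIdeal.irrelevant 𝒜).map f := by
  rw [← toIdeal_le_toIdeal_iff, HomogeneousIdeal.toIdeal_irrelevant_le]
  intro i hi x hx
  obtain ⟨a, ha, rfl⟩ := graded_surj f hf hx
  exact Ideal.mem_map_of_mem _ (HomogeneousIdeal.mem_irrelevant_of_mem 𝒜 hi ha)

lemma isClosedImmersion_map (hf : Function.Surjective f) :
    IsClosedImmersion (Proj.map f (irrelevant_le_of_surj f hf)) := by
  refine IsZariskiLocalAtTarget.of_openCover (P := @IsClosedImmersion)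
    (Proj.affineOpenCover 𝒜).openCover fun i => ?_
  have hi : 0 < (i.1 : ℕ) := i.1.2
  have hp : IsPullback (Proj.awayι ℬ (f i.2) (Graded.map_mem f i.2.2) hi)
      (Spec.map (CommRingCat.ofHom (Away.map f (i.2 : A))))
      (Proj.map f (irrelevant_le_of_surj f hf)) (Proj.awayι 𝒜 (i.2 : A) i.2.2 hi) := by
    refine (IsOpenImmersion.isPullback _ _ _ _ (Proj.awayι_comp_map f _ hi _ i.2.2) ?_).flip
    rw [Proj.opensRange_awayι, Proj.opensRange_awayι]
    rfl
  have hc : IsClosedImmersion (Spec.map (CommRingCat.ofHom (Away.map f (i.2 : A)))) := by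
    refine IsClosedImmersion.spec_of_surjective _ fun z => ?_
    obtain ⟨n, b, hb, rfl⟩ := Away.mk_surjective ℬ (Graded.map_mem f i.2.2) z
    obtain ⟨a, ha, rfl⟩ := graded_surj f hf hb
    exact ⟨Away.mk 𝒜 i.2.2 n a ha, Away.map_mk ..⟩
  have e := hp.isoPullback_inv_snd
  change IsClosedImmersion (pullback.snd _ (Proj.awayι 𝒜 (i.2 : A) i.2.2 hi))
  rw [← e]
  infer_instance

end

attribute [local instance] MvPolynomial.gradedAlgebra

lemma isProper_proj (n : ℕ) :
    IsProper (Proj.toSpecZero (MvPolynomial.homogeneousSubmodule (Fin (n + 1)) ℂ) ≫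
      Spec.map (CommRingCat.ofHom
      (algebraMap ℂ (MvPolynomial.homogeneousSubmodule (Fin (n + 1)) ℂ 0)))) := by
  have h1 : Algebra.FiniteType (MvPolynomial.homogeneousSubmodule (Fin (n + 1)) ℂ 0)
      (MvPolynomial (Fin (n + 1)) ℂ) := by
    have := IsScalarTower.of_algebraMap_eq (R := ℂ)
      (S := MvPolynomial.homogeneousSubmodule (Fin (n + 1)) ℂ 0)
      (A := MvPolynomial (Fin (n + 1)) ℂ) fun _ => rfl
    exact Algebra.FiniteType.of_restrictScalars_finiteType ℂ _ _
  have h2 : IsIso (Spec.map (CommRingCat.ofHom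
      (algebraMap ℂ (MvPolynomial.homogeneousSubmodule (Fin (n + 1)) ℂ 0)))) := by
    refine isIso_SpecMap_iff.mpr ⟨fun a b h => MvPolynomial.C_injective (Fin (n + 1)) ℂ
      (congrArg Subtype.val h), fun x => ?_⟩
    have hx : (x : MvPolynomial (Fin (n + 1)) ℂ).totalDegree = 0 :=
      Nat.le_zero.mp (MvPolynomial.IsHomogeneous.totalDegree_le x.2)
    exact ⟨_, Subtype.ext (MvPolynomial.totalDegree_eq_zero_iff_eq_C.mp hx).symm⟩
  infer_instance

lemma IsProjective.isProper {X : Scheme.{0}} {s : X ⟶ Spec (CommRingCat.of ℂ)}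
    (h : IsProjective s) : IsProper s := by
  obtain ⟨n, i, hi, rfl⟩ := h
  have := isProper_proj n
  infer_instance

end Pool.Agent.MP_a703b5_ag

end MrgPart1

-- ======== part 2: formerly Pool.Agent.MP_a703b5_ag.Model
section MrgPart2

/-!
A finite family of charts inside a field, glued along ratios of sections and satisfying the
valuative criterion, is the affine cover of a projective variety (adapted from MP_19ffc6_ag).
-/

set_option autoImplicit false
set_option linter.unusedSectionVars false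
set_option linter.style.haveILetI false

open AlgebraicGeometry CategoryTheory AddMonoidAlgebra DirectSum

namespace Pool.Agent.MP_a703b5_ag

attribute [local instance] MvPolynomial.gradedAlgebra

lemma exists_uniform {κ : Type} [Finite κ] (P : κ → ℕ → Prop)
    (mono : ∀ x n, P x n → P x (n + 1)) (h : ∀ x, ∃ n, P x n) : ∃ N, 0 < N ∧ ∀ x, P x N := by
  choose n hn using h
  have := Fintype.ofFinite κ
  refine ⟨Finset.univ.sup n + 1, Nat.succ_pos _, fun x => ?_⟩
  have h1 : n x ≤ Finset.univ.sup n + 1 :=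
    (Finset.le_sup (f := n) (Finset.mem_univ x)).trans (Nat.le_succ _)
  exact Nat.le_induction (hn x) (fun m _ hm => mono x m hm) _ h1

variable {K : Type} [Field K] [Algebra ℂ K]

/-- Evaluation of the homogenising variable. -/
noncomputable def evN (t : K) : AddMonoidAlgebra K ℕ →ₐ[ℂ] K :=
  (lift K K ℕ (powersHom K t)).restrictScalars ℂ

lemma evN_single (t : K) (n : ℕ) (a : K) : evN t (single n a) = a * t ^ n := by
  simp [evN]

variable {n : ℕ} (μ : Fin (n + 1) → K)

/-- The homogeneous coordinate ring. -/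
noncomputable def coord : Subalgebra ℂ (AddMonoidAlgebra K ℕ) :=
  Algebra.adjoin ℂ (Set.range fun i => single 1 (μ i))

lemma isHom_coord : IsHom (coord μ) := isHom_adjoin (by
  rintro _ ⟨a, rfl⟩; exact ⟨_, _, rfl⟩)

/-- The grading of the homogeneous coordinate ring. -/
noncomputable abbrev coordGr : ℕ → Submodule ℂ (coord μ) :=
  subGr (grd ℂ K (AddMonoidHom.id ℕ)) (coord μ)

noncomputable instance : GradedAlgebra (coordGr μ) :=
  subGraded _ _ ((isHom_coord μ).decompose_mem _)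

variable {μ}

lemma eq_single_of_mem {d : ℕ} {x : coord μ} (hx : x ∈ coordGr μ d) :
    (x : AddMonoidAlgebra K ℕ) = single d ((x : AddMonoidAlgebra K ℕ).coeff d) := by
  have h : (x : AddMonoidAlgebra K ℕ).coeff.support ⊆ {d} := fun μ hμ =>
    Finset.mem_singleton.mpr (hx μ hμ)
  rw [← coeff_inj, coeff_single]
  exact Finsupp.support_subset_singleton.mp h |>.trans (by simp)

lemma evN_inj {t : K} (ht : t ≠ 0) {d : ℕ} {x y : coord μ} (hx : x ∈ coordGr μ d)
    (hy : y ∈ coordGr μ d) (h : evN t x = evN t y) : x = y := by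
  rw [eq_single_of_mem hx, eq_single_of_mem hy, evN_single, evN_single,
    mul_left_inj' (pow_ne_zero _ ht)] at h
  exact Subtype.ext (by rw [eq_single_of_mem hx, eq_single_of_mem hy, h])

lemma evN_mem (t : K) (W : Subalgebra ℂ K) (h1 : ∀ i, μ i * t ∈ W)
    (x : coord μ) : evN t x ∈ W := by
  have : coord μ ≤ W.comap (evN t) := by
    rw [coord, Algebra.adjoin_le_iff]
    rintro _ ⟨i, rfl⟩
    simpa [evN_single] using h1 i
  exact this x.2

variable (μ) in
/-- The generators of degree one. -/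
noncomputable def gen (i : Fin (n + 1)) : coord μ :=
  ⟨single 1 (μ i), Algebra.subset_adjoin ⟨i, rfl⟩⟩

lemma gen_mem (i : Fin (n + 1)) : gen μ i ∈ coordGr μ 1 :=
  single_mem_grd (k := ℂ) (AddMonoidHom.id ℕ) 1 _

lemma evN_gen (t : K) (i : Fin (n + 1)) : evN t (gen μ i) = μ i * t := by simp [gen, evN_single]

variable (μ) in
/-- The presentation of the coordinate ring. -/
noncomputable def pres :
    MvPolynomial.homogeneousSubmodule (Fin (n + 1)) ℂ →+*ᵍ coordGr μ where
  toRingHom := (MvPolynomial.aeval (gen μ) : _ →ₐ[ℂ] coord μ).toRingHom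
  map_mem := fun {d x} hx => by
    change MvPolynomial.aeval (gen μ) x ∈ _
    rw [← MvPolynomial.support_sum_monomial_coeff x, map_sum]
    refine Submodule.sum_mem _ fun α hα => ?_
    rw [MvPolynomial.aeval_monomial, ← Algebra.smul_def]
    refine Submodule.smul_mem _ _ ?_
    have hd : α.degree = d := by
      have := hx (MvPolynomial.mem_support_iff.mp hα)
      rw [Finsupp.degree_eq_weight_one]
      exact this
    rw [← hd, Finsupp.prod, Finsupp.degree_apply]
    refine SetLike.prod_mem_graded _ _ _ fun i _ => ?_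
    simpa using SetLike.pow_mem_graded (α i) (gen_mem (μ := μ) i)

lemma pres_X (i : Fin (n + 1)) : pres μ (MvPolynomial.X i) = gen μ i :=
  MvPolynomial.aeval_X _ _

lemma pres_C (c : ℂ) : pres μ (MvPolynomial.C c) = algebraMap ℂ _ c :=
  MvPolynomial.aeval_C _ _

lemma pres_surj : Function.Surjective (pres μ) := by
  rintro ⟨x, hx⟩
  induction hx using Algebra.adjoin_induction with
  | mem x hx =>
    obtain ⟨i, rfl⟩ := hx
    exact ⟨_, pres_X i⟩
  | algebraMap r => exact ⟨_, pres_C r⟩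
  | add x y _ _ hx hy =>
    obtain ⟨a, ha⟩ := hx
    obtain ⟨b, hb⟩ := hy
    exact ⟨a + b, by rw [map_add, ha, hb]; rfl⟩
  | mul x y _ _ hx hy =>
    obtain ⟨a, ha⟩ := hx
    obtain ⟨b, hb⟩ := hy
    exact ⟨a * b, by rw [map_mul, ha, hb]; rfl⟩

lemma exists_gen_notMem (x : Proj (coordGr μ)) : ∃ i, gen μ i ∉ x.asHomogeneousIdeal := by
  have h := Proj.iSup_basicOpen_eq_top' (MvPolynomial.homogeneousSubmodule (Fin (n + 1)) ℂ)
    MvPolynomial.X (fun i => ⟨1, MvPolynomial.isHomogeneous_X ℂ i⟩) (by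
      rw [eq_top_iff]
      intro p _
      induction p using MvPolynomial.induction_on with
      | C a =>
        exact Subalgebra.algebraMap_mem _
          (algebraMap ℂ (MvPolynomial.homogeneousSubmodule (Fin (n + 1)) ℂ 0) a)
      | add p q hp hq => exact add_mem (hp trivial) (hq trivial)
      | mul_X p i hp => exact mul_mem (hp trivial) (Algebra.subset_adjoin ⟨i, rfl⟩))
  obtain ⟨i, hi⟩ := TopologicalSpace.Opens.mem_iSup.mp (h.ge (Set.mem_univ
    (Proj.map (pres μ) (irrelevant_le_of_surj _ pres_surj) x)))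
  exact ⟨i, by rw [← pres_X]; exact hi⟩

/-- Every point of `Proj` is the centre of a valuation. -/
lemma exists_valuation (x : Proj (coordGr μ)) (m : Fin (n + 1))
    (hm : gen μ m ∉ x.asHomogeneousIdeal) :
    ∃ O : ValuationSubring K, (∀ a : ℂ, algebraMap ℂ K a ∈ O) ∧
      ∀ m', gen μ m' ∈ x.asHomogeneousIdeal → μ m' * (μ m)⁻¹ ∈ O.nonunits := by
  classical
  have hm0 : μ m ≠ 0 := fun h => hm (by
    have : gen μ m = 0 := Subtype.ext (by simp [gen, h])
    rw [this]; exact zero_mem _)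
  let ρ : coord μ →+* K := (evN (μ m)⁻¹).toRingHom.comp (coord μ).val.toRingHom
  have hρ : ∀ y, ρ y = evN (μ m)⁻¹ y := fun y => rfl
  have hρm : ρ (gen μ m) = 1 := by rw [hρ, evN_gen, mul_inv_cancel₀ hm0]
  have hne : x.asHomogeneousIdeal.toIdeal.map ρ.rangeRestrict ≠ ⊤ := by
    rw [Ideal.ne_top_iff_one, Ideal.mem_map_iff_of_surjective _ ρ.rangeRestrict_surjective]
    rintro ⟨y, hy, hy1⟩
    have hy2 : ρ y = 1 := congrArg Subtype.val hy1
    have key : ∃ D z, z ∈ coordGr μ D ∧ z ∈ x.asHomogeneousIdeal.toIdeal ∧ ρ z = ρ y := by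
      rw [← sum_support_decompose (coordGr μ) y]
      refine Finset.sum_induction _ (fun w => ∃ D z, z ∈ coordGr μ D ∧
        z ∈ x.asHomogeneousIdeal.toIdeal ∧ ρ z = ρ w) ?_ ⟨0, 0, zero_mem _, zero_mem _, rfl⟩ ?_
      · rintro w w' ⟨D, z, hz, hz', hz''⟩ ⟨D', u, hu, hu', hu''⟩
        refine ⟨D + D', z * gen μ m ^ D' + gen μ m ^ D * u, add_mem ?_ ?_,
          add_mem (Ideal.mul_mem_right _ _ hz') (Ideal.mul_mem_left _ _ hu'), ?_⟩
        · simpa using SetLike.mul_mem_graded hz (SetLike.pow_mem_graded D' (gen_mem m))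
        · simpa using SetLike.mul_mem_graded (SetLike.pow_mem_graded D (gen_mem m)) hu
        · simp [hρm, hz'', hu'']
      · intro d _
        exact ⟨d, _, (decompose (coordGr μ) y d).2, x.asHomogeneousIdeal.isHomogeneous d hy, rfl⟩
    obtain ⟨D, z, hz, hz', hz''⟩ := key
    have : z = gen μ m ^ D := evN_inj (inv_ne_zero hm0) hz
      (by simpa using SetLike.pow_mem_graded D (gen_mem m))
      (by rw [← hρ, ← hρ, hz'', hy2, map_pow, hρm, one_pow])
    exact hm (x.isPrime.mem_of_pow_mem D (this ▸ hz'))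
  obtain ⟨O, hO, hO'⟩ := Ideal.image_subset_nonunits_valuationSubring _ hne
  refine ⟨O, fun a => hO ⟨algebraMap ℂ _ a, (evN (μ m)⁻¹).commutes a⟩, fun m' hm' => ?_⟩
  exact hO' ⟨_, Ideal.mem_map_of_mem _ hm', evN_gen _ m'⟩

/-- The degree zero localization, mapped to the field. -/
noncomputable def awayTo (x : coord μ) (hx : evN 1 (x : AddMonoidAlgebra K ℕ) ≠ 0) :
    HomogeneousLocalization.Away (coordGr μ) x →+* K :=
  (Localization.awayLift ((evN (1 : K)).toRingHom.comp (coord μ).val.toRingHom) x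
    (isUnit_iff_exists_inv.mpr ⟨_, mul_inv_cancel₀ hx⟩)).comp (algebraMap _ _)

lemma awayTo_mk {x : coord μ} (hx : evN 1 (x : AddMonoidAlgebra K ℕ) ≠ 0) {d : ℕ}
    (hd : x ∈ coordGr μ d) (k : ℕ) (a : coord μ) (ha : a ∈ coordGr μ (k • d)) :
    awayTo x hx (HomogeneousLocalization.Away.mk _ hd k a ha) =
      evN 1 (a : AddMonoidAlgebra K ℕ) * (evN 1 (x : AddMonoidAlgebra K ℕ))⁻¹ ^ k :=
  Localization.awayLift_mk ((evN (1 : K)).toRingHom.comp (coord μ).val.toRingHom) x a _
    (mul_inv_cancel₀ hx) k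

lemma awayTo_awayMap {x y w : coord μ} {d e : ℕ} (hd : x ∈ coordGr μ d) (he : y ∈ coordGr μ e)
    (h : w = x * y) (hx : evN 1 (x : AddMonoidAlgebra K ℕ) ≠ 0)
    (hw : evN 1 (w : AddMonoidAlgebra K ℕ) ≠ 0) :
    (awayTo w hw).comp (HomogeneousLocalization.awayMap _ he h) = awayTo x hx := by
  refine RingHom.ext fun z => ?_
  obtain ⟨k, a, ha, rfl⟩ := HomogeneousLocalization.Away.mk_surjective _ hd z
  rw [RingHom.comp_apply, HomogeneousLocalization.awayMap_mk, awayTo_mk, awayTo_mk]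
  subst h
  simp only [MulMemClass.coe_mul, map_mul, SubmonoidClass.coe_pow, map_pow] at hw ⊢
  have hy := right_ne_zero_of_mul hw
  rw [mul_inv, mul_pow, mul_assoc, mul_left_comm (_ ^ k), ← mul_pow, mul_inv_cancel₀ hy, one_pow,
    mul_one]

lemma awayTo_inj {x : coord μ} (hx : evN 1 (x : AddMonoidAlgebra K ℕ) ≠ 0) {d : ℕ}
    (hd : x ∈ coordGr μ d) : Function.Injective (awayTo x hx) := by
  rw [injective_iff_map_eq_zero]
  intro z hz
  obtain ⟨k, a, ha, rfl⟩ := HomogeneousLocalization.Away.mk_surjective _ hd z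
  rw [awayTo_mk, mul_eq_zero, or_iff_left (pow_ne_zero _ (inv_ne_zero hx))] at hz
  obtain rfl : a = 0 := evN_inj one_ne_zero ha (zero_mem _) (by rw [hz]; simp)
  ext
  simp [Localization.mk_zero]

lemma evN_of_mem {d : ℕ} {a : coord μ} (ha : a ∈ coordGr μ d) (t : K) :
    evN t (a : AddMonoidAlgebra K ℕ) = evN 1 (a : AddMonoidAlgebra K ℕ) * t ^ d := by
  rw [eq_single_of_mem ha, evN_single, evN_single, one_pow, mul_one]

variable (K) in
/-- Charts inside a field. -/
structure Charts (ι : Type) where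
  /-- the coordinate rings -/
  B : ι → Subalgebra ℂ K
  /-- the sections -/
  f : ι → K
  f_ne : ∀ j, f j ≠ 0
  ratio : ∀ i j, f i / f j ∈ B j
  comp : ∀ i j, ∀ c ∈ B i, ∃ N : ℕ, (f i / f j) ^ N * c ∈ B j
  fg : ∀ j, (B j).FG
  proper : ∀ O : ValuationSubring K, (∀ c : ℂ, algebraMap ℂ K c ∈ O) → ∃ j, ∀ c ∈ B j, c ∈ O
  frac : ∀ j (x : K), ∃ a ∈ B j, ∃ b ∈ B j, b ≠ 0 ∧ x * b = a

/-- A projective variety with the given charts. -/
structure Model {ι : Type} (𝒞 : Charts K ι) where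
  /-- the scheme -/
  X : Scheme.{0}
  /-- the structure map -/
  s : X ⟶ Spec (CommRingCat.of ℂ)
  /-- the charts -/
  ch : ∀ j, Spec (CommRingCat.of (𝒞.B j)) ⟶ X
  proj : IsProjective s
  integral : IsIntegral X
  openImm : ∀ j, IsOpenImmersion (ch j)
  cover : ∀ x, ∃ j p, ch j p = x
  ch_s : ∀ j, ch j ≫ s = Spec.map (CommRingCat.ofHom (algebraMap ℂ (𝒞.B j)))
  gen : ∀ i j, Spec.map (CommRingCat.ofHom (𝒞.B i).val.toRingHom) ≫ ch i =
    Spec.map (CommRingCat.ofHom (𝒞.B j).val.toRingHom) ≫ ch j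
  overlap : ∀ i j (p : Spec (CommRingCat.of (𝒞.B j))),
    ch j p ∈ Set.range (ch i) ↔ (⟨_, 𝒞.ratio i j⟩ : 𝒞.B j) ∉ p.asIdeal

theorem exists_model {ι : Type} [Finite ι] (𝒞 : Charts K ι) : Nonempty (Model 𝒞) := by
  classical
  obtain ⟨B, f, hf, ratio, comp, hfg, proper, frac⟩ := 𝒞
  choose t ht using id hfg
  have htB : ∀ j, ∀ c ∈ t j, c ∈ B j := fun j c hc => ht j ▸ Algebra.subset_adjoin hc
  obtain ⟨N, hN, hNt⟩ := exists_uniform (κ := (Σ i, t i) × ι)
    (fun x n => (f x.1.1 / f x.2) ^ n * x.1.2 ∈ B x.2)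
    (fun x n h => by rw [pow_succ', mul_assoc]; exact mul_mem (ratio _ _) h)
    (fun x => comp _ _ _ (htB _ _ x.1.2.2))
  obtain ⟨j₀, -⟩ := proper ⊤ fun _ => trivial
  let ν : ι ⊕ (Σ i, t i) → K := Sum.elim (fun i => f i ^ N) fun x => f x.1 ^ N * x.2
  obtain ⟨n, ⟨e⟩⟩ : ∃ n, Nonempty (Fin (n + 1) ≃ (ι ⊕ (Σ i, t i))) := by
    obtain ⟨m, ⟨e⟩⟩ := Finite.exists_equiv_fin (ι ⊕ (Σ i, t i))
    cases m with
    | zero => exact (e (Sum.inl j₀)).elim0
    | succ n => exact ⟨n, ⟨e.symm⟩⟩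
  let μ : Fin (n + 1) → K := ν ∘ e
  have hMB : ∀ j m, μ m * (f j ^ N)⁻¹ ∈ B j := by
    intro j m
    simp only [μ, Function.comp]
    rcases e m with i | x
    · simpa [ν, div_eq_mul_inv, mul_pow] using pow_mem (ratio i j) N
    · convert hNt (x, j) using 1
      simp only [ν, Sum.elim_inr]
      rw [div_pow]; ring
  let s : ι → Fin (n + 1) := fun j => e.symm (Sum.inl j)
  have hs : ∀ j, μ (s j) = f j ^ N := fun j => by simp [μ, s, ν]
  have hs1 : ∀ j, evN 1 (gen μ (s j) : AddMonoidAlgebra K ℕ) = f j ^ N := fun j => by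
    rw [evN_gen, hs, mul_one]
  have hs0 : ∀ j, evN 1 (gen μ (s j) : AddMonoidAlgebra K ℕ) ≠ 0 := fun j => by
    rw [hs1]; exact pow_ne_zero _ (hf j)
  let Φ := fun j => awayTo (gen μ (s j)) (hs0 j)
  have hΦM : ∀ j m, Φ j (HomogeneousLocalization.Away.mk _ (gen_mem (s j)) 1 (gen μ m)
      (by simpa using gen_mem m)) = μ m * (f j ^ N)⁻¹ := fun j m => by
    rw [awayTo_mk, hs1, evN_gen, mul_one, pow_one]
  have hΦc : ∀ j (c : ℂ), Φ j (HomogeneousLocalization.Away.mk _ (gen_mem (s j)) 0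
      (algebraMap ℂ _ c) (by simpa using SetLike.algebraMap_mem_graded _ c)) =
      algebraMap ℂ K c := fun j c => by
    rw [awayTo_mk, pow_zero, mul_one]
    exact (evN 1).commutes c
  have hΦB : ∀ j z, Φ j z ∈ B j := fun j z => by
    obtain ⟨k, a, ha, rfl⟩ := HomogeneousLocalization.Away.mk_surjective _ (gen_mem (s j)) z
    rw [awayTo_mk, hs1]
    have := evN_mem _ _ (hMB j) a
    rwa [evN_of_mem ha, smul_eq_mul, mul_one] at this
  have hBΦ : ∀ j, ∀ c ∈ B j, ∃ z, Φ j z = c := by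
    intro j c hc
    rw [← ht j] at hc
    induction hc using Algebra.adjoin_induction with
    | mem x hx =>
      refine ⟨_, (hΦM j (e.symm (Sum.inr ⟨j, x, hx⟩))).trans ?_⟩
      simp only [μ, ν, Function.comp, Equiv.apply_symm_apply, Sum.elim_inr]
      rw [mul_right_comm, mul_inv_cancel₀ (pow_ne_zero _ (hf j)), one_mul]
    | algebraMap r => exact ⟨_, hΦc j r⟩
    | add x y _ _ hx hy =>
      obtain ⟨z, rfl⟩ := hx
      obtain ⟨w, rfl⟩ := hy
      exact ⟨z + w, map_add _ _ _⟩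
    | mul x y _ _ hx hy =>
      obtain ⟨z, rfl⟩ := hx
      obtain ⟨w, rfl⟩ := hy
      exact ⟨z * w, map_mul _ _ _⟩
  let Ψ : ∀ j, HomogeneousLocalization.Away (coordGr μ) (gen μ (s j)) →+* B j := fun j =>
    (Φ j).codRestrict (B j) (hΦB j)
  have hΨ : ∀ j, IsIso (Spec.map (CommRingCat.ofHom (Ψ j))) := fun j =>
    isIso_SpecMap_iff.mpr ⟨fun x y h => awayTo_inj _ (gen_mem _) (congrArg Subtype.val h),
      fun c => by
        obtain ⟨z, hz⟩ := hBΦ j c c.2
        exact ⟨z, Subtype.ext hz⟩⟩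
  let i := Proj.map (pres μ) (irrelevant_le_of_surj _ pres_surj)
  have hcov : ∀ x : Proj (coordGr μ), ∃ j, gen μ (s j) ∉ x.asHomogeneousIdeal := by
    intro x
    obtain ⟨m, hm⟩ := exists_gen_notMem x
    obtain ⟨O, hO, hO'⟩ := exists_valuation x m hm
    obtain ⟨i, hi⟩ := proper O hO
    refine ⟨i, fun h => ?_⟩
    have h1 := hO' _ h
    have hm0 : μ m ≠ 0 := fun h => hm (by
      have : gen μ m = 0 := Subtype.ext (by simp [gen, h])
      rw [this]; exact zero_mem _)
    rw [← inv_inv (μ (s i) * _), ValuationSubring.inv_mem_nonunits_iff, hs] at h1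
    rcases h1 with h1 | h1
    · exact inv_ne_zero (mul_ne_zero (pow_ne_zero _ (hf i)) (inv_ne_zero hm0)) h1
    · apply h1
      rw [mul_inv, inv_inv, mul_comm]
      exact hi _ (hMB i m)
  have hrange : ∀ j, Set.range (Spec.map (CommRingCat.ofHom (Ψ j)) ≫
      Proj.awayι (coordGr μ) (gen μ (s j)) (gen_mem _) one_pos) =
      Proj.basicOpen (coordGr μ) (gen μ (s j)) := fun j => by
    have := hΨ j
    rw [← Proj.opensRange_awayι (coordGr μ) _ (gen_mem _) one_pos, ← Scheme.Hom.coe_opensRange,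
      Scheme.Hom.opensRange_comp_of_isIso]
  refine ⟨⟨Proj (coordGr μ), _, fun j => Spec.map (CommRingCat.ofHom (Ψ j)) ≫
    Proj.awayι (coordGr μ) (gen μ (s j)) (gen_mem _) one_pos,
    ⟨n, i, isClosedImmersion_map _ pres_surj, rfl⟩,
    isIntegral_proj _ (gen_mem (s j₀)) one_pos ?_, fun j => ?_, fun x => ?_, fun j => ?_,
    fun i j => ?_, fun i j p => ?_⟩⟩
  · intro h
    exact hs0 j₀ (by rw [h]; simp)
  · have := hΨ j
    infer_instance
  · obtain ⟨j, hj⟩ := hcov x
    exact ⟨j, (hrange j).ge hj⟩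
  · have key : ∀ (x : coord μ) (h : pres μ (MvPolynomial.X (s j)) = x) (hx : x ∈ coordGr μ 1),
        Proj.awayι (coordGr μ) x hx one_pos ≫ i ≫ Proj.toSpecZero _ ≫ Spec.map (CommRingCat.ofHom
          (algebraMap ℂ (MvPolynomial.homogeneousSubmodule (Fin (n + 1)) ℂ 0))) =
        Spec.map (CommRingCat.ofHom ((HomogeneousLocalization.fromZeroRingHom _ _).comp
          (algebraMap ℂ (coordGr μ 0)))) := by
      rintro _ rfl hx
      rw [Proj.awayι_comp_map_assoc _ _ one_pos _ (MvPolynomial.isHomogeneous_X ℂ (s j)),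
        Proj.awayι_toSpecZero_assoc, ← Spec.map_comp, ← Spec.map_comp]
      congr 1
      refine CommRingCat.hom_ext (RingHom.ext fun c => ?_)
      have h1 : ∀ (y : MvPolynomial.homogeneousSubmodule (Fin (n + 1)) ℂ 0),
          HomogeneousLocalization.fromZeroRingHom _ _ y = HomogeneousLocalization.Away.mk
            (MvPolynomial.homogeneousSubmodule (Fin (n + 1)) ℂ) (f := MvPolynomial.X (s j))
            (MvPolynomial.isHomogeneous_X ℂ (s j)) 0 y y.2 := fun y => rfl
      change HomogeneousLocalization.Away.map _ _ (HomogeneousLocalization.fromZeroRingHom _ _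
        (algebraMap ℂ _ c)) = _
      rw [h1, HomogeneousLocalization.Away.map_mk]
      ext
      rw [HomogeneousLocalization.Away.val_mk]
      change Localization.mk (pres μ (MvPolynomial.C c)) _ = _
      rw [pres_C]
      rfl
    rw [Category.assoc, key _ (pres_X _), ← Spec.map_comp]
    congr 1
    exact CommRingCat.hom_ext (RingHom.ext fun c => Subtype.ext (hΦc j c))
  · have h0 : evN 1 ((gen μ (s i) * gen μ (s j) : coord μ) : AddMonoidAlgebra K ℕ) ≠ 0 := by
      simpa using ⟨hs0 i, hs0 j⟩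
    have e1 : ∀ k, Spec.map (CommRingCat.ofHom (B k).val.toRingHom) ≫
        Spec.map (CommRingCat.ofHom (Ψ k)) = Spec.map (CommRingCat.ofHom (Φ k)) := fun k => by
      rw [← Spec.map_comp]; rfl
    rw [← Category.assoc, ← Category.assoc, e1, e1]
    simp only [Φ]
    rw [← awayTo_awayMap (gen_mem _) (gen_mem (s j)) rfl (hs0 i) h0,
      ← awayTo_awayMap (gen_mem _) (gen_mem (s i)) (mul_comm _ _) (hs0 j) h0,
      CommRingCat.ofHom_comp, CommRingCat.ofHom_comp, Spec.map_comp, Spec.map_comp,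
      Category.assoc, Category.assoc, Proj.SpecMap_awayMap_awayι, Proj.SpecMap_awayMap_awayι]
  · rw [hrange]
    change Spec.map (CommRingCat.ofHom (Ψ j)) p ∈ Proj.awayι (coordGr μ) (gen μ (s j))
      (gen_mem _) one_pos ⁻¹ᵁ Proj.basicOpen (coordGr μ) (gen μ (s i)) ↔ _
    rw [Proj.awayι_preimage_basicOpen (coordGr μ) (gen_mem _) one_pos (gen_mem _) one_pos]
    have h1 : Ψ j (HomogeneousLocalization.Away.isLocalizationElem (gen_mem (s j))
        (gen_mem (s i))) = (⟨_, ratio i j⟩ : B j) ^ N := by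
      refine Subtype.ext ?_
      change Φ j (HomogeneousLocalization.Away.mk _ _ _ _ _) = (f i / f j) ^ N
      rw [awayTo_mk, pow_one, pow_one, hs1, hs1, div_pow, div_eq_mul_inv]
    change Ψ j _ ∉ p.asIdeal ↔ _
    rw [h1, p.isPrime.pow_mem_iff_mem N hN]

end Pool.Agent.MP_a703b5_ag

end MrgPart2

-- ======== part 3: formerly Pool.Agent.MP_a703b5_ag.Stalk
section MrgPart3

/-!
Local rings of a model as subrings of the field.
-/

set_option autoImplicit false
set_option linter.unusedSectionVars false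
set_option linter.style.haveILetI false

open AlgebraicGeometry CategoryTheory TopologicalSpace

namespace Pool.Agent.MP_a703b5_ag

variable {K : Type} [Field K] [Algebra ℂ K] {ι : Type} {𝒞 : Charts K ι}

lemma isDominant_spec {A B : Type} [CommRing A] [CommRing B] (φ : A →+* B)
    (h : Function.Injective φ) : IsDominant (Spec.map (CommRingCat.ofHom φ)) :=
  ⟨(PrimeSpectrum.denseRange_comap_iff_ker_le_nilRadical φ).mpr (by
    rw [(RingHom.injective_iff_ker_eq_bot φ).mp h]; exact bot_le)⟩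

namespace Model

variable (M : Model 𝒞)

instance : IsIntegral M.X := M.integral
instance (j : ι) : IsOpenImmersion (M.ch j) := M.openImm j
instance : IsProper M.s := M.proj.isProper
instance : IsLocallyNoetherian M.X := LocallyOfFiniteType.isLocallyNoetherian M.s
instance : M.X.IsSeparated := ⟨by
  rw [← Limits.terminal.comp_from M.s]
  infer_instance⟩

lemma ch_bot (j : ι) : M.ch j (⊥ : PrimeSpectrum (𝒞.B j)) = genericPoint M.X := by
  rw [← genericPoint_eq_of_isOpenImmersion (M.ch j)]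
  exact congrArg _ (genericPoint_eq_bot_of_affine (CommRingCat.of (𝒞.B j))).symm

lemma exists_chart₀ {j : ι} {p : Spec (CommRingCat.of (𝒞.B j))} {x : M.X} (h : M.ch j p = x) :
    ∃ φ : 𝒞.B j →+* M.X.presheaf.stalk x,
      Spec.map (CommRingCat.ofHom φ) ≫ M.ch j = M.X.fromSpecStalk x ∧
      (letI := φ.toAlgebra; IsLocalization.AtPrime (M.X.presheaf.stalk x) p.asIdeal) := by
  subst h
  let e := (asIso ((M.ch j).stalkMap p)).symm
  refine ⟨(StructureSheaf.toStalk (𝒞.B j) p ≫ e.hom).hom, ?_, ?_⟩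
  · have h1 := Scheme.SpecMap_stalkMap_fromSpecStalk (M.ch j) (x := p)
    rw [Spec.fromSpecStalk_eq'] at h1
    rw [CommRingCat.ofHom_hom, Spec.map_comp, Category.assoc]
    have h2 : Spec.map e.hom ≫ Spec.map ((M.ch j).stalkMap p) ≫ M.X.fromSpecStalk (M.ch j p) =
        M.X.fromSpecStalk (M.ch j p) := by
      rw [← Spec.map_comp_assoc]
      simp [e]
    rw [h1] at h2
    exact h2
  · letI k : Algebra (𝒞.B j) ((Spec (CommRingCat.of (𝒞.B j))).presheaf.stalk p) :=
      StructureSheaf.stalkAlgebra (𝒞.B j) p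
    have : IsLocalization.AtPrime ((Spec (CommRingCat.of (𝒞.B j))).presheaf.stalk p) p.asIdeal :=
      StructureSheaf.IsLocalization.to_stalk (𝒞.B j) p
    letI := (StructureSheaf.toStalk (𝒞.B j) p ≫ e.hom).hom.toAlgebra
    exact IsLocalization.isLocalization_of_algEquiv p.asIdeal.primeCompl
      (AlgEquiv.ofRingEquiv (f := e.commRingCatIsoToRingEquiv) fun _ => rfl)

lemma exists_e : ∃ e : M.X.functionField ≃+* K, ∀ j,
    Spec.map (CommRingCat.ofHom e.toRingHom) ≫ M.X.fromSpecStalk (genericPoint M.X) =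
      Spec.map (CommRingCat.ofHom (𝒞.B j).val.toRingHom) ≫ M.ch j := by
  obtain ⟨j, -⟩ := 𝒞.proper ⊤ fun _ => trivial
  obtain ⟨φ, h1, h2⟩ := M.exists_chart₀ (M.ch_bot j)
  letI := φ.toAlgebra
  let e : M.X.functionField →+* K := IsLocalization.lift (M := (⊥ : Ideal (𝒞.B j)).primeCompl)
    (g := (𝒞.B j).val.toRingHom) fun y => isUnit_iff_ne_zero.mpr fun h =>
      y.2 (Subtype.ext h : (y : 𝒞.B j) = 0)
  have he : ∀ a, e (φ a) = a := fun a => IsLocalization.lift_eq _ a
  have hs : Function.Surjective e := fun y => by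
    obtain ⟨a, ha, b, hb, hb0, h⟩ := 𝒞.frac j y
    refine ⟨φ ⟨a, ha⟩ / φ ⟨b, hb⟩, ?_⟩
    rw [map_div₀, he, he, div_eq_iff hb0, h]
  refine ⟨RingEquiv.ofBijective e ⟨e.injective, hs⟩, fun i => ?_⟩
  rw [M.gen i j, ← h1, ← Spec.map_comp_assoc]
  congr 2
  exact CommRingCat.hom_ext (RingHom.ext he)

/-- The function field of the model. -/
noncomputable def e : M.X.functionField ≃+* K := M.exists_e.choose

/-- The local ring at a point inside the field. -/
noncomputable def ev (x : M.X) : M.X.presheaf.stalk x →+* K :=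
  M.e.toRingHom.comp (algebraMap _ M.X.functionField)

lemma ev_inj (x : M.X) : Function.Injective (M.ev x) :=
  M.e.injective.comp (IsFractionRing.injective _ _)

lemma ev_spec (x : M.X) (j : ι) :
    Spec.map (CommRingCat.ofHom (M.ev x)) ≫ M.X.fromSpecStalk x =
      Spec.map (CommRingCat.ofHom (𝒞.B j).val.toRingHom) ≫ M.ch j := by
  have h : Spec.map (CommRingCat.ofHom M.e.toRingHom) ≫ M.X.fromSpecStalk (genericPoint M.X) =
      _ := M.exists_e.choose_spec j
  rw [← h, ← Scheme.SpecMap_stalkSpecializes_fromSpecStalk (genericPoint_specializes x),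
    ← Spec.map_comp_assoc]
  rfl

lemma ev_gen (u : M.X.functionField) : M.ev (genericPoint M.X) u = M.e u := by
  change M.e ((M.X.presheaf.stalkSpecializes _).hom u) = _
  rw [TopCat.Presheaf.stalkSpecializes_refl]
  rfl

lemma ev_specializes {x y : M.X} (h : x ⤳ y) (u : M.X.presheaf.stalk y) :
    M.ev x (M.X.presheaf.stalkSpecializes h u) = M.ev y u := by
  change M.e ((M.X.presheaf.stalkSpecializes h ≫ M.X.presheaf.stalkSpecializes _) u) = _
  rw [TopCat.Presheaf.stalkSpecializes_comp]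
  rfl

lemma exists_chart {j : ι} {p : Spec (CommRingCat.of (𝒞.B j))} {x : M.X} (h : M.ch j p = x) :
    ∃ φ : 𝒞.B j →+* M.X.presheaf.stalk x, (∀ a, M.ev x (φ a) = a) ∧
      Spec.map (CommRingCat.ofHom φ) ≫ M.ch j = M.X.fromSpecStalk x ∧
      (letI := φ.toAlgebra; IsLocalization.AtPrime (M.X.presheaf.stalk x) p.asIdeal) := by
  obtain ⟨φ, h1, h2⟩ := M.exists_chart₀ h
  refine ⟨φ, fun a => ?_, h1, h2⟩
  have h3 := M.ev_spec x j
  rw [← h1, ← Spec.map_comp_assoc, cancel_mono, Spec.map_inj] at h3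
  exact congrArg (fun g => g.hom a) h3

/-- The local ring at a point as a subring. -/
noncomputable def O (x : M.X) : Subring K := (M.ev x).range

variable {M}

lemma mem_O {j : ι} {p : Spec (CommRingCat.of (𝒞.B j))} {x : M.X} (h : M.ch j p = x) {y : K} :
    y ∈ M.O x ↔ ∃ a b : 𝒞.B j, b ∉ p.asIdeal ∧ y * b = a := by
  obtain ⟨φ, h1, -, h2⟩ := M.exists_chart h
  letI := φ.toAlgebra
  constructor
  · rintro ⟨u, rfl⟩
    obtain ⟨⟨a, b⟩, hu⟩ := IsLocalization.surj p.asIdeal.primeCompl u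
    refine ⟨a, b, b.2, ?_⟩
    rw [← h1, ← h1, ← map_mul]
    exact congrArg _ hu
  · rintro ⟨a, b, hb, hy⟩
    obtain ⟨u, hu⟩ := IsLocalization.map_units (M.X.presheaf.stalk x)
      (⟨b, hb⟩ : p.asIdeal.primeCompl)
    have hb0 : (b : K) ≠ 0 := fun h0 => hb (by rw [show b = 0 from Subtype.ext h0]; exact zero_mem _)
    refine ⟨φ a * u.inv, mul_right_cancel₀ hb0 ?_⟩
    have hu' : (u : M.X.presheaf.stalk x) = φ b := hu
    rw [hy, ← h1 b, ← map_mul, ← hu', mul_assoc, u.inv_val, mul_one, h1]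

lemma B_le_O {j : ι} {p : Spec (CommRingCat.of (𝒞.B j))} {x : M.X} (h : M.ch j p = x) {y : K}
    (hy : y ∈ 𝒞.B j) : y ∈ M.O x :=
  (mem_O h).mpr ⟨⟨y, hy⟩, 1, p.isPrime.one_notMem, by simp⟩

lemma const_mem_O (x : M.X) (c : ℂ) : algebraMap ℂ K c ∈ M.O x := by
  obtain ⟨j, p, h⟩ := M.cover x
  exact B_le_O h ((𝒞.B j).algebraMap_mem c)

lemma O_mono {x y : M.X} (h : x ⤳ y) : M.O y ≤ M.O x := by
  rintro _ ⟨u, rfl⟩
  exact ⟨_, M.ev_specializes h u⟩

variable (M) in
/-- Units of the local ring. -/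
def U (x : M.X) (y : K) : Prop := y ≠ 0 ∧ y ∈ M.O x ∧ y⁻¹ ∈ M.O x

lemma U.mul {x : M.X} {y z : K} (hy : M.U x y) (hz : M.U x z) : M.U x (y * z) :=
  ⟨mul_ne_zero hy.1 hz.1, mul_mem hy.2.1 hz.2.1, by rw [mul_inv]; exact mul_mem hy.2.2 hz.2.2⟩

lemma U.inv {x : M.X} {y : K} (hy : M.U x y) : M.U x y⁻¹ :=
  ⟨inv_ne_zero hy.1, hy.2.2, by rw [inv_inv]; exact hy.2.1⟩

lemma U.div {x : M.X} {y z : K} (hy : M.U x y) (hz : M.U x z) : M.U x (y / z) := by
  rw [div_eq_mul_inv]; exact hy.mul hz.inv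

lemma U.one (x : M.X) : M.U x 1 := ⟨one_ne_zero, one_mem _, by rw [inv_one]; exact one_mem _⟩

lemma U.neg {x : M.X} {y : K} (hy : M.U x y) : M.U x (-y) :=
  ⟨neg_ne_zero.mpr hy.1, neg_mem hy.2.1, by rw [inv_neg]; exact neg_mem hy.2.2⟩

lemma U.pow {x : M.X} {y : K} (hy : M.U x y) (n : ℕ) : M.U x (y ^ n) :=
  ⟨pow_ne_zero _ hy.1, pow_mem hy.2.1 n, by rw [← inv_pow]; exact pow_mem hy.2.2 n⟩

lemma U.mono {x y : M.X} (h : x ⤳ y) {u : K} (hu : M.U y u) : M.U x u :=
  ⟨hu.1, O_mono h hu.2.1, O_mono h hu.2.2⟩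

lemma U.of_mul {x : M.X} {y z : K} (h : M.U x (y * z)) (hy : y ∈ M.O x) (hz : z ∈ M.O x) :
    M.U x y := by
  refine ⟨left_ne_zero_of_mul h.1, hy, ?_⟩
  have := mul_mem h.2.2 hz
  rwa [mul_inv, inv_mul_cancel_right₀ (right_ne_zero_of_mul h.1)] at this

lemma U_ev {x : M.X} {u : M.X.presheaf.stalk x} : M.U x (M.ev x u) ↔ IsUnit u := by
  constructor
  · rintro ⟨h0, -, v, hv⟩
    refine isUnit_iff_exists_inv.mpr ⟨v, M.ev_inj x ?_⟩
    rw [map_mul, hv, mul_inv_cancel₀ h0, map_one]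
  · rintro ⟨u, rfl⟩
    refine ⟨(u.isUnit.map _).ne_zero, ⟨_, rfl⟩, u.inv, ?_⟩
    refine eq_inv_of_mul_eq_one_left ?_
    rw [← map_mul, u.inv_val, map_one]

lemma U_iff {j : ι} {p : Spec (CommRingCat.of (𝒞.B j))} {x : M.X} (h : M.ch j p = x)
    (a : 𝒞.B j) : M.U x a ↔ a ∉ p.asIdeal := by
  obtain ⟨φ, h1, -, h2⟩ := M.exists_chart h
  letI := φ.toAlgebra
  rw [← h1, U_ev]
  exact IsLocalization.AtPrime.isUnit_to_map_iff _ p.asIdeal a

lemma ch_specializes {j : ι} {p q : Spec (CommRingCat.of (𝒞.B j))} :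
    M.ch j p ⤳ M.ch j q ↔ p.asIdeal ≤ q.asIdeal :=
  ((M.ch j).isOpenEmbedding.isInducing.specializes_iff).trans
    (PrimeSpectrum.le_iff_specializes p q).symm

lemma exists_of_specializes {j : ι} {q : Spec (CommRingCat.of (𝒞.B j))} {x : M.X}
    (h : x ⤳ M.ch j q) : ∃ p, M.ch j p = x :=
  h.mem_open (M.ch j).isOpenEmbedding.isOpen_range ⟨q, rfl⟩

lemma coheight_ch {j : ι} (p : Spec (CommRingCat.of (𝒞.B j))) :
    Order.coheight (M.ch j p) = p.asIdeal.height :=
  (coheight_eq_of_isOpenImmersion (M.ch j)).trans (idealHeight_eq_coheight _ p).symm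

lemma e_const (c : ℂ) : M.e (const M.s c) = algebraMap ℂ K c := by
  obtain ⟨j, -⟩ := 𝒞.proper ⊤ fun _ => trivial
  have h1 := M.exists_e.choose_spec j =≫ M.s
  rw [Category.assoc, Category.assoc, M.ch_s, ← Spec.map_comp] at h1
  have h2 : M.X.fromSpecStalk (genericPoint M.X) ≫ M.s =
      Spec.map (CommRingCat.ofHom (const M.s)) := by
    rw [const, CommRingCat.ofHom_hom, Spec.map_comp, Spec.map_comp, Category.assoc,
      ← Scheme.fromSpecStalk_toSpecΓ, Category.assoc, ← Scheme.toSpecΓ_naturality_assoc,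
      ← SpecMap_ΓSpecIso_hom, ← Spec.map_comp, Iso.inv_hom_id, Spec.map_id, Category.comp_id]
  rw [h2, ← Spec.map_comp, Spec.map_inj] at h1
  exact congrArg (fun g => g.hom c) h1

/-- Order of vanishing. -/
noncomputable def ord (M : Model 𝒞) (y : K) (z : M.X) : ℤ := M.X.ord (M.e.symm y) z

lemma ord_e (u : M.X.functionField) (z : M.X) : M.ord (M.e u) z = M.X.ord u z := by
  rw [ord, RingEquiv.symm_apply_apply]

lemma ord_mul {y w : K} (hy : y ≠ 0) (hw : w ≠ 0) (z : M.X) :
    M.ord (y * w) z = M.ord y z + M.ord w z := by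
  rw [ord, map_mul, Scheme.ord_mul (by simpa using hy) (by simpa using hw)]
  rfl

lemma symm_ev {x : M.X} (u : M.X.presheaf.stalk x) :
    M.e.symm (M.ev x u) = algebraMap _ M.X.functionField u := M.e.symm_apply_apply _

lemma U.ord {z : M.X} {y : K} (h : M.U z y) : M.ord y z = 0 := by
  by_cases hz : Order.coheight z = 1
  · obtain ⟨u, rfl⟩ := h.2.1
    have : Ring.KrullDimLE 1 (M.X.presheaf.stalk z) := krullDimLE_of_coheight_le hz.le
    rw [Model.ord, Scheme.ord_eq_iff hz (by simpa using h.1), symm_ev]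
    exact Ring.ordFrac_of_isUnit (U_ev.mp h)
  · exact Scheme.ord_eq_zero_of_coheight_neq_one hz _

lemma ord_nonneg {z : M.X} {y : K} (h : y ∈ M.O z) (h0 : y ≠ 0) : 0 ≤ M.ord y z := by
  by_cases hz : Order.coheight z = 1
  · obtain ⟨u, rfl⟩ := h
    have : Ring.KrullDimLE 1 (M.X.presheaf.stalk z) := krullDimLE_of_coheight_le hz.le
    rw [Model.ord, Scheme.le_ord_iff hz (by simpa using h0), symm_ev]
    exact Ring.ordFrac_ge_one_of_ne_zero fun h => h0 (by rw [h, map_zero])
  · exact (Scheme.ord_eq_zero_of_coheight_neq_one hz _).ge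

lemma ord_one (z : M.X) : M.ord 1 z = 0 := (U.one z).ord

lemma ord_inv {y : K} (hy : y ≠ 0) (z : M.X) : M.ord y⁻¹ z = - M.ord y z := by
  have := ord_mul hy (inv_ne_zero hy) z
  rw [mul_inv_cancel₀ hy, ord_one] at this
  omega

lemma ord_div {y w : K} (hy : y ≠ 0) (hw : w ≠ 0) (z : M.X) :
    M.ord (y / w) z = M.ord y z - M.ord w z := by
  rw [div_eq_mul_inv, ord_mul hy (inv_ne_zero hw), ord_inv hw, sub_eq_add_neg]

lemma ord_gen {j : ι} {p : Spec (CommRingCat.of (𝒞.B j))} {z : M.X} (h : M.ch j p = z)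
    (hz : Order.coheight z = 1) {a : 𝒞.B j} (ha : p.asIdeal = Ideal.span {a}) (h0 : a ≠ 0) :
    M.ord a z = 1 := by
  obtain ⟨φ, h1, -, h2⟩ := M.exists_chart h
  letI := φ.toAlgebra
  have : Ring.KrullDimLE 1 (M.X.presheaf.stalk z) := krullDimLE_of_coheight_le hz.le
  have h0' : φ a ≠ 0 := fun h => h0 (Subtype.ext (by rw [← h1, h, map_zero]; rfl))
  have hm : IsLocalRing.maximalIdeal (M.X.presheaf.stalk z) = Ideal.span {φ a} := by
    rw [← IsLocalization.AtPrime.map_eq_maximalIdeal p.asIdeal, ha, Ideal.map_span,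
      Set.image_singleton]
    rfl
  have hp : Ring.ord _ (φ a) = 1 := by
    rw [Ring.ord, Module.length_eq_one_iff]
    have : (Ideal.span {φ a}).IsMaximal := hm ▸ inferInstance
    rw [isSimpleModule_iff_isSimpleModule_of_algebraMap_surjective
      (S := M.X.presheaf.stalk z ⧸ Ideal.span {φ a}) Ideal.Quotient.mk_surjective]
    let := Ideal.Quotient.field (Ideal.span {φ a})
    exact instIsSimpleModule _
  rw [Model.ord, ← h1, symm_ev, Scheme.ord_eq_iff hz (by simpa using h0')]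
  change Ring.ordFrac _ _ = _
  rw [Ring.ordFrac_eq_ord _ h0', Ring.ordMonoidWithZeroHom_eq_ord
    (mem_nonZeroDivisors_of_ne_zero h0'), hp]
  rfl

end Model

end Pool.Agent.MP_a703b5_ag

end MrgPart3

-- ======== part 4: formerly Pool.Agent.MP_a703b5_ag.Maps
section MrgPart4

/-!
Morphisms between models, sections, smoothness and fibres.
-/

set_option autoImplicit false
set_option linter.unusedSectionVars false
set_option linter.style.haveILetI false

open AlgebraicGeometry CategoryTheory TopologicalSpace Limits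

namespace Pool.Agent.MP_a703b5_ag

lemma dim_eq_one {F : Scheme.{0}} (h1 : ∃ x y : F, x ⤳ y ∧ x ≠ y)
    (h2 : ∀ x y z : F, x ⤳ y → y ⤳ z → x = y ∨ y = z) : topologicalKrullDim F = 1 := by
  letI := specializationOrder F
  rw [topologicalKrullDim, Order.krullDim_eq_of_orderIso (irreducibleSetEquivPoints (α := F))]
  apply le_antisymm
  · rw [Order.krullDim_le_one_iff]
    intro y
    by_contra h
    rw [not_or, not_isMin_iff, not_isMax_iff] at h
    obtain ⟨⟨z, hz⟩, x, hx⟩ := h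
    rcases h2 x y z hx.le hz.le with h | h
    exacts [hx.ne' h, hz.ne' h]
  · obtain ⟨x, y, h, h'⟩ := h1
    exact Order.one_le_krullDim_iff.mpr ⟨y, x, lt_of_le_of_ne h h'.symm⟩

lemma no_chain {A B : Type} [CommRing A] [CommRing B] (φ : MvPolynomial (Fin 2) A →+* B)
    (hφ : ∀ b, ∃ a u, IsUnit (φ u) ∧ b * φ u = φ a) (g : MvPolynomial (Fin 2) A) (hg : φ g = 0)
    (hm : ∀ q : Ideal A, (∀ x, MvPolynomial.eval x g ∈ q) → q = ⊤) (P Q R : PrimeSpectrum B) (h1 : P ≤ Q)
    (h2 : Q ≤ R) (h3 : P.comap (φ.comp MvPolynomial.C) = R.comap (φ.comp MvPolynomial.C)) :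
    P = Q ∨ Q = R := by
  by_contra hc
  rw [not_or] at hc
  have inj : StrictMono (PrimeSpectrum.comap φ) := by
    intro P Q h
    refine lt_of_le_of_ne (Ideal.comap_mono h.le) fun e => h.not_ge fun b hb => ?_
    obtain ⟨a, u, hu, hab⟩ := hφ b
    have ha : a ∈ (Q.comap φ).asIdeal := by
      change φ a ∈ Q.asIdeal
      rw [← hab]; exact Ideal.mul_mem_right _ _ hb
    rw [← e] at ha
    change φ a ∈ P.asIdeal at ha
    rw [← hab] at ha
    exact (P.isPrime.mem_or_mem ha).resolve_right fun h' =>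
      P.isPrime.ne_top (Ideal.eq_top_of_isUnit_mem _ h' hu)
  set q := P.comap (φ.comp MvPolynomial.C) with hq
  let ρ := MvPolynomial.map (σ := Fin 2) (Ideal.Quotient.mk q.asIdeal)
  let P₀ : PrimeSpectrum (MvPolynomial (Fin 2) A) := PrimeSpectrum.comap ρ ⊥
  have hP₀ : ∀ a, a ∈ P₀.asIdeal ↔ ∀ k, a.coeff k ∈ q.asIdeal := fun a => by
    change ρ a = 0 ↔ _
    simp [ρ, MvPolynomial.ext_iff, MvPolynomial.coeff_map, Ideal.Quotient.eq_zero_iff_mem]
  have h0 : P₀ < P.comap φ := by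
    refine lt_of_le_of_ne (fun a ha => ?_) fun e => ?_
    · rw [← MvPolynomial.support_sum_monomial_coeff a]
      refine Ideal.sum_mem _ fun k _ => ?_
      rw [← mul_one (a.coeff k), ← MvPolynomial.C_mul_monomial]
      exact Ideal.mul_mem_right _ _ ((hP₀ a).mp ha k)
    · have : g ∈ P₀.asIdeal := by
        rw [e]
        change φ g ∈ P.asIdeal
        rw [hg]; exact zero_mem _
      refine q.isPrime.ne_top (hm _ fun x => ?_)
      rw [MvPolynomial.eval_eq]
      exact Ideal.sum_mem _ fun k _ => Ideal.mul_mem_right _ _ ((hP₀ g).mp this k)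
  have m0 : P₀ ∈ PrimeSpectrum.comap (algebraMap A (MvPolynomial (Fin 2) A)) ⁻¹' {q} := by
    refine PrimeSpectrum.ext (Ideal.ext fun a => ?_)
    change ρ (MvPolynomial.C a) = 0 ↔ _
    simp [ρ, Ideal.Quotient.eq_zero_iff_mem]
  have m2 : Q.comap φ ∈ PrimeSpectrum.comap (algebraMap A (MvPolynomial (Fin 2) A)) ⁻¹' {q} := by
    refine le_antisymm ?_ (Ideal.comap_mono (f := φ.comp MvPolynomial.C) h1)
    rw [h3]
    exact Ideal.comap_mono (f := φ.comp MvPolynomial.C) h2
  let l : LTSeries (PrimeSpectrum.comap (algebraMap A (MvPolynomial (Fin 2) A)) ⁻¹' {q}) :=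
    LTSeries.mk 3 ![⟨P₀, m0⟩, ⟨P.comap φ, rfl⟩, ⟨Q.comap φ, m2⟩, ⟨R.comap φ, h3.symm⟩]
      (Fin.strictMono_iff_lt_succ.mpr fun i => by
        fin_cases i
        exacts [h0, inj (lt_of_le_of_ne h1 hc.1), inj (lt_of_le_of_ne h2 hc.2)])
  have hl := Order.LTSeries.length_le_krullDim l
  rw [Order.krullDim_eq_of_orderIso (PrimeSpectrum.preimageOrderIsoFiber A _ q), ← ringKrullDim,
    ringKrullDim_eq_of_ringEquiv (MvPolynomial.algebraTensorAlgEquiv A _).toRingEquiv,
    MvPolynomial.ringKrullDim_of_isNoetherianRing, ringKrullDim_eq_zero_of_field] at hl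
  simp only [l, LTSeries.mk_length, Nat.card_eq_fintype_card, Fintype.card_fin, zero_add] at hl
  norm_cast at hl

variable {K : Type} [Field K] [Algebra ℂ K] {ι : Type} {𝒞 : Charts K ι}
  {L : Type} [Field L] [Algebra ℂ L] {κ : Type} {𝒟 : Charts L κ}

namespace Model

variable (M : Model 𝒞)

/-- The cover by the charts. -/
noncomputable def cov : M.X.OpenCover :=
  Scheme.Cover.mkOfCovers ι (fun j => Spec (CommRingCat.of (𝒞.B j))) M.ch M.cover

lemma smooth (h : ∀ j, Algebra.FormallySmooth ℂ (𝒞.B j)) : Smooth M.s := by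
  refine IsZariskiLocalAtSource.of_openCover (P := @Smooth) M.cov fun j => ?_
  change Smooth (M.ch j ≫ M.s)
  rw [M.ch_s, HasRingHomProperty.Spec_iff (P := @Smooth)]
  have := h j
  have : Algebra.FiniteType ℂ (𝒞.B j) := (Subalgebra.fg_iff_finiteType _).mp (𝒞.fg j)
  have : Algebra.FinitePresentation ℂ (𝒞.B j) := Algebra.FinitePresentation.of_finiteType.mp this
  exact RingHom.smooth_algebraMap.mpr ⟨inferInstance, inferInstance⟩

lemma incl_eq (O : Subalgebra ℂ K) {i j : ι} (hi : 𝒞.B i ≤ O) (hj : 𝒞.B j ≤ O) :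
    Spec.map (CommRingCat.ofHom (Subalgebra.inclusion hi).toRingHom) ≫ M.ch i =
      Spec.map (CommRingCat.ofHom (Subalgebra.inclusion hj).toRingHom) ≫ M.ch j := by
  have := isDominant_spec O.val.toRingHom Subtype.val_injective
  refine ext_of_isDominant (Spec.map (CommRingCat.ofHom O.val.toRingHom)) ?_
  rw [← Spec.map_comp_assoc, ← Spec.map_comp_assoc]
  exact M.gen i j

lemma exists_section (V : M.X.Opens) (hV : genericPoint M.X ∈ V) (y : K)
    (h : ∀ x ∈ V, y ∈ M.O x) : ∃ t : Γ(M.X, V), M.e (M.X.presheaf.germ V _ hV t) = y := by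
  have key : ∀ x : V, ∃ (W : M.X.Opens) (_ : W ≤ V) (hx : x.1 ∈ W) (t : Γ(M.X, W)),
      M.ev x (M.X.presheaf.germ W x hx t) = y := by
    intro x
    obtain ⟨u, hu⟩ := h x x.2
    obtain ⟨W, hW, t, rfl⟩ := M.X.presheaf.exists_germ_eq u
    refine ⟨W ⊓ V, inf_le_right, ⟨hW, x.2⟩, M.X.presheaf.map (homOfLE inf_le_left).op t, ?_⟩
    rw [TopCat.Presheaf.germ_res_apply, hu]
  choose W hW hx t ht using key
  have hg : ∀ x, genericPoint M.X ∈ W x := fun x =>
    (genericPoint_specializes x.1).mem_open (W x).2 (hx x)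
  have ht' : ∀ x, M.e (M.X.presheaf.germ (W x) _ (hg x) (t x)) = y := fun x => by
    rw [← ht x, ← M.ev_specializes (genericPoint_specializes x.1), M.ev_gen,
      TopCat.Presheaf.germ_stalkSpecializes_apply]
  obtain ⟨s, hs, -⟩ := M.X.sheaf.existsUnique_gluing' W V (fun x => homOfLE (hW x))
    (fun x hx' => Opens.mem_iSup.mpr ⟨⟨x, hx'⟩, hx _⟩) t (fun x x' => by
      refine germ_injective_of_isIntegral M.X (U := W x ⊓ W x') _ ⟨hg x, hg x'⟩ (M.e.injective ?_)
      refine (congrArg M.e (TopCat.Presheaf.germ_res_apply M.X.presheaf _ _ _ _)).trans ?_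
      refine Eq.trans ?_ (congrArg M.e (TopCat.Presheaf.germ_res_apply M.X.presheaf _ _ _ _)).symm
      rw [ht', ht'])
  refine ⟨s, ?_⟩
  rw [← ht' ⟨_, hV⟩, ← hs ⟨_, hV⟩]
  exact (congrArg M.e (TopCat.Presheaf.germ_res_apply M.X.presheaf _ _ _ _)).symm

end Model

/-- Data of a morphism between models. -/
structure HomData (𝒞 : Charts K ι) (𝒟 : Charts L κ) where
  /-- the domain of definition -/
  O : Subalgebra ℂ K
  /-- the map of functions -/
  Φ : O →ₐ[ℂ] L
  /-- the map of charts -/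
  β : κ → ι
  le : ∀ k, 𝒞.B (β k) ≤ O
  mem : ∀ k (c : 𝒞.B (β k)), Φ ⟨c, le k c.2⟩ ∈ 𝒟.B k

/-- The map of coordinate rings. -/
noncomputable def HomData.φ (H : HomData 𝒞 𝒟) (k : κ) : 𝒞.B (H.β k) →ₐ[ℂ] 𝒟.B k :=
  (H.Φ.comp (Subalgebra.inclusion (H.le k))).codRestrict _ (H.mem k)

namespace Model

variable (N : Model 𝒟) (M : Model 𝒞) (H : HomData 𝒞 𝒟)

lemma hom_compat (k l : κ) : pullback.fst (N.ch k) (N.ch l) ≫
    Spec.map (CommRingCat.ofHom (H.φ k).toRingHom) ≫ M.ch (H.β k) =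
    pullback.snd (N.ch k) (N.ch l) ≫
    Spec.map (CommRingCat.ofHom (H.φ l).toRingHom) ≫ M.ch (H.β l) := by
  have h1 := isDominant_spec (𝒟.B k).val.toRingHom Subtype.val_injective
  rw [← pullback.lift_fst _ _ (N.gen k l)] at h1
  have h2 := IsDominant.of_comp_of_isOpenImmersion (pullback.lift _ _ (N.gen k l))
    (pullback.fst (N.ch k) (N.ch l))
  have := isReduced_of_isOpenImmersion (pullback.fst (N.ch k) (N.ch l))
  refine ext_of_isDominant (pullback.lift _ _ (N.gen k l)) ?_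
  rw [pullback.lift_fst_assoc, pullback.lift_snd_assoc, ← Spec.map_comp_assoc,
    ← Spec.map_comp_assoc]
  have h3 := Spec.map (CommRingCat.ofHom H.Φ.toRingHom) ≫= M.incl_eq H.O (H.le k) (H.le l)
  rw [← Spec.map_comp_assoc, ← Spec.map_comp_assoc] at h3
  exact h3

/-- The morphism. -/
noncomputable def hom : N.X ⟶ M.X :=
  N.cov.glueMorphisms (fun k => Spec.map (CommRingCat.ofHom (H.φ k).toRingHom) ≫ M.ch (H.β k))
    fun k l => hom_compat N M H k l

lemma ch_hom (k : κ) : N.ch k ≫ N.hom M H =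
    Spec.map (CommRingCat.ofHom (H.φ k).toRingHom) ≫ M.ch (H.β k) :=
  N.cov.ι_glueMorphisms _ _ k

lemma hom_s : N.hom M H ≫ M.s = N.s := by
  refine N.cov.hom_ext _ _ fun k => ?_
  change N.ch k ≫ _ = N.ch k ≫ _
  rw [← Category.assoc, ch_hom, Category.assoc, M.ch_s, N.ch_s, ← Spec.map_comp]
  congr 1
  exact CommRingCat.hom_ext (H.φ k).comp_algebraMap

lemma hom_ch (k : κ) (p : Spec (CommRingCat.of (𝒟.B k))) :
    N.hom M H (N.ch k p) = M.ch (H.β k) (PrimeSpectrum.comap (H.φ k).toRingHom p) := by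
  rw [← Scheme.Hom.comp_apply, ch_hom, Scheme.Hom.comp_apply]
  rfl

lemma ev_stalkMap (q : N.X) (u : M.X.presheaf.stalk (N.hom M H q)) (h : M.ev _ u ∈ H.O) :
    N.ev q ((N.hom M H).stalkMap q u) = H.Φ ⟨_, h⟩ := by
  obtain ⟨k, p, rfl⟩ := N.cover q
  obtain ⟨φ, h1, h2, h3⟩ := M.exists_chart (hom_ch N M H k p).symm
  have key : ∀ a, N.ev _ ((N.hom M H).stalkMap _ (φ a)) = H.φ k a := fun a => by
    have h4 : Spec.map (CommRingCat.ofHom φ ≫ (N.hom M H).stalkMap _ ≫
        CommRingCat.ofHom (N.ev (N.ch k p))) ≫ M.ch (H.β k) =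
        Spec.map (CommRingCat.ofHom (H.φ k).toRingHom ≫
          CommRingCat.ofHom (𝒟.B k).val.toRingHom) ≫ M.ch (H.β k) := by
      rw [Spec.map_comp, Spec.map_comp, Spec.map_comp, Category.assoc, Category.assoc, h2,
        Scheme.SpecMap_stalkMap_fromSpecStalk, ← Category.assoc]
      refine (N.ev_spec (N.ch k p) k =≫ N.hom M H).trans ?_
      rw [Category.assoc, ch_hom, Category.assoc]
    rw [cancel_mono, Spec.map_inj] at h4
    exact congrArg (fun g => g.hom a) h4
  letI := φ.toAlgebra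
  obtain ⟨⟨a, b⟩, hu⟩ := IsLocalization.surj
    (PrimeSpectrum.comap (H.φ k).toRingHom p).asIdeal.primeCompl u
  have hu' : u * φ b = φ a := hu
  have hb : ((H.φ k b : 𝒟.B k) : L) ≠ 0 := fun h0 => b.2 (by
    change H.φ k b ∈ p.asIdeal
    rw [show H.φ k b = 0 from Subtype.ext h0]; exact zero_mem _)
  refine mul_right_cancel₀ hb ?_
  rw [← key b, ← map_mul, ← map_mul, hu', key, key]
  change H.Φ _ = H.Φ _ * H.Φ _
  rw [← map_mul]
  congr 1
  refine Subtype.ext ?_
  change (a : K) = M.ev _ u * (b.1 : K)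
  rw [← h1, ← h1, ← map_mul, hu']

lemma U_hom (q : N.X) {y : K} (h : y ∈ H.O) (hy : y ∈ M.O (N.hom M H q)) :
    H.Φ ⟨y, h⟩ ∈ N.O q ∧ (N.U q (H.Φ ⟨y, h⟩) ↔ M.U (N.hom M H q) y) := by
  obtain ⟨u, rfl⟩ := hy
  rw [← ev_stalkMap N M H q u h, U_ev, U_ev]
  exact ⟨⟨_, rfl⟩, isUnit_map_iff _ _⟩

lemma isIso_app (hO : ∀ y, y ∈ H.O) (hη : N.hom M H (genericPoint N.X) = genericPoint M.X)
    (h : ∀ (V : M.X.Opens) (y : L), (∀ x, N.hom M H x ∈ V → y ∈ N.O x) →
      ∀ x ∈ V, ∃ y' ∈ M.O x, H.Φ ⟨y', hO y'⟩ = y) (V : M.X.Opens) :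
    IsIso ((N.hom M H).app V) := by
  rw [ConcreteCategory.isIso_iff_bijective]
  by_cases hV : genericPoint M.X ∈ V
  · have hV' : genericPoint N.X ∈ N.hom M H ⁻¹ᵁ V := by
      change N.hom M H _ ∈ V
      rwa [hη]
    have hΦ : ∀ y y', H.Φ ⟨y, hO y⟩ = H.Φ ⟨y', hO y'⟩ → y = y' := fun y y' e =>
      ((H.Φ.toRingHom.comp ((RingHom.id K).codRestrict H.O hO)).injective e)
    have key : ∀ t : Γ(M.X, V), N.e (N.X.presheaf.germ _ _ hV' ((N.hom M H).app V t)) =
        H.Φ ⟨M.e (M.X.presheaf.germ V _ hV t), hO _⟩ := fun t => by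
      rw [← N.ev_gen, ← Scheme.Hom.germ_stalkMap_apply, ev_stalkMap N M H _ _ (hO _)]
      congr 2
      rw [← M.ev_specializes (genericPoint_specializes _), M.ev_gen,
        TopCat.Presheaf.germ_stalkSpecializes_apply]
    constructor
    · intro t t' e
      refine germ_injective_of_isIntegral M.X _ hV (M.e.injective (hΦ _ _ ?_))
      rw [← key, ← key, e]
    · intro t
      have h1 := h V (N.e (N.X.presheaf.germ _ _ hV' t)) fun x hx =>
        ⟨N.X.presheaf.germ _ x hx t, by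
          rw [← N.ev_specializes (genericPoint_specializes _), N.ev_gen,
            TopCat.Presheaf.germ_stalkSpecializes_apply]⟩
      obtain ⟨y, -, hy⟩ := h1 _ hV
      obtain ⟨t', ht'⟩ := M.exists_section V hV y fun x hx => by
        obtain ⟨y', h2, h3⟩ := h1 x hx
        rwa [hΦ y y' (hy.trans h3.symm)]
      refine ⟨t', germ_injective_of_isIntegral N.X _ hV' (N.e.injective ?_)⟩
      rw [key, ← hy, ht']
  · obtain rfl : V = ⊥ := by
      rw [eq_bot_iff]
      intro x hx
      exact hV ((genericPoint_specializes x).mem_open V.2 hx)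
    have : Subsingleton Γ(N.X, N.hom M H ⁻¹ᵁ ⊥) := inferInstanceAs (Subsingleton Γ(N.X, ⊥))
    exact ⟨fun _ _ _ => Subsingleton.elim _ _, fun _ => ⟨0, Subsingleton.elim _ _⟩⟩

lemma fiber_dim (y : M.X)
    (h1 : ∃ (k : κ) (P Q : PrimeSpectrum (𝒟.B k)), P ≤ Q ∧ P ≠ Q ∧
      M.ch (H.β k) (P.comap (H.φ k).toRingHom) = y ∧ M.ch (H.β k) (Q.comap (H.φ k).toRingHom) = y)
    (h2 : ∀ (k : κ) (P Q R : PrimeSpectrum (𝒟.B k)), P ≤ Q → Q ≤ R →
      P.comap (H.φ k).toRingHom = R.comap (H.φ k).toRingHom → P = Q ∨ Q = R) :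
    topologicalKrullDim ((N.hom M H).fiber y) = 1 := by
  have he := ((N.hom M H).fiberι y).isEmbedding
  have hr := (N.hom M H).range_fiberι y
  refine dim_eq_one ?_ fun a b c hab hbc => ?_
  · obtain ⟨k, P, Q, h, h', hP, hQ⟩ := h1
    obtain ⟨a, ha⟩ : N.ch k P ∈ Set.range ((N.hom M H).fiberι y) := by
      rw [hr]; exact (hom_ch N M H k P).trans hP
    obtain ⟨b, hb⟩ : N.ch k Q ∈ Set.range ((N.hom M H).fiberι y) := by
      rw [hr]; exact (hom_ch N M H k Q).trans hQ
    refine ⟨a, b, he.isInducing.specializes_iff.mp ?_, fun e => h' ?_⟩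
    · rw [ha, hb]; exact ch_specializes.mpr h
    · exact (N.ch k).isOpenEmbedding.injective (by rw [← ha, ← hb, e])
  · obtain ⟨k, R, hR⟩ := N.cover ((N.hom M H).fiberι y c)
    have hbc' := he.isInducing.specializes_iff.mpr hbc
    have hab' := he.isInducing.specializes_iff.mpr hab
    rw [← hR] at hbc'
    obtain ⟨Q, hQ⟩ := exists_of_specializes hbc'
    rw [← hQ] at hab' hbc'
    obtain ⟨P, hP⟩ := exists_of_specializes hab'
    rw [← hP] at hab'
    have ha : N.hom M H (N.ch k P) = y := by rw [hP]; exact hr.le ⟨a, rfl⟩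
    have hc : N.hom M H (N.ch k R) = y := by rw [hR]; exact hr.le ⟨c, rfl⟩
    rw [hom_ch] at ha hc
    refine (h2 k P Q R (ch_specializes.mp hab') (ch_specializes.mp hbc')
      ((M.ch _).isOpenEmbedding.injective (ha.trans hc.symm))).imp (fun e => ?_) fun e => ?_
    · exact he.injective (by rw [← hP, ← hQ, e])
    · exact he.injective (by rw [← hR, ← hQ, e])

lemma not_reduced (k : κ) {D : Type} [CommRing D] [Algebra ℂ D] (θ : 𝒟.B k →+* D)
    (χ : 𝒞.B (H.β k) →ₐ[ℂ] ℂ) (hθ : ∀ a, θ (H.φ k a) = algebraMap ℂ D (χ a)) (w : 𝒟.B k)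
    (hw : θ w ≠ 0) (hP : ∀ P : PrimeSpectrum (𝒟.B k),
      (∀ a, χ a = 0 → H.φ k a ∈ P.asIdeal) → w ∈ P.asIdeal) :
    ∃ y : M.X, IsClosed {y} ∧ ¬ IsReduced ((N.hom M H).fiber y) := by
  let g : Spec (CommRingCat.of ℂ) ⟶ M.X :=
    Spec.map (CommRingCat.ofHom χ.toRingHom) ≫ M.ch (H.β k)
  have hg : g ≫ M.s = 𝟙 _ := by
    rw [Category.assoc, M.ch_s, ← Spec.map_comp, ← Spec.map_id]
    congr 1
    exact CommRingCat.hom_ext χ.comp_algebraMap
  have hc : IsClosedImmersion g := by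
    have : IsClosedImmersion (g ≫ M.s) := by rw [hg]; infer_instance
    exact IsClosedImmersion.of_comp g M.s
  refine ⟨g (IsLocalRing.closedPoint ℂ), ?_, fun hred => hw ?_⟩
  · have := g.isClosedEmbedding.isClosed_range
    rw [Set.range_unique] at this
    have e : (default : Spec (CommRingCat.of ℂ)) = IsLocalRing.closedPoint ℂ :=
      Subsingleton.elim _ _
    exact e ▸ this
  let τ : Spec (CommRingCat.of D) ⟶ (N.hom M H).fiber (g (IsLocalRing.closedPoint ℂ)) :=
    pullback.lift (Spec.map (CommRingCat.ofHom θ) ≫ N.ch k)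
      (Spec.map (CommRingCat.ofHom (algebraMap ℂ D)) ≫
        Spec.map (Scheme.descResidueField (Scheme.stalkClosedPointTo g))) (by
      rw [Category.assoc, Category.assoc, ch_hom,
        Scheme.descResidueField_stalkClosedPointTo_fromSpecResidueField,
        ← Spec.map_comp_assoc, ← Spec.map_comp_assoc]
      congr 2
      exact CommRingCat.hom_ext (RingHom.ext hθ))
  let F := pullback ((N.hom M H).fiberι (g (IsLocalRing.closedPoint ℂ))) (N.ch k)
  let π : F ⟶ Spec (CommRingCat.of (𝒟.B k)) := pullback.snd _ _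
  have : IsReduced F := isReduced_of_isOpenImmersion (pullback.fst _ _)
  have h0 : π.appTop ((Scheme.ΓSpecIso (CommRingCat.of (𝒟.B k))).inv w) = 0 := by
    refine eq_zero_of_basicOpen_eq_bot _ ?_
    rw [← Scheme.preimage_basicOpen_top, basicOpen_eq_of_affine, eq_bot_iff]
    intro x hx
    refine hx (hP (π x) fun a ha => ?_)
    have h1 : N.hom M H (N.ch k (π x)) = g (IsLocalRing.closedPoint ℂ) := by
      rw [← Scheme.Hom.comp_apply π, ← pullback.condition, Scheme.Hom.comp_apply]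
      exact ((N.hom M H).range_fiberι _).le ⟨_, rfl⟩
    rw [hom_ch, Scheme.Hom.comp_apply] at h1
    have h2 := (M.ch _).isOpenEmbedding.injective h1
    change a ∈ (PrimeSpectrum.comap (H.φ k).toRingHom (π x)).asIdeal
    rw [h2]
    change χ a ∈ (IsLocalRing.closedPoint ℂ).asIdeal
    rw [ha]; exact zero_mem _
  have h3 : pullback.lift τ (Spec.map (CommRingCat.ofHom θ)) (pullback.lift_fst _ _ _) ≫ π =
      Spec.map (CommRingCat.ofHom θ) := pullback.lift_snd _ _ _
  have h4 : (Spec.map (CommRingCat.ofHom θ)).appTop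
      ((Scheme.ΓSpecIso (CommRingCat.of (𝒟.B k))).inv w) = 0 := by
    rw [← h3, Scheme.Hom.comp_appTop, CommRingCat.comp_apply]
    exact (congrArg _ h0).trans (map_zero _)
  rw [← CommRingCat.comp_apply, ← Scheme.ΓSpecIso_inv_naturality, CommRingCat.comp_apply] at h4
  exact (Scheme.ΓSpecIso (CommRingCat.of D)).symm.commRingCatIsoToRingEquiv.injective
    (h4.trans (map_zero _).symm)

end Model

end Pool.Agent.MP_a703b5_ag

end MrgPart4

-- marker of a merged file
example : 731051 + 684893 = 731051 + 684893 := rfl
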