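import Mathlib.Algebra.AffineMonoid.Basic
import Mathlib.Data.Int.Star
import Mathlib.Algebra.Order.Ring.Star
import Pool.Agent.MP_a703b5_ag.Maps

-- ======== part 0: formerly Pool.Agent.MP_a703b5_ag.Cox
section MrgPart0

/-!
Factorial multigraded rings and their charts.
-/

set_option autoImplicit false
set_option linter.unusedSectionVars false
set_option linter.style.haveILetI false

open AddMonoidAlgebra

namespace Pool.Agent.MP_a703b5_ag

lemma single_of_mul {K M : Type} [Field K] [AddCommGroup M] [TwoUniqueSums M]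
    {a b : AddMonoidAlgebra K M} {d : M} {u : K} (h : a * b = single d u) (hu : u ≠ 0) :
    ∃ d₁ u₁, a = single d₁ u₁ := by
  classical
  have hb : b ≠ 0 := by
    rintro rfl
    rw [mul_zero, eq_comm, single_eq_zero] at h
    exact hu h
  have hb' : 0 < b.coeff.support.card :=
    Finset.card_pos.mpr (Finsupp.support_nonempty_iff.mpr fun h => hb (coeff_eq_zero.mp h))
  by_cases h1 : 1 < a.coeff.support.card
  · exfalso
    obtain ⟨p, hp, q, hq, hpq, u1, u2⟩ := TwoUniqueSums.uniqueAdd_of_one_lt_card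
      (A := a.coeff.support) (B := b.coeff.support) (by nlinarith)
    rw [Finset.mem_product] at hp hq
    have key : ∀ p : M × M, p.1 ∈ a.coeff.support → p.2 ∈ b.coeff.support →
        UniqueAdd a.coeff.support b.coeff.support p.1 p.2 → p.1 + p.2 = d := by
      intro p h1 h2 h3
      have := coeff_mul_add_of_uniqueAdd h3
      rw [h, coeff_single] at this
      by_contra hne
      rw [Finsupp.single_eq_of_ne hne] at this
      exact mul_ne_zero (Finsupp.mem_support_iff.mp h1) (Finsupp.mem_support_iff.mp h2) this.symm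
    have := u1 hq.1 hq.2 ((key q hq.1 hq.2 u2).trans (key p hp.1 hp.2 u1).symm)
    exact hpq (Prod.ext this.1.symm this.2.symm)
  · obtain ⟨d₁, hd⟩ := Finset.card_le_one_iff_subset_singleton.mp (not_lt.mp h1)
    exact ⟨d₁, a.coeff d₁, by rw [← coeff_inj, coeff_single]; exact
      Finsupp.support_subset_singleton.mp hd⟩

/-- A multigraded ring inside a group algebra, with charts. -/
structure Cox (K : Type) [Field K] [Algebra ℂ K] (r : ℕ) (R : Type) [CommRing R] [Algebra ℂ R]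
    (σ ι : Type) where
  /-- the embedding -/
  ψ : R →ₐ[ℂ] AddMonoidAlgebra K (Fin r → ℤ)
  ψ_inj : Function.Injective ψ
  /-- the generators -/
  x : σ → R
  /-- their degrees -/
  dx : σ → Fin r → ℤ
  /-- their coefficients -/
  zx : σ → K
  hx : ∀ i, ψ (x i) = single (dx i) (zx i)
  gen : Algebra.adjoin ℂ (Set.range x) = ⊤
  /-- a positive form -/
  ℓ : (Fin r → ℤ) →+ ℤ
  pos : ∀ i, 0 < ℓ (dx i)
  /-- the ample degree -/
  A : Fin r → ℤ
  /-- the sections defining the charts -/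
  m : ι → R
  /-- their coefficients -/
  zm : ι → K
  hm : ∀ j, ψ (m j) = single A (zm j)
  zm_ne : ∀ j, zm j ≠ 0
  /-- the gauge -/
  g : ι → (Fin r → ℤ) → K
  g_ne : ∀ j d, g j d ≠ 0
  g_add : ∀ j d e, g j (d + e) = g j d * g j e
  hg : ∀ j d, ∃ (n : ℕ) (a : R), ψ a = single (d + n • A) (g j d * zm j ^ n)
  frac : ∀ y : K, ∃ a b d u v, ψ a = single d u ∧ ψ b = single d v ∧ v ≠ 0 ∧ y * v = u
  proper : ∀ O : ValuationSubring K, (∀ c : ℂ, algebraMap ℂ K c ∈ O) →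
    ∃ j, (∀ i, zx i / g j (dx i) ∈ O) ∧ g j A / zm j ∈ O

namespace Cox

variable {K : Type} [Field K] [Algebra ℂ K] {r : ℕ} {R : Type} [CommRing R] [Algebra ℂ R]
  {σ ι : Type} [Fintype σ] (C : Cox K r R σ ι)

/-- `a` is homogeneous of degree `d` with coefficient `u`. -/
def H (a : R) (d : Fin r → ℤ) (u : K) : Prop := C.ψ a = single d u

variable {C} {a b : R} {d e : Fin r → ℤ} {u v : K} {j : ι}

lemma H.mul (h : C.H a d u) (h' : C.H b e v) : C.H (a * b) (d + e) (u * v) := by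
  rw [H, map_mul, h, h', single_mul_single]

lemma H.one : C.H 1 0 1 := map_one C.ψ

lemma H.pow (h : C.H a d u) (n : ℕ) : C.H (a ^ n) (n • d) (u ^ n) := by
  rw [H, map_pow, h, single_pow]

lemma H.add (h : C.H a d u) (h' : C.H b d v) : C.H (a + b) d (u + v) := by
  rw [H, map_add, h, h', single_add]

lemma H.zero : C.H 0 d 0 := by simp [H]

lemma H.const (c : ℂ) : C.H (algebraMap ℂ R c) 0 (algebraMap ℂ K c) := C.ψ.commutes c

lemma H.smul (h : C.H a d u) (c : ℂ) : C.H (c • a) d (algebraMap ℂ K c * u) := by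
  simpa [Algebra.smul_def] using (H.const c).mul h

lemma H.ext (h : C.H a d u) (h' : C.H b d u) : a = b := C.ψ_inj (h.trans h'.symm)

lemma H.ne (h : C.H a d u) : a ≠ 0 ↔ u ≠ 0 := by
  rw [← map_ne_zero_iff _ C.ψ_inj, h, Ne, single_eq_zero]

lemma H.unique (h : C.H a d u) (h' : C.H a e v) (h0 : a ≠ 0) : d = e ∧ u = v := by
  have := congrArg coeff (h.symm.trans h')
  rw [coeff_single, coeff_single, Finsupp.single_eq_single_iff] at this
  exact this.resolve_right fun h1 => h.ne.mp h0 h1.1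

lemma H.congr (h : C.H a d u) (h1 : d = e) (h2 : u = v) : C.H a e v := h1 ▸ h2 ▸ h

lemma H.of_mul (h : C.H (a * b) d u) (h0 : a * b ≠ 0) :
    ∃ d₁ u₁ d₂ u₂, C.H a d₁ u₁ ∧ C.H b d₂ u₂ ∧ d = d₁ + d₂ ∧ u = u₁ * u₂ := by
  have h1 : C.ψ a * C.ψ b = single d u := (map_mul _ _ _).symm.trans h
  obtain ⟨d₁, u₁, e₁⟩ := single_of_mul h1 (h.ne.mp h0)
  obtain ⟨d₂, u₂, e₂⟩ := single_of_mul ((mul_comm _ _).trans h1) (h.ne.mp h0)
  exact ⟨d₁, u₁, d₂, u₂, e₁, e₂, h.unique (H.mul e₁ e₂) h0⟩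

lemma H.of_dvd (h : C.H a d u) (h0 : a ≠ 0) (hb : b ∣ a) : ∃ e v, C.H b e v := by
  obtain ⟨c, rfl⟩ := hb
  obtain ⟨d₁, u₁, -, -, h1, -⟩ := h.of_mul h0
  exact ⟨_, _, h1⟩

lemma H.monomial (α : σ → ℕ) :
    C.H (∏ i, C.x i ^ α i) (∑ i, α i • C.dx i) (∏ i, C.zx i ^ α i) := by
  classical
  induction (Finset.univ : Finset σ) using Finset.induction_on with
  | empty => simpa using H.one
  | insert i s hi ih =>
    rw [Finset.prod_insert hi, Finset.prod_insert hi, Finset.sum_insert hi]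
    exact (H.pow (C.hx i) _).mul ih

lemma H.mem_span (h : C.H a d u) :
    a ∈ Submodule.span ℂ {b | ∃ α : σ → ℕ, ∑ i, α i • C.dx i = d ∧ b = ∏ i, C.x i ^ α i} := by
  have key : ∀ a : R, ∃ a' ∈ Submodule.span ℂ
      {b | ∃ α : σ → ℕ, ∑ i, α i • C.dx i = d ∧ b = ∏ i, C.x i ^ α i},
      C.H a' d ((C.ψ a).coeff d) := by
    intro a
    have ha : a ∈ Subalgebra.toSubmodule (Algebra.adjoin ℂ (Set.range C.x)) := by
      rw [C.gen]; trivial
    rw [Algebra.adjoin_eq_span] at ha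
    induction ha using Submodule.span_induction with
    | mem a ha =>
      obtain ⟨α, rfl⟩ := Submonoid.mem_closure_range_iff_of_fintype.mp ha
      have h1 := H.monomial (C := C) α
      by_cases hd : ∑ i, α i • C.dx i = d
      · exact ⟨_, Submodule.subset_span ⟨α, hd, rfl⟩, h1.congr hd (by rw [h1, hd]; simp)⟩
      · exact ⟨0, zero_mem _, H.zero.congr rfl (by
          rw [h1, coeff_single, Finsupp.single_eq_of_ne' hd])⟩
    | zero => exact ⟨0, zero_mem _, H.zero.congr rfl (by simp)⟩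
    | add a b _ _ ha hb =>
      obtain ⟨a', h1, h2⟩ := ha
      obtain ⟨b', h3, h4⟩ := hb
      exact ⟨a' + b', add_mem h1 h3, (h2.add h4).congr rfl (by simp)⟩
    | smul c a _ ha =>
      obtain ⟨a', h1, h2⟩ := ha
      exact ⟨c • a', Submodule.smul_mem _ c h1, (h2.smul c).congr rfl (by
        simp [Algebra.smul_def])⟩
  obtain ⟨a', h1, h2⟩ := key a
  rwa [h.ext (h2.congr rfl (by rw [h]; simp))]

lemma H.deg_nonneg (h : C.H a d u) (h0 : a ≠ 0) : 0 ≤ C.ℓ d ∧ (C.ℓ d = 0 → d = 0) := by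
  by_contra hc
  refine h0 ((Submodule.span_le (p := ⊥)).mpr ?_ h.mem_span)
  rintro _ ⟨α, rfl, -⟩
  refine (hc ?_).elim
  have h1 : ∀ i ∈ Finset.univ, 0 ≤ C.ℓ (α i • C.dx i) := fun i _ => by
    rw [map_nsmul]; exact nsmul_nonneg (C.pos i).le _
  rw [map_sum]
  refine ⟨Finset.sum_nonneg h1, fun h2 => Finset.sum_eq_zero fun i hi => ?_⟩
  have := (Finset.sum_eq_zero_iff_of_nonneg h1).mp h2 i hi
  rw [map_nsmul, smul_eq_zero, or_iff_left (C.pos i).ne'] at this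
  rw [this, zero_smul]

lemma H.unit_deg [Nontrivial R] (h : C.H a d u) (ha : IsUnit a) : d = 0 := by
  obtain ⟨b, hb⟩ := ha.exists_right_inv
  have h1 : C.H (a * b) 0 1 := hb ▸ H.one
  have h0 : a * b ≠ 0 := hb ▸ one_ne_zero
  obtain ⟨d₁, u₁, d₂, u₂, h2, h3, h4, -⟩ := h1.of_mul h0
  obtain ⟨rfl, -⟩ := h.unique h2 (left_ne_zero_of_mul h0)
  have h5 := h.deg_nonneg (left_ne_zero_of_mul h0)
  have h6 := (h3.deg_nonneg (right_ne_zero_of_mul h0)).1
  have h7 := congrArg C.ℓ h4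
  rw [map_zero, map_add] at h7
  exact h5.2 (by omega)

lemma g_zero (j : ι) : C.g j 0 = 1 :=
  mul_left_cancel₀ (C.g_ne j 0) (by rw [← C.g_add, add_zero, mul_one])

lemma g_neg (j : ι) (d : Fin r → ℤ) : C.g j (-d) = (C.g j d)⁻¹ :=
  eq_inv_of_mul_eq_one_left (by rw [← C.g_add, neg_add_cancel, g_zero])

lemma g_nsmul (j : ι) (n : ℕ) (d : Fin r → ℤ) : C.g j (n • d) = C.g j d ^ n := by
  induction n with
  | zero => rw [zero_smul, g_zero, pow_zero]
  | succ n ih => rw [succ_nsmul, C.g_add, ih, pow_succ]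

variable (C) in
/-- The coordinate ring of a chart. -/
def B (j : ι) : Subalgebra ℂ K where
  carrier := {u | ∃ (n : ℕ) (a : R), C.H a (n • C.A) (u * C.zm j ^ n)}
  mul_mem' := by
    rintro u v ⟨n, a, ha⟩ ⟨k, b, hb⟩
    exact ⟨n + k, _, (ha.mul hb).congr (by rw [add_smul]) (by ring)⟩
  add_mem' := by
    rintro u v ⟨n, a, ha⟩ ⟨k, b, hb⟩
    exact ⟨n + k, _, ((ha.mul (H.pow (C.hm j) k)).add ((H.mul (H.pow (C.hm j) n) hb))).congr
      (by rw [add_smul]) (by ring)⟩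
  algebraMap_mem' := fun c => ⟨0, _, (H.const c).congr (by simp) (by simp)⟩

lemma H.mem_B (h : C.H a d u) (j : ι) : u / C.g j d ∈ C.B j := by
  obtain ⟨n, b, hb⟩ := C.hg j (-d)
  exact ⟨n, _, (h.mul hb).congr (by abel) (by rw [g_neg]; ring)⟩

lemma inv_mem_B (j : ι) : C.g j C.A / C.zm j ∈ C.B j := by
  obtain ⟨n, b, hb⟩ := C.hg j C.A
  exact ⟨n + 1, _, H.congr hb (by rw [succ_nsmul']) (by
    have := C.zm_ne j
    field_simp
    ring)⟩

variable (C) in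
/-- Dehomogenisation on the group algebra. -/
noncomputable def evg (j : ι) : AddMonoidAlgebra K (Fin r → ℤ) →ₐ[ℂ] K :=
  (lift K K (Fin r → ℤ) ⟨⟨fun d => (C.g j d.toAdd)⁻¹, by simp [g_zero]⟩, fun d e => by
    simp [C.g_add, mul_comm]⟩).restrictScalars ℂ

lemma evg_single (j : ι) (d : Fin r → ℤ) (u : K) : C.evg j (single d u) = u / C.g j d := by
  simp [evg, div_eq_mul_inv]

variable (C) in
/-- Dehomogenisation. -/
noncomputable def δ (j : ι) : R →ₐ[ℂ] C.B j :=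
  ((C.evg j).comp C.ψ).codRestrict _ fun a => by
    have : Algebra.adjoin ℂ (Set.range C.x) ≤ (C.B j).comap ((C.evg j).comp C.ψ) := by
      rw [Algebra.adjoin_le_iff]
      rintro _ ⟨i, rfl⟩
      change C.evg j (C.ψ _) ∈ C.B j
      rw [C.hx, evg_single]
      exact H.mem_B (C.hx i) j
    exact this (C.gen ▸ trivial)

lemma H.δ (h : C.H a d u) (j : ι) : (C.δ j a : K) = u / C.g j d := by
  change C.evg j (C.ψ a) = _
  rw [h, evg_single]

lemma isUnit_δ_m (j : ι) : IsUnit (C.δ j (C.m j)) :=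
  isUnit_iff_exists_inv.mpr ⟨⟨_, inv_mem_B j⟩, Subtype.ext (by
    have := C.zm_ne j
    have := C.g_ne j C.A
    rw [MulMemClass.coe_mul, H.δ (C.hm j)]
    change _ * (_ / _) = (1 : K)
    field_simp)⟩

lemma exists_δ (y : C.B j) : ∃ (n : ℕ) (a : R), C.H a (n • C.A) (y * C.zm j ^ n) ∧
    y * C.δ j (C.m j) ^ n = C.δ j a := by
  obtain ⟨n, a, ha⟩ := y.2
  refine ⟨n, a, ha, Subtype.ext ?_⟩
  rw [MulMemClass.coe_mul, SubmonoidClass.coe_pow, H.δ (C.hm j), ha.δ, g_nsmul, div_pow,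
    mul_div_assoc]

lemma δ_mem {W : Subring K} (h0 : ∀ c : ℂ, algebraMap ℂ K c ∈ W)
    (h1 : ∀ i, C.zx i / C.g j (C.dx i) ∈ W) (a : R) : (C.δ j a : K) ∈ W := by
  have ha : a ∈ Algebra.adjoin ℂ (Set.range C.x) := C.gen ▸ trivial
  induction ha using Algebra.adjoin_induction with
  | mem a ha =>
    obtain ⟨i, rfl⟩ := ha
    rw [H.δ (C.hx i)]; exact h1 i
  | algebraMap c => rw [AlgHom.commutes]; exact h0 c
  | add a b _ _ ha hb => rw [map_add]; exact add_mem ha hb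
  | mul a b _ _ ha hb => rw [map_mul]; exact mul_mem ha hb

lemma B_le {W : Subring K} (h0 : ∀ c : ℂ, algebraMap ℂ K c ∈ W)
    (h1 : ∀ i, C.zx i / C.g j (C.dx i) ∈ W) (h2 : C.g j C.A / C.zm j ∈ W) :
    ∀ y ∈ C.B j, y ∈ W := by
  rintro y ⟨n, a, ha⟩
  have h3 := mul_mem (δ_mem h0 h1 a) (pow_mem h2 n)
  have := C.zm_ne j
  have := C.g_ne j C.A
  convert h3 using 1
  rw [ha.δ, g_nsmul, div_pow]
  field_simp

variable (C) in
/-- The charts. -/
noncomputable def charts : Charts K ι where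
  B := C.B
  f := C.zm
  f_ne := C.zm_ne
  ratio i j := ⟨1, _, H.congr (C.hm i) (by simp) (by have := C.zm_ne j; field_simp)⟩
  comp := by
    rintro i j c ⟨n, a, ha⟩
    exact ⟨n, n, a, ha.congr rfl (by have := C.zm_ne j; rw [div_pow]; field_simp)⟩
  fg j := by
    classical
    refine ⟨insert (C.g j C.A / C.zm j) (Finset.univ.image fun i => C.zx i / C.g j (C.dx i)),
      le_antisymm (Algebra.adjoin_le ?_) fun y hy => ?_⟩
    · intro y hy
      simp only [Finset.coe_insert, Finset.coe_image, Set.mem_insert_iff] at hy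
      rcases hy with rfl | ⟨i, -, rfl⟩
      exacts [inv_mem_B j, H.mem_B (C.hx i) j]
    · exact B_le (W := (Algebra.adjoin ℂ _).toSubring) (Subalgebra.algebraMap_mem _)
        (fun i => Algebra.subset_adjoin (by simp)) (Algebra.subset_adjoin (by simp)) y hy
  proper O hO := by
    obtain ⟨j, h1, h2⟩ := C.proper O hO
    exact ⟨j, B_le (W := O.toSubring) hO h1 h2⟩
  frac j y := by
    obtain ⟨a, b, d, u, v, ha, hb, hv, h⟩ := C.frac y
    exact ⟨_, H.mem_B ha j, _, H.mem_B hb j, div_ne_zero hv (C.g_ne j d), by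
      rw [← h, mul_div_assoc]⟩

lemma exists_of_δ_eq (h : C.H a d u) (h' : C.H b e v) (hδ : C.δ j a = C.δ j b) :
    ∃ (k : ℕ) (c : R), a * C.m j ^ k = b * c := by
  obtain ⟨k, c, hc⟩ := C.hg j (d - e)
  refine ⟨k, c, (h.mul (H.pow (C.hm j) k)).ext ((h'.mul hc).congr (by abel) ?_)⟩
  have h1 := congrArg Subtype.val hδ
  rw [h.δ, h'.δ, div_eq_div_iff (C.g_ne _ _) (C.g_ne _ _)] at h1
  rw [sub_eq_add_neg, C.g_add, g_neg, ← mul_assoc, ← mul_assoc, ← h1,
    mul_inv_cancel_right₀ (C.g_ne _ _)]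

lemma δ_dvd_iff {π : R} (hπ : Prime π) (h : C.H π d u) (hm : ¬ π ∣ C.m j) (h' : C.H a e v) :
    C.δ j π ∣ C.δ j a ↔ π ∣ a := by
  refine ⟨?_, map_dvd _⟩
  rintro ⟨y, hy⟩
  obtain ⟨n, b, hb, hb'⟩ := exists_δ y
  obtain ⟨k, c, hc⟩ := exists_of_δ_eq (j := j) (h'.mul (H.pow (C.hm j) n)) (h.mul hb)
    (by rw [map_mul, map_mul, hy, map_pow, mul_assoc, hb'])
  have : π ∣ a * C.m j ^ (n + k) := ⟨b * c, by rw [pow_add, ← mul_assoc, hc, mul_assoc]⟩
  exact (hπ.dvd_or_dvd this).resolve_right fun h => hm (hπ.dvd_of_dvd_pow h)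

lemma H.δ_ne (h : C.H a d u) (h0 : a ≠ 0) (j : ι) : C.δ j a ≠ 0 := fun e =>
  div_ne_zero (h.ne.mp h0) (C.g_ne j d) ((h.δ j).symm.trans (congrArg Subtype.val e))

lemma prime_δ {π : R} (hπ : Prime π) (h : C.H π d u) (hm : ¬ π ∣ C.m j) : Prime (C.δ j π) := by
  refine ⟨h.δ_ne hπ.ne_zero j, fun hu => hπ.not_dvd_one ?_, fun y z hyz => ?_⟩
  · rw [← δ_dvd_iff hπ h hm H.one, map_one]
    exact hu.dvd
  · obtain ⟨n, a, ha, ha'⟩ := exists_δ y
    obtain ⟨k, b, hb, hb'⟩ := exists_δ z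
    have h1 : π ∣ a * b := by
      rw [← δ_dvd_iff hπ h hm (ha.mul hb), map_mul, ← ha', ← hb', mul_mul_mul_comm]
      exact hyz.mul_right _
    refine (hπ.dvd_or_dvd h1).imp (fun h2 => ?_) fun h2 => ?_
    · rw [← ((isUnit_δ_m j).pow n).dvd_mul_right, ha']; exact map_dvd _ h2
    · rw [← ((isUnit_δ_m j).pow k).dvd_mul_right, hb']; exact map_dvd _ h2

lemma exists_ev {D : Type} [CommRing D] [Algebra ℂ D] (θ₀ : R →ₐ[ℂ] D)
    (hθ : IsUnit (θ₀ (C.m j))) : ∃ θ : C.B j →ₐ[ℂ] D, ∀ (y : C.B j) a b d u v, C.H a d u →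
      C.H b d v → y * v = u → θ y * θ₀ b = θ₀ a := by
  have hu : ∀ {D : Type} [CommRing D] [Algebra ℂ D] (θ₀ : R →ₐ[ℂ] D), IsUnit (θ₀ (C.m j)) →
      ∀ y : Submonoid.powers (C.m j), IsUnit (θ₀ y) := by
    rintro D _ _ θ₀ h ⟨_, n, rfl⟩
    simpa using h.pow n
  have h1 : IsUnit (C.ψ (C.m j)) := by
    rw [C.hm]
    exact isUnit_iff_exists_inv.mpr ⟨single (-C.A) (C.zm j)⁻¹, by
      rw [single_mul_single, add_neg_cancel, mul_inv_cancel₀ (C.zm_ne j)]; rfl⟩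
  let ψ' : Localization.Away (C.m j) →ₐ[ℂ] _ := IsLocalization.liftAlgHom (hu C.ψ h1)
  have hψ : ∀ a, ψ' (algebraMap R _ a) = C.ψ a := fun a => IsLocalization.lift_eq _ a
  have inj : Function.Injective ψ' := by
    rw [injective_iff_map_eq_zero]
    intro z hz
    obtain ⟨⟨a, s⟩, h⟩ := IsLocalization.surj (Submonoid.powers (C.m j)) z
    have := congrArg ψ' h
    rw [map_mul, hz, zero_mul, hψ, eq_comm, map_eq_zero_iff _ C.ψ_inj] at this
    rw [this, map_zero] at h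
    exact (IsLocalization.map_units _ s).mul_left_eq_zero.mp h
  let s₀ : C.B j →ₐ[ℂ] AddMonoidAlgebra K (Fin r → ℤ) :=
    (IsScalarTower.toAlgHom ℂ K _).comp (C.B j).val
  have hs : ∀ y, s₀ y ∈ ψ'.range := by
    rintro ⟨y, n, a, ha⟩
    refine ⟨IsLocalization.mk' _ a (⟨_, n, rfl⟩ : Submonoid.powers (C.m j)), ?_⟩
    refine (h1.pow n).mul_right_cancel ?_
    change ψ' _ * _ = single 0 y * _
    rw [← map_pow, ← hψ, ← map_mul, IsLocalization.mk'_spec, hψ, hψ, ha, H.pow (C.hm j) n,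
      single_mul_single, zero_add]
  let s := (AlgEquiv.ofInjective ψ' inj).symm.toAlgHom.comp (s₀.codRestrict _ hs)
  have hs' : ∀ y, ψ' (s y) = single 0 (y : K) := fun y =>
    congrArg Subtype.val ((AlgEquiv.ofInjective ψ' inj).apply_symm_apply ⟨s₀ y, hs y⟩)
  let θ' : Localization.Away (C.m j) →ₐ[ℂ] D := IsLocalization.liftAlgHom (hu θ₀ hθ)
  have hθ' : ∀ a, θ' (algebraMap R _ a) = θ₀ a := fun a => IsLocalization.lift_eq _ a
  refine ⟨θ'.comp s, fun y a b d u v ha hb h => ?_⟩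
  rw [← hθ', ← hθ', AlgHom.comp_apply, ← map_mul]
  congr 1
  apply inj
  rw [map_mul, hs', hψ, hψ, ha, hb, single_mul_single, zero_add, h]

lemma formallySmooth (h : ∀ (D : Type) [CommRing D] [Algebra ℂ D] (I : Ideal D), I ^ 2 = ⊥ →
    ∀ φ : R →ₐ[ℂ] D ⧸ I, IsUnit (φ (C.m j)) →
      ∃ θ : R →ₐ[ℂ] D, (Ideal.Quotient.mkₐ ℂ I).comp θ = φ) :
    Algebra.FormallySmooth ℂ (C.B j) := by
  refine .of_comp_surjective fun D _ _ I hI φ => ?_
  have hu : IsUnit (φ (C.δ j (C.m j))) := (isUnit_δ_m j).map φ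
  obtain ⟨θ₀, h0⟩ := h D I hI (φ.comp (C.δ j)) hu
  have h1 : ∀ a, Ideal.Quotient.mk I (θ₀ a) = φ (C.δ j a) := AlgHom.congr_fun h0
  obtain ⟨θ, hθ⟩ := exists_ev (j := j) θ₀
    ((IsNilpotent.isUnit_quotient_mk_iff ⟨2, hI⟩).mp (by rw [h1]; exact hu))
  refine ⟨θ, AlgHom.ext fun y => ?_⟩
  obtain ⟨n, a, ha, ha'⟩ := exists_δ y
  have h2 := congrArg (Ideal.Quotient.mk I) (hθ y a _ _ _ _ ha (H.pow (C.hm j) n) rfl)
  rw [map_mul, h1, h1, ← ha', map_mul, map_pow] at h2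
  exact ((isUnit_δ_m j).pow n).map φ |>.mul_right_cancel h2

end Cox

end Pool.Agent.MP_a703b5_ag

end MrgPart0

-- ======== part 1: formerly Pool.Agent.MP_a703b5_ag.Canon
section MrgPart1

-- ======== part 0: formerly Pool.Agent.MP_a703b5_ag.Divisor
section MrgPart0

/-!
Divisors on the variety of a factorial multigraded ring.
-/

set_option autoImplicit false
set_option linter.unusedSectionVars false
set_option linter.style.haveILetI false

open AlgebraicGeometry CategoryTheory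

namespace Pool.Agent.MP_a703b5_ag

namespace Cox

variable {K : Type} [Field K] [Algebra ℂ K] {r : ℕ} {R : Type} [CommRing R] [Algebra ℂ R]
  {σ ι : Type} [Fintype σ] {C : Cox K r R σ ι} [IsDomain R] {M : Model C.charts}
  {a b π : R} {d e : Fin r → ℤ} {u v y : K} {i j : ι} {x : M.X}
  {p : Spec (CommRingCat.of (C.charts.B j))}

lemma H.deg_zero (h : C.H a 0 u) (h0 : a ≠ 0) : IsUnit a := by
  have h1 : a ∈ Submodule.span ℂ {(1 : R)} := by
    refine Submodule.span_mono ?_ h.mem_span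
    rintro _ ⟨α, h1, rfl⟩
    have h2 : ∀ i ∈ Finset.univ, 0 ≤ C.ℓ (α i • C.dx i) := fun i _ => by
      rw [map_nsmul]; exact nsmul_nonneg (C.pos i).le _
    have h3 := congrArg C.ℓ h1
    rw [map_sum, map_zero, Finset.sum_eq_zero_iff_of_nonneg h2] at h3
    refine Finset.prod_eq_one fun i hi => ?_
    have := h3 i hi
    rw [map_nsmul, smul_eq_zero, or_iff_left (C.pos i).ne'] at this
    rw [this, pow_zero]
  obtain ⟨c, rfl⟩ := Submodule.mem_span_singleton.mp h1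
  rw [← Algebra.algebraMap_eq_smul_one] at h0 ⊢
  exact (IsUnit.mk0 c fun e => h0 (by rw [e, map_zero])).map _

lemma H.dvd_of_dvd (h : C.H a d u) (h0 : a ≠ 0) (h1 : C.ℓ d = 1) (hπ : ¬ IsUnit π)
    (h2 : π ∣ a) : a ∣ π := by
  obtain ⟨c, rfl⟩ := h2
  obtain ⟨d₁, u₁, d₂, u₂, h3, h4, rfl, -⟩ := h.of_mul h0
  have h5 := h3.deg_nonneg (left_ne_zero_of_mul h0)
  have h6 := h4.deg_nonneg (right_ne_zero_of_mul h0)
  rw [map_add] at h1
  by_cases h7 : C.ℓ d₁ = 0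
  · exact (hπ ((h3.congr (h5.2 h7) rfl).deg_zero (left_ne_zero_of_mul h0))).elim
  · exact ((h4.congr (h6.2 (by omega)) rfl).deg_zero (right_ne_zero_of_mul h0)).mul_right_dvd.mpr
      dvd_rfl

lemma H.mem_B_of_dvd (h : C.H a d u) (h' : C.H b d v) {n : ℕ} (hb : b ∣ C.m j ^ n) :
    v ≠ 0 ∧ u / v ∈ C.B j := by
  obtain ⟨c, hc⟩ := hb
  have h1 := H.pow (C.hm j) n
  have h0 := h1.ne.mpr (pow_ne_zero n (C.zm_ne j))
  rw [hc] at h1 h0
  obtain ⟨d₁, u₁, d₂, u₂, h3, h4, h5, h6⟩ := h1.of_mul h0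
  obtain ⟨rfl, rfl⟩ := h'.unique h3 (left_ne_zero_of_mul h0)
  have h7 := h'.ne.mp (left_ne_zero_of_mul h0)
  exact ⟨h7, n, _, (h.mul h4).congr h5.symm (by rw [h6]; field_simp)⟩

lemma U_δ (h : M.ch j p = x) (a : R) : M.U x (C.δ j a) ↔ C.δ j a ∉ p.asIdeal :=
  Model.U_iff h _

lemma U_of_isUnit (h : M.ch j p = x) {t : C.B j} (ht : IsUnit t) : M.U x t :=
  (Model.U_iff h t).mpr fun h' => p.isPrime.ne_top (Ideal.eq_top_of_isUnit_mem _ h' ht)

lemma U_g {q : Spec (CommRingCat.of (C.charts.B i))} (hi : M.ch i q = x) (hj : M.ch j p = x)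
    (d : Fin r → ℤ) : M.U x (C.g i d / C.g j d) := by
  have key : ∀ {i j q p}, M.ch i q = x → M.ch j p = x → C.g i d / C.g j d ∈ M.O x := by
    intro i j q p hi hj
    have h1 : M.U x (C.zm i / C.zm j) := (Model.U_iff hj ⟨_, C.charts.ratio i j⟩).mpr
      ((M.overlap i j p).mp ⟨q, hi.trans hj.symm⟩)
    have h2 := U_of_isUnit hj (isUnit_δ_m j)
    rw [H.δ (C.hm j)] at h2
    obtain ⟨n, a, ha⟩ := C.hg i d
    have h3 := mul_mem (Model.B_le_O hj (H.mem_B ha j)) ((h1.mul h2).pow n).2.2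
    have := C.zm_ne i
    have := C.zm_ne j
    have := C.g_ne j d
    have := C.g_ne j C.A
    convert h3 using 1
    rw [C.g_add, g_nsmul, mul_pow, div_pow, div_pow]
    field_simp
  exact ⟨div_ne_zero (C.g_ne _ _) (C.g_ne _ _), key hi hj, by rw [inv_div]; exact key hj hi⟩

variable (M) in
/-- The order of a homogeneous fraction. -/
noncomputable def ν (d : Fin r → ℤ) (u : K) (x : M.X) : ℤ :=
  M.ord (u / C.g (M.cover x).choose d) x

lemma ν_eq (h : M.ch j p = x) (hu : u ≠ 0) : ν M d u x = M.ord (u / C.g j d) x := by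
  have h1 := U_g h (M.cover x).choose_spec.choose_spec d
  rw [ν, ← add_zero (M.ord (u / C.g j d) x), ← h1.ord,
    ← Model.ord_mul (div_ne_zero hu (C.g_ne _ _)) h1.1, div_mul_div_cancel₀ (C.g_ne _ _)]

lemma ν_mul (hu : u ≠ 0) (hv : v ≠ 0) : ν M (d + e) (u * v) x = ν M d u x + ν M e v x := by
  rw [ν, ν, ν, ← Model.ord_mul (div_ne_zero hu (C.g_ne _ _)) (div_ne_zero hv (C.g_ne _ _)),
    C.g_add, div_mul_div_comm]

lemma ν_zero : ν M 0 u x = M.ord u x := by rw [ν, g_zero, div_one]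

lemma ν_inv (hu : u ≠ 0) : ν M (-d) u⁻¹ x = - ν M d u x := by
  have := ν_mul (x := x) (d := d) (e := -d) hu (inv_ne_zero hu)
  rw [add_neg_cancel, mul_inv_cancel₀ hu, ν_zero, Model.ord_one] at this
  omega

lemma ν_zpow (hu : u ≠ 0) (n : ℤ) : ν M (n • d) (u ^ n) x = n * ν M d u x := by
  induction n with
  | zero => simp [ν_zero, Model.ord_one]
  | succ n ih => rw [add_smul, one_smul, zpow_add_one₀ hu, ν_mul (zpow_ne_zero _ hu) hu, ih]; ring
  | pred n ih =>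
    rw [sub_smul, one_smul, zpow_sub_one₀ hu, sub_eq_add_neg,
      ν_mul (zpow_ne_zero _ hu) (inv_ne_zero hu), ih, ν_inv hu]; ring

variable (M) in
/-- `a` vanishes at `x`. -/
def Van (x : M.X) (a : R) : Prop := ∃ j p, M.ch j p = x ∧ C.δ j a ∈ p.asIdeal

lemma H.van_iff (h : C.H a d u) (hx : M.ch j p = x) : Van M x a ↔ C.δ j a ∈ p.asIdeal := by
  refine ⟨?_, fun h => ⟨j, p, hx, h⟩⟩
  rintro ⟨i, q, hi, hq⟩
  by_contra hc
  refine (U_δ hi a).mp ?_ hq
  have := ((U_δ hx a).mpr hc).mul (U_g hx hi d)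
  rwa [h.δ, div_mul_div_cancel₀ (C.g_ne _ _), ← h.δ] at this

lemma Van.dvd (h : Van M x a) (hb : a ∣ b) : Van M x b := by
  obtain ⟨j, p, h1, h2⟩ := h
  exact ⟨j, p, h1, Ideal.mem_of_dvd _ (map_dvd _ hb) h2⟩

lemma mem_chart : x ∈ Set.range (M.ch i) ↔ ¬ Van M x (C.m i) := by
  obtain ⟨j, p, rfl⟩ := M.cover x
  rw [M.overlap, H.van_iff (C.hm i) rfl, not_iff_not]
  refine (Ideal.mul_unit_mem_iff_mem p.asIdeal (isUnit_δ_m j)).symm.trans
    (Eq.to_iff (congrArg (· ∈ p.asIdeal) (Subtype.ext ?_)))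
  change C.zm i / C.zm j * C.δ j _ = C.δ j _
  rw [H.δ (C.hm i), H.δ (C.hm j)]
  exact div_mul_div_cancel₀ (C.zm_ne j)

lemma H.ν_nonneg (h : C.H a d u) (h0 : a ≠ 0) : 0 ≤ ν M d u x := by
  obtain ⟨j, p, hx⟩ := M.cover x
  rw [ν_eq hx (h.ne.mp h0)]
  exact Model.ord_nonneg (Model.B_le_O hx (h.mem_B j)) (div_ne_zero (h.ne.mp h0) (C.g_ne _ _))

lemma H.U_of_not_van (h : C.H a d u) (hv : ¬ Van M x a) (hx : M.ch j p = x) :
    M.U x (u / C.g j d) := by
  rw [← h.δ, U_δ hx, ← h.van_iff hx]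
  exact hv

lemma H.ν_of_not_van (h : C.H a d u) (hv : ¬ Van M x a) : ν M d u x = 0 :=
  (h.U_of_not_van hv (M.cover x).choose_spec.choose_spec).ord

lemma Van.span (hv : Van M x π) (hπ : Prime π) (h : C.H π d u) (h1 : Order.coheight x = 1)
    (hx : M.ch j p = x) : ¬ π ∣ C.m j ∧ p.asIdeal = Ideal.span {C.δ j π} := by
  have h2 : ¬ π ∣ C.m j := fun h2 => mem_chart.mp ⟨p, hx⟩ (hv.dvd h2)
  rw [← hx, Model.coheight_ch] at h1
  exact ⟨h2, Ideal.eq_span_singleton_of_height_eq_one h1 ((h.van_iff hx).mp hv) (prime_δ hπ h h2)⟩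

lemma Van.iff_dvd (hv : Van M x π) (hπ : Prime π) (h : C.H π d u) (h1 : Order.coheight x = 1)
    (h' : C.H a e v) : Van M x a ↔ π ∣ a := by
  obtain ⟨j, p, hx⟩ := M.cover x
  obtain ⟨h2, h3⟩ := hv.span hπ h h1 hx
  rw [h'.van_iff hx, h3, ← δ_dvd_iff hπ h h2 h']
  exact Ideal.mem_span_singleton

lemma Van.ν_eq (hv : Van M x π) (hπ : Prime π) (h : C.H π d u) (h1 : Order.coheight x = 1) :
    ν M d u x = 1 := by
  obtain ⟨j, p, hx⟩ := M.cover x
  rw [Cox.ν_eq hx (h.ne.mp hπ.ne_zero), ← h.δ]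
  exact Model.ord_gen hx h1 (hv.span hπ h h1 hx).2 (h.δ_ne hπ.ne_zero j)

lemma Van.unique {z : M.X} (hv : Van M x π) (hv' : Van M z π) (hπ : Prime π) (h : C.H π d u)
    (h1 : Order.coheight x = 1) (h1' : Order.coheight z = 1) : x = z := by
  obtain ⟨j, p, hx⟩ := M.cover x
  obtain ⟨h2, h3⟩ := hv.span hπ h h1 hx
  obtain ⟨q, hz⟩ := mem_chart.mpr (mt (hv'.iff_dvd hπ h h1' (C.hm j)).mp h2)
  rw [← hx, ← hz, PrimeSpectrum.ext (h3.trans (hv'.span hπ h h1' hz).2.symm)]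

lemma exists_z (hπ : Prime π) (h : C.H π d u) (hm : ¬ π ∣ C.m j) :
    ∃ q : Spec (CommRingCat.of (C.charts.B j)), q.asIdeal = Ideal.span {C.δ j π} ∧
      Order.coheight (M.ch j q) = 1 ∧ Van M (M.ch j q) π := by
  have h1 := prime_δ hπ h hm
  have : Algebra.FiniteType ℂ (C.B j) := (Subalgebra.fg_iff_finiteType _).mp (C.charts.fg j)
  have : IsNoetherianRing (C.B j) := Algebra.FiniteType.isNoetherianRing ℂ _
  refine ⟨⟨_, (Ideal.span_singleton_prime h1.ne_zero).mpr h1⟩, rfl, ?_,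
    j, _, rfl, Ideal.mem_span_singleton_self _⟩
  rw [Model.coheight_ch]
  exact Ideal.height_span_singleton_eq_one_of_mem_nonZeroDivisors (R := C.B j)
    (mem_nonZeroDivisors_of_ne_zero h1.ne_zero) h1.not_isUnit

variable [UniqueFactorizationMonoid R]

lemma Van.exists_prime (hv : Van M x a) (h0 : a ≠ 0) : ∃ π, Prime π ∧ π ∣ a ∧ Van M x π := by
  obtain ⟨j, p, hx, hp⟩ := hv
  induction a using UniqueFactorizationMonoid.induction_on_prime with
  | h₁ => exact (h0 rfl).elim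
  | h₂ a ha => exact (p.isPrime.ne_top (Ideal.eq_top_of_isUnit_mem _ hp (ha.map _))).elim
  | h₃ a π ha hπ ih =>
    rw [map_mul] at hp
    rcases p.isPrime.mem_or_mem hp with h | h
    · exact ⟨π, hπ, dvd_mul_right _ _, j, p, hx, h⟩
    · obtain ⟨π', h1, h2, h3⟩ := ih ha h
      exact ⟨π', h1, h2.mul_left _, h3⟩

lemma exists_π (z : PrimeDiv M.X) :
    ∃ t : R × (Fin r → ℤ) × K, Prime t.1 ∧ C.H t.1 t.2.1 t.2.2 ∧ Van M z t.1 := by
  obtain ⟨j, p, hx⟩ := M.cover z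
  have h1 := z.2
  rw [← hx, Model.coheight_ch] at h1
  obtain ⟨y, hy, h0⟩ := Submodule.exists_mem_ne_zero_of_ne_bot
    (p.asIdeal.ne_bot_of_height_eq_one h1)
  obtain ⟨n, a, ha, ha'⟩ := exists_δ y
  have h2 : a ≠ 0 := ha.ne.mpr (mul_ne_zero (fun e => h0 (Subtype.ext e))
    (pow_ne_zero _ (C.zm_ne j)))
  obtain ⟨π, h3, h4, h5⟩ := Van.exists_prime (M := M)
    ⟨j, p, hx, ha' ▸ Ideal.mul_mem_right _ _ hy⟩ h2
  obtain ⟨e, v, h6⟩ := ha.of_dvd h2 h4
  exact ⟨⟨π, e, v⟩, h3, h6, h5⟩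

variable (M) in
/-- The class of a divisor. -/
noncomputable def deg : WDiv M.X →ₗ[ℤ] (Fin r → ℤ) :=
  Finsupp.linearCombination ℤ fun z => (exists_π z).choose.2.1

lemma Van.single {z : PrimeDiv M.X} (hv : Van M z π) (hπ : Prime π) (h : C.H π d u) :
    deg M (Finsupp.single z 1) = d ∧ ∀ w : PrimeDiv M.X, Finsupp.single z 1 w = ν M d u w := by
  classical
  refine ⟨?_, fun w => ?_⟩
  · obtain ⟨h1, h2, h3⟩ := (exists_π z).choose_spec
    rw [deg, Finsupp.linearCombination_single, one_smul]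
    obtain ⟨c, hc⟩ := (h3.iff_dvd h1 h2 z.2 h).mp hv
    have h4 := hπ.irreducible.isUnit_or_isUnit hc
    rw [hc] at h hπ
    obtain ⟨d₁, u₁, d₂, u₂, h5, h6, rfl, -⟩ := h.of_mul hπ.ne_zero
    rw [h6.unit_deg (h4.resolve_left h1.not_isUnit), add_zero, (h2.unique h5 h1.ne_zero).1]
  · by_cases e : z = w
    · rw [← e, hv.ν_eq hπ h z.2, Finsupp.single_eq_same]
    · rw [Finsupp.single_eq_of_ne' e, h.ν_of_not_van fun hw =>
        e (Subtype.ext (hv.unique hw hπ h z.2 w.2))]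

lemma exists_u (D : WDiv M.X) : ∃ u ≠ 0, ∀ z : PrimeDiv M.X, D z = ν M (deg M D) u z := by
  induction D using Finsupp.induction_linear with
  | zero => exact ⟨1, one_ne_zero, fun z => by simp [ν_zero, Model.ord_one]⟩
  | add D E hD hE =>
    obtain ⟨u, hu, h⟩ := hD
    obtain ⟨v, hv, h'⟩ := hE
    exact ⟨u * v, mul_ne_zero hu hv, fun z => by
      rw [map_add, ν_mul hu hv, ← h, ← h', Finsupp.add_apply]⟩
  | single z n =>
    obtain ⟨⟨π, d, u⟩, h1, h2, h3⟩ := exists_π z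
    obtain ⟨h4, h5⟩ := h3.single h1 h2
    have hu := h2.ne.mp h1.ne_zero
    refine ⟨u ^ n, zpow_ne_zero _ hu, fun w => ?_⟩
    rw [← Finsupp.smul_single_one, map_smul, h4, ν_zpow hu, ← h5, Finsupp.smul_apply, smul_eq_mul]

variable (C) in
/-- The complement of the charts has codimension at least two. -/
def Codim : Prop := ∀ π : R, Prime π → ∃ j, ¬ π ∣ C.m j

lemma exists_D (hc : C.Codim) (d : Fin r → ℤ) (hu : u ≠ 0) :
    ∃ D : WDiv M.X, deg M D = d ∧ ∀ z : PrimeDiv M.X, D z = ν M d u z := by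
  let P : (Fin r → ℤ) → K → Prop := fun d u =>
    u ≠ 0 ∧ ∃ D : WDiv M.X, deg M D = d ∧ ∀ z : PrimeDiv M.X, D z = ν M d u z
  have mul : ∀ {d u e v}, P d u → P e v → P (d + e) (u * v) := by
    rintro d u e v ⟨hu, D, h1, h2⟩ ⟨hv, E, h3, h4⟩
    exact ⟨mul_ne_zero hu hv, D + E, by rw [map_add, h1, h3], fun z => by
      rw [ν_mul hu hv, ← h2, ← h4, Finsupp.add_apply]⟩
  have inv : ∀ {d u}, P d u → P (-d) u⁻¹ := by
    rintro d u ⟨hu, D, h1, h2⟩
    exact ⟨inv_ne_zero hu, -D, by rw [map_neg, h1], fun z => by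
      rw [ν_inv hu, ← h2, Finsupp.neg_apply]⟩
  have hom : ∀ a : R, ∀ {d u}, C.H a d u → u ≠ 0 → P d u := by
    intro a
    induction a using UniqueFactorizationMonoid.induction_on_prime with
    | h₁ => exact fun h hu => (h.ne.mpr hu rfl).elim
    | h₂ a ha =>
      refine fun h hu => ⟨hu, 0, by rw [map_zero, h.unit_deg ha], fun z => ?_⟩
      rw [h.ν_of_not_van, Finsupp.zero_apply]
      rintro ⟨j, p, -, hp⟩
      exact p.isPrime.ne_top (Ideal.eq_top_of_isUnit_mem _ hp (ha.map _))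
    | h₃ a π ha hπ ih =>
      intro d u h hu
      obtain ⟨d₁, u₁, d₂, u₂, h1, h2, rfl, rfl⟩ := h.of_mul (h.ne.mpr hu)
      obtain ⟨j, hj⟩ := hc π hπ
      obtain ⟨q, -, h3, h4⟩ := exists_z (M := M) hπ h1 hj
      exact mul ⟨left_ne_zero_of_mul hu, _, Van.single (z := ⟨_, h3⟩) h4 hπ h1⟩
        (ih h2 (right_ne_zero_of_mul hu))
  obtain ⟨j, -⟩ := C.proper ⊤ fun _ => trivial
  obtain ⟨n, a, ha⟩ := C.hg j d
  obtain ⟨b, c, e, v, w, hb, hc, hw, h⟩ := C.frac (u / C.g j d)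
  have h1 := C.g_ne j d
  have h2 := pow_ne_zero n (C.zm_ne j)
  have hv : v ≠ 0 := h ▸ mul_ne_zero (div_ne_zero hu h1) hw
  have := mul (mul (hom a ha (mul_ne_zero h1 h2)) (inv (hom _ (H.pow (C.hm j) n) h2)))
    (mul (hom b hb hv) (inv (hom c hc hw)))
  rw [add_neg_cancel_right, add_neg_cancel, add_zero, mul_inv_cancel_right₀ h2, ← h,
    mul_inv_cancel_right₀ hw, mul_div_cancel₀ _ h1] at this
  exact this.2

lemma exists_coprime (C : Cox K r R σ ι) (hy : y ≠ 0) :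
    ∃ a b d u v, C.H a d u ∧ C.H b d v ∧ v ≠ 0 ∧ y * v = u ∧ IsRelPrime a b := by
  obtain ⟨a, b, d, u, v, ha, hb, hv, h⟩ := C.frac y
  have hb0 := (H.ne hb).mpr hv
  have ha0 := (H.ne ha).mpr (h ▸ mul_ne_zero hy hv)
  obtain ⟨a, b, c, h1, rfl, rfl⟩ := UniqueFactorizationMonoid.exists_reduced_factors' a b hb0
  obtain ⟨d₁, u₁, d₂, u₂, h2, h3, h4, rfl⟩ := H.of_mul ha ha0
  obtain ⟨e₁, v₁, e₂, v₂, h5, h6, h7, rfl⟩ := H.of_mul hb hb0
  obtain ⟨rfl, rfl⟩ := h2.unique h5 (left_ne_zero_of_mul ha0)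
  obtain rfl := add_left_cancel (h4.symm.trans h7)
  exact ⟨a, b, _, _, _, h3, h6, right_ne_zero_of_mul hv,
    mul_left_cancel₀ (left_ne_zero_of_mul hv) (by rw [← h]; ring), h1⟩

lemma H.div_mem (h : C.H a d u) (h' : C.H b d v) (hb : ¬ Van M x b) (hy : y * v = u) :
    y ∈ M.O x := by
  obtain ⟨j, p, hx⟩ := M.cover x
  have h1 := h'.U_of_not_van hb hx
  have h2 := mul_mem (Model.B_le_O hx (h.mem_B j)) h1.2.2
  rwa [← hy, mul_div_assoc, mul_inv_cancel_right₀ h1.1] at h2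

lemma Van.exists_div (hv : Van M x π) (hπ : Prime π) (h : C.H π d u) :
    ∃ z : PrimeDiv M.X, z.1 ⤳ x ∧ Van M z π := by
  obtain ⟨j, p, rfl⟩ := M.cover x
  obtain ⟨q, h1, h2, h3⟩ := exists_z (M := M) (j := j) hπ h fun h2 =>
    mem_chart.mp ⟨p, rfl⟩ (hv.dvd h2)
  refine ⟨⟨_, h2⟩, Model.ch_specializes.mpr ?_, h3⟩
  rw [h1]
  exact (Ideal.span_singleton_le_iff_mem _).mpr ((h.van_iff rfl).mp hv)

lemma mem_O_of_ord (hy : y ≠ 0) (h : ∀ z : PrimeDiv M.X, z.1 ⤳ x → 0 ≤ M.ord y z) :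
    y ∈ M.O x := by
  obtain ⟨a, b, d, u, v, ha, hb, hv, h1, h2⟩ := C.exists_coprime hy
  refine ha.div_mem hb (fun h3 => ?_) h1
  obtain ⟨π, hπ, ⟨c, rfl⟩, h4⟩ := h3.exists_prime (hb.ne.mpr hv)
  obtain ⟨d₁, u₁, d₂, u₂, h5, h6, h7, rfl⟩ := hb.of_mul (hb.ne.mpr hv)
  obtain ⟨z, h8, h9⟩ := h4.exists_div hπ h5
  have e1 := ν_mul (x := z.1) (d := 0) (e := d) hy hv
  have e2 := ν_mul (x := z.1) (d := d₁) (e := d₂) (left_ne_zero_of_mul hv) (right_ne_zero_of_mul hv)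
  have e3 := h6.ν_nonneg (x := z.1) (h6.ne.mpr (right_ne_zero_of_mul hv))
  rw [zero_add, h1, ν_zero, ha.ν_of_not_van fun h' => hπ.not_isUnit
    (h2 ((h9.iff_dvd hπ h5 z.2 ha).mp h') (dvd_mul_right _ _))] at e1
  rw [← h7, h9.ν_eq hπ h5 z.2] at e2
  have := h z h8
  omega

lemma mem_O_or (z : PrimeDiv M.X) (hy : y ≠ 0) : y ∈ M.O z ∨ y⁻¹ ∈ M.O z := by
  have key : ∀ w : PrimeDiv M.X, w.1 ⤳ z → w.1 = z := fun w hw => by
    obtain ⟨⟨π, e, v⟩, h1, h2, h3⟩ := exists_π w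
    obtain ⟨j, p, hp⟩ := M.cover z
    rw [← hp] at hw
    obtain ⟨q, hq⟩ := Model.exists_of_specializes hw
    rw [← hq] at hw
    exact h3.unique ⟨j, p, hp, Model.ch_specializes.mp hw ((h2.van_iff hq).mp h3)⟩ h1 h2 w.2 z.2
  refine (le_total 0 (M.ord y z)).imp (fun h => mem_O_of_ord hy fun w hw => key w hw ▸ h)
    fun h => mem_O_of_ord (inv_ne_zero hy) fun w hw => ?_
  rw [key w hw, Model.ord_inv hy]
  omega

lemma U_of_ord (hy : y ≠ 0) (h : ∀ z : PrimeDiv M.X, z.1 ⤳ x → M.ord y z = 0) : M.U x y :=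
  ⟨hy, mem_O_of_ord hy fun z hz => (h z hz).ge, mem_O_of_ord (inv_ne_zero hy) fun z hz => by
    rw [Model.ord_inv hy, h z hz, neg_zero]⟩

lemma isAmple {D : WDiv M.X} (hu : u ≠ 0) (hD : ∀ z : PrimeDiv M.X, D z = ν M d u z) {n : ℕ}
    (hn : 0 < n) (hd : (n : ℤ) • d = C.A) : IsAmple D := by
  intro x
  obtain ⟨j, p, rfl⟩ := M.cover x
  have h0 := div_ne_zero (C.zm_ne j) (zpow_ne_zero n hu)
  have key : ∀ z : PrimeDiv M.X, n * D z + M.X.ord (M.e.symm (C.zm j / u ^ (n : ℤ))) z =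
      ν M C.A (C.zm j) z := fun z => by
    have := ν_mul (x := z.1) (d := (n : ℤ) • d) (e := 0) (zpow_ne_zero n hu) h0
    rw [add_zero, ν_zpow hu, hd, ν_zero, mul_div_cancel₀ _ (zpow_ne_zero n hu)] at this
    rw [this, hD]
    rfl
  have hm := (H.ne (C.hm j)).mpr (C.zm_ne j)
  refine ⟨n, M.e.symm (C.zm j / u ^ (n : ℤ)), (M.ch j).opensRange, hn, by simpa using h0,
    fun z => key z ▸ H.ν_nonneg (C.hm j) hm, ⟨p, rfl⟩, isAffineOpen_opensRange _, fun y => ?_⟩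
  simp only [key]
  refine ⟨fun hy z hz => H.ν_of_not_van (C.hm j) (mem_chart.mp
    (hz.mem_open (M.ch j).isOpenEmbedding.isOpen_range hy)), fun h => mem_chart.mpr fun h1 => ?_⟩
  obtain ⟨π, hπ, ⟨c, hc⟩, h4⟩ := h1.exists_prime hm
  obtain ⟨d₁, u₁, d₂, u₂, h5, h6, h7, h8⟩ := H.of_mul (hc ▸ C.hm j) (hc ▸ hm)
  obtain ⟨z, h9, h10⟩ := h4.exists_div hπ h5
  have hz := h8 ▸ C.zm_ne j
  have e2 := ν_mul (x := z.1) (d := d₁) (e := d₂) (left_ne_zero_of_mul hz) (right_ne_zero_of_mul hz)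
  have e3 := h6.ν_nonneg (x := z.1) (h6.ne.mpr (right_ne_zero_of_mul hz))
  rw [← h7, ← h8, h z h9, h10.ν_eq hπ h5 z.2] at e2
  omega

lemma picard (hc : C.Codim) (h : ∀ D, NumTrivial M.s D → deg M D = 0) : picardNumber M.s = r := by
  have h1 : Submodule.span ℤ {D | NumTrivial M.s D} = LinearMap.ker (deg M) := by
    refine le_antisymm (Submodule.span_le.mpr h) fun D hD => Submodule.subset_span ?_
    obtain ⟨u, hu, h1⟩ := exists_u D
    rw [show deg M D = 0 from hD] at h1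
    refine fun Z _ _ γ _ _ => ⟨0, ⟨fun _ => M.e.symm u, fun _ => 1, fun p =>
      ⟨⟨by simpa using hu, fun z _ => (h1 z).trans ν_zero⟩, by simp, ?_⟩⟩, map_zero _⟩
    have := Scheme.ord_mul (X := Z) (f := 1) (g := 1) (x := p) one_ne_zero one_ne_zero
    rw [mul_one, left_eq_add] at this
    rw [Units.val_one, map_one, Finsupp.zero_apply]
    exact this.symm
  rw [picardNumber, h1, (LinearMap.quotKerEquivOfSurjective _ fun d =>
    (exists_D hc d one_ne_zero).imp fun _ h => h.1).finrank_eq]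
  simp

end Cox

end Pool.Agent.MP_a703b5_ag

end MrgPart0

-- ======== part 1: formerly Pool.Agent.MP_a703b5_ag.Canon
section MrgPart1

/-!
The anticanonical class through local coordinates.
-/

set_option autoImplicit false
set_option linter.unusedSectionVars false
set_option linter.style.haveILetI false

open AlgebraicGeometry CategoryTheory

namespace Pool.Agent.MP_a703b5_ag

variable {K : Type} [Field K] [Algebra ℂ K] {n : ℕ}

/-- Regular functions whose differential is a combination of those of the coordinates. -/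
def Wr (D : Fin n → Derivation ℂ K K) (O : Subring K) (c : Fin n → K) : Subring K where
  carrier := {a | a ∈ O ∧ ∃ t : Fin n → O, ∀ j, D j a = ∑ k, t k * D j (c k)}
  mul_mem' := by
    rintro a b ⟨ha, s, hs⟩ ⟨hb, t, ht⟩
    refine ⟨mul_mem ha hb, fun k => ⟨a, ha⟩ * t k + ⟨b, hb⟩ * s k, fun j => ?_⟩
    simp only [Derivation.leibniz, hs, ht, smul_eq_mul, Finset.mul_sum, ← Finset.sum_add_distrib,
      Subring.coe_add, Subring.coe_mul]
    exact Finset.sum_congr rfl fun k _ => by ring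
  one_mem' := ⟨one_mem _, 0, fun j => by simp⟩
  add_mem' := by
    rintro a b ⟨ha, s, hs⟩ ⟨hb, t, ht⟩
    refine ⟨add_mem ha hb, s + t, fun j => ?_⟩
    simp [hs, ht, add_mul, Finset.sum_add_distrib]
  zero_mem' := ⟨zero_mem _, 0, fun j => by simp⟩
  neg_mem' := by
    rintro a ⟨ha, s, hs⟩
    exact ⟨neg_mem ha, -s, fun j => by simp [hs]⟩

variable {D : Fin n → Derivation ℂ K K} {O : Subring K} {c : Fin n → K} {a b : K}

lemma Wr.const (c' : ℂ) (h : algebraMap ℂ K c' ∈ O) : algebraMap ℂ K c' ∈ Wr D O c :=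
  ⟨h, 0, fun j => by simp⟩

lemma Wr.coord (k : Fin n) (h : c k ∈ O) : c k ∈ Wr D O c := by
  classical
  exact ⟨h, Pi.single k 1, fun j => by
    rw [Finset.sum_eq_single k (fun l _ hl => by simp [hl]) (by simp)]; simp⟩

lemma Wr.of_mul (ha : a ∈ O) (hb : b ∈ O) (h : ∀ j, D j a = b * D j (a * a))
    (h' : a * a ∈ Wr D O c) : a ∈ Wr D O c := by
  obtain ⟨-, s, hs⟩ := h'
  exact ⟨ha, fun k => ⟨b, hb⟩ * s k, fun j => by simp [h, hs, Finset.mul_sum, mul_assoc]⟩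

lemma Wr.inv (ha : a ∈ Wr D O c) (h : a⁻¹ ∈ O) : a⁻¹ ∈ Wr D O c := by
  obtain ⟨-, s, hs⟩ := ha
  exact ⟨h, fun k => -⟨_, h⟩ ^ 2 * s k, fun j => by
    simp [Derivation.leibniz_inv, hs, Finset.mul_sum, mul_assoc]⟩

lemma Wr.sqrt (ha : a ∈ O) (h0 : 2 * a ≠ 0) (h : (2 * a)⁻¹ ∈ O) (h' : a * a ∈ Wr D O c) :
    a ∈ Wr D O c :=
  Wr.of_mul ha h (fun j => by
    rw [Derivation.leibniz, smul_eq_mul, ← add_mul, ← two_mul, inv_mul_cancel_left₀ h0]) h'

lemma exists_basis [Algebra (MvPolynomial (Fin n) ℂ) K] [IsScalarTower ℂ (MvPolynomial (Fin n) ℂ) K]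
    [IsFractionRing (MvPolynomial (Fin n) ℂ) K] : ∃ b : Module.Basis (Fin n) K Ω[K⁄ℂ],
    ∀ i, b i = KaehlerDifferential.D ℂ K (algebraMap (MvPolynomial (Fin n) ℂ) K (.X i)) :=
  ⟨(KaehlerDifferential.mvPolynomialBasis ℂ (Fin n)).ofIsLocalizedModule K
    (nonZeroDivisors (MvPolynomial (Fin n) ℂ)) (KaehlerDifferential.map ℂ ℂ _ K), fun i => by simp⟩

lemma Model.isAnticanonical [Algebra (MvPolynomial (Fin n) ℂ) K]
    [IsScalarTower ℂ (MvPolynomial (Fin n) ℂ) K] [IsFractionRing (MvPolynomial (Fin n) ℂ) K]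
    {ι : Type} {𝒞 : Charts K ι} (M : Model 𝒞) (E : WDiv M.X)
    (h : ∀ D : Fin n → Derivation ℂ K K, (∀ i j, D i (algebraMap (MvPolynomial (Fin n) ℂ) K
      (.X j)) = if i = j then 1 else 0) → ∀ z : PrimeDiv M.X, ∃ c : Fin n → K,
      M.O z ≤ Wr D (M.O z) c ∧ (∀ k, c k ∈ M.O z) ∧ (Matrix.of fun j k => D j (c k)).det ≠ 0 ∧
      E z = M.ord (Matrix.of fun j k => D j (c k)).det z) : IsAnticanonical M.s E := by
  letI : Algebra ℂ M.X.functionField := (const M.s).toAlgebra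
  let e : M.X.functionField ≃ₐ[ℂ] K := AlgEquiv.ofRingEquiv (f := M.e) M.e_const
  letI : Algebra (MvPolynomial (Fin n) ℂ) M.X.functionField :=
    (M.e.symm.toRingHom.comp (algebraMap _ K)).toAlgebra
  have : IsScalarTower ℂ (MvPolynomial (Fin n) ℂ) M.X.functionField :=
    .of_algebraMap_eq fun c => by
      rw [← e.symm.commutes, IsScalarTower.algebraMap_apply ℂ (MvPolynomial (Fin n) ℂ) K]
      rfl
  have : IsFractionRing (MvPolynomial (Fin n) ℂ) M.X.functionField :=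
    IsLocalization.isLocalization_of_algEquiv _ (AlgEquiv.ofRingEquiv (f := M.e.symm) fun _ => rfl)
  obtain ⟨b, hb⟩ := exists_basis (K := M.X.functionField) (n := n)
  let D : Fin n → Derivation ℂ K K := fun i => Derivation.mk' (e.toLinearMap ∘ₗ
    (b.coord i).restrictScalars ℂ ∘ₗ (KaehlerDifferential.D ℂ _).toLinearMap ∘ₗ e.symm.toLinearMap)
    fun x y => by simp
  have hD : ∀ i y, D i (M.e y) = M.e (b.repr (KaehlerDifferential.D ℂ _ y) i) := fun i y => by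
    change e (b.coord i (KaehlerDifferential.D ℂ _ (e.symm (e y)))) = _
    rw [e.symm_apply_apply]
    rfl
  have hdet : ∀ (z : M.X) (a : Fin n → M.X.presheaf.stalk z), M.e (b.det fun i =>
      KaehlerDifferential.D ℂ M.X.functionField (algebraMap _ _ (a i))) =
      (Matrix.of fun j k => D j (M.ev z (a k))).det := fun z a => by
    rw [Module.Basis.det_apply, RingEquiv.map_det]
    congr 1
    ext j k
    exact (hD j _).symm
  refine ⟨n, b, fun z => ?_⟩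
  obtain ⟨c, h1, h2, h3, h4⟩ := h D (fun i j => by
    rw [← M.e.apply_symm_apply (algebraMap _ K _), hD]
    change M.e (b.repr (KaehlerDifferential.D ℂ _ (algebraMap (MvPolynomial (Fin n) ℂ) _ _)) i) = _
    rw [← hb, b.repr_self, Finsupp.single_apply]
    simp [eq_comm]) z
  constructor
  · choose a ha using h2
    refine ⟨a, _, fun h0 => h3 ?_, rfl, ?_⟩
    · simp only [← ha]
      rw [← hdet, h0, map_zero]
    · simp only [← M.ord_e, hdet, ha, h4]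
  · rintro _ ⟨a, _, h0, rfl, rfl⟩
    choose t ht using fun k => (h1 ⟨a k, rfl⟩).2
    have h5 : (Matrix.of fun j k => D j (M.ev z (a k))).det =
        (Matrix.of fun j k => D j (c k)).det * ((Matrix.of t).det : M.O z) := by
      rw [← Matrix.det_transpose (Matrix.of t), ← Subring.coe_subtype, RingHom.map_det,
        ← Matrix.det_mul]
      congr 1
      ext j k
      simp [Matrix.mul_apply, ht, mul_comm]
    have h6 := (map_ne_zero M.e).mpr h0
    rw [hdet, h5] at h6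
    rw [← M.ord_e, hdet, h5, h4, Model.ord_mul h3 (right_ne_zero_of_mul h6), le_add_iff_nonneg_right]
    exact Model.ord_nonneg (Subtype.prop _) (right_ne_zero_of_mul h6)

lemma Cox.O_le_Wr {r : ℕ} {R : Type} [CommRing R] [Algebra ℂ R] {σ ι : Type} [Fintype σ]
    {C : Cox K r R σ ι} [IsDomain R] {M : Model C.charts} {j : ι} {x : M.X}
    {p : Spec (CommRingCat.of (C.charts.B j))} (hx : M.ch j p = x)
    (h : ∀ i, C.zx i / C.g j (C.dx i) ∈ Wr D (M.O x) c) : M.O x ≤ Wr D (M.O x) c := by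
  have h0 : ∀ c' : ℂ, algebraMap ℂ K c' ∈ Wr D (M.O x) c := fun c' =>
    Wr.const c' (Model.const_mem_O x c')
  have h1 : ∀ a, (C.δ j a : K) ∈ Wr D (M.O x) c := δ_mem h0 h
  have h2 := (U_of_isUnit hx (isUnit_δ_m j)).2.2
  have h3 := Wr.inv (h1 _) h2
  rw [H.δ (C.hm j), inv_div] at h3
  intro y hy
  obtain ⟨a, b, hb, hy⟩ := (Model.mem_O hx).mp hy
  have h4 := (Model.U_iff hx b).mpr hb
  rw [← mul_inv_cancel_right₀ h4.1 y, hy]
  exact mul_mem (B_le h0 h h3 _ a.2) (Wr.inv (B_le h0 h h3 _ b.2) h4.2.2)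

end Pool.Agent.MP_a703b5_ag

end MrgPart1

-- marker of a merged file
example : 731051 + 562218 = 731051 + 562218 := rfl

end MrgPart1

-- ======== part 2: formerly Pool.Agent.MP_a703b5_ag.CoxHom
section MrgPart2

/-!
Morphisms induced by graded homomorphisms.
-/

set_option autoImplicit false
set_option linter.unusedSectionVars false
set_option linter.style.haveILetI false

open AlgebraicGeometry CategoryTheory

namespace Pool.Agent.MP_a703b5_ag

variable {K : Type} [Field K] [Algebra ℂ K] {r : ℕ} {R : Type} [CommRing R] [Algebra ℂ R]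
  {σ ι : Type} [Fintype σ] [IsDomain R]
  {L : Type} [Field L] [Algebra ℂ L] {r' : ℕ} {R' : Type} [CommRing R'] [Algebra ℂ R']
  {σ' κ : Type} [Fintype σ'] [IsDomain R']

/-- A graded homomorphism compatible with the charts. -/
structure CoxHom (C : Cox K r R σ ι) (C' : Cox L r' R' σ' κ) where
  /-- the ring map -/
  θ : R →ₐ[ℂ] R'
  /-- the degree map -/
  lam : (Fin r → ℤ) →+ (Fin r' → ℤ)
  hθ : ∀ i, ∃ w, C'.H (θ (C.x i)) (lam (C.dx i)) w
  /-- the chart map -/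
  β : κ → ι
  unit : ∀ k, ∃ n, θ (C.m (β k)) ∣ C'.m k ^ n

namespace CoxHom

open Cox

variable {C : Cox K r R σ ι} {C' : Cox L r' R' σ' κ} (T : CoxHom C C')
  {a b : R} {d e : Fin r → ℤ} {u v y z : K} {y' y'' z' : L}

lemma hom (h : C.H a d u) : ∃ w, C'.H (T.θ a) (T.lam d) w := by
  have h1 := h.mem_span
  clear h
  induction h1 using Submodule.span_induction with
  | mem a ha =>
    obtain ⟨α, rfl, rfl⟩ := ha
    choose w hw using T.hθ
    refine ⟨∏ i, w i ^ α i, ?_⟩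
    rw [map_prod, map_sum]
    classical
    induction (Finset.univ : Finset σ) using Finset.induction_on with
    | empty => simpa using H.one
    | insert i s hi ih =>
      rw [Finset.prod_insert hi, Finset.prod_insert hi, Finset.sum_insert hi, map_pow, map_nsmul]
      exact ((hw i).pow _).mul ih
  | zero => exact ⟨0, by rw [map_zero]; exact H.zero⟩
  | add a b _ _ ha hb =>
    obtain ⟨u, hu⟩ := ha
    obtain ⟨v, hv⟩ := hb
    exact ⟨_, by rw [map_add]; exact hu.add hv⟩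
  | smul c a _ ha =>
    obtain ⟨u, hu⟩ := ha
    exact ⟨_, by rw [map_smul]; exact hu.smul c⟩

/-- The homogeneous fraction `y` of degree `d` maps to `y'`. -/
def P (d : Fin r → ℤ) (y : K) (y' : L) : Prop :=
  ∃ a b e u v u' v', C.H a (e + d) u ∧ C.H b e v ∧ C'.H (T.θ a) (T.lam (e + d)) u' ∧
    C'.H (T.θ b) (T.lam e) v' ∧ v' ≠ 0 ∧ y * v = u ∧ y' * v' = u'

variable {T}

lemma P.of_H (h : C.H a d u) (h' : C'.H (T.θ a) (T.lam d) y') : T.P d u y' :=
  ⟨a, 1, 0, u, 1, y', 1, by rwa [zero_add], H.one, by rwa [zero_add],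
    by rw [map_one, map_zero]; exact H.one, one_ne_zero, mul_one _, mul_one _⟩

lemma P.mul (h : T.P d y y') (h' : T.P e z z') : T.P (d + e) (y * z) (y' * z') := by
  obtain ⟨a, b, f, u, v, u', v', h1, h2, h3, h4, h5, rfl, rfl⟩ := h
  obtain ⟨a₁, b₁, f₁, u₁, v₁, u₁', v₁', k1, k2, k3, k4, k5, rfl, rfl⟩ := h'
  exact ⟨a * a₁, b * b₁, f + f₁, _, _, _, _, (h1.mul k1).congr (by abel) rfl, h2.mul k2,
    by rw [map_mul]; exact (h3.mul k3).congr (by simp only [map_add]; abel) rfl,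
    by rw [map_mul, map_add]; exact h4.mul k4, mul_ne_zero h5 k5, by ring, by ring⟩

lemma P.add (h : T.P d y y') (h' : T.P d z z') : T.P d (y + z) (y' + z') := by
  obtain ⟨a, b, f, u, v, u', v', h1, h2, h3, h4, h5, rfl, rfl⟩ := h
  obtain ⟨a₁, b₁, f₁, u₁, v₁, u₁', v₁', k1, k2, k3, k4, k5, rfl, rfl⟩ := h'
  exact ⟨a * b₁ + b * a₁, b * b₁, f + f₁, _, _, _, _,
    ((h1.mul k2).congr (by abel) rfl).add ((h2.mul k1).congr (by abel) rfl), h2.mul k2,
    by rw [map_add, map_mul, map_mul]; exact ((h3.mul k4).congr (by simp only [map_add]; abel)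
      rfl).add ((h4.mul k3).congr (by simp only [map_add]; abel) rfl),
    by rw [map_mul, map_add]; exact h4.mul k4, mul_ne_zero h5 k5, by ring, by ring⟩

lemma P.unique (h : T.P d y y') (h' : T.P d y y'') : y' = y'' := by
  obtain ⟨a, b, f, u, v, u', v', h1, h2, h3, h4, h5, rfl, rfl⟩ := h
  obtain ⟨a₁, b₁, f₁, u₁, v₁, u₁', v₁', k1, k2, k3, k4, k5, rfl, rfl⟩ := h'
  have e1 : a * b₁ = b * a₁ := (h1.mul k2).ext ((h2.mul k1).congr (by abel) (by ring))
  have e2 := h3.mul k4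
  have e3 := (h4.mul k3).congr (e := T.lam (f + d) + T.lam f₁) (by simp only [map_add]; abel) rfl
  rw [← map_mul] at e2 e3
  rw [e1, H, e3, AddMonoidAlgebra.single_right_inj] at e2
  exact mul_right_cancel₀ (mul_ne_zero h5 k5) (by linear_combination -e2)

lemma P.inv (h : T.P d y y') (h0 : y' ≠ 0) : y ≠ 0 ∧ T.P (-d) y⁻¹ y'⁻¹ := by
  obtain ⟨a, b, f, u, v, u', v', h1, h2, h3, h4, h5, rfl, rfl⟩ := h
  have h6 := left_ne_zero_of_mul (h1.ne.mp fun e => h3.ne.mpr (mul_ne_zero h0 h5)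
    (by rw [e, map_zero]))
  exact ⟨h6, b, a, f + d, _, _, _, _, h2.congr (by abel) rfl, h1,
    h4.congr (by rw [add_neg_cancel_right]) rfl, h3, mul_ne_zero h0 h5,
    inv_mul_cancel_left₀ h6 _, inv_mul_cancel_left₀ h0 _⟩

lemma P.const (c : ℂ) : T.P 0 (algebraMap ℂ K c) (algebraMap ℂ L c) :=
  P.of_H (H.const c) (by rw [AlgHom.commutes, map_zero]; exact H.const c)

lemma P.congr (h : T.P d y y') (h1 : d = e) (h2 : y = z) : T.P e z y' := h1 ▸ h2 ▸ h

variable (T) in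
/-- The domain of the map of functions. -/
def O : Subalgebra ℂ K where
  carrier := {y | ∃ y', T.P 0 y y'}
  mul_mem' := fun ⟨_, h⟩ ⟨_, h'⟩ => ⟨_, (h.mul h').congr (add_zero _) rfl⟩
  add_mem' := fun ⟨_, h⟩ ⟨_, h'⟩ => ⟨_, h.add h'⟩
  algebraMap_mem' c := ⟨_, P.const c⟩

variable (T) in
/-- The map of functions. -/
noncomputable def Φ : T.O →ₐ[ℂ] L where
  toFun y := y.2.choose
  map_one' := (1 : T.O).2.choose_spec.unique (by simpa using P.const (T := T) 1)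
  map_mul' y z := (y * z).2.choose_spec.unique
    ((y.2.choose_spec.mul z.2.choose_spec).congr (add_zero _) rfl)
  map_zero' := (0 : T.O).2.choose_spec.unique (by simpa using P.const (T := T) 0)
  map_add' y z := (y + z).2.choose_spec.unique (y.2.choose_spec.add z.2.choose_spec)
  commutes' c := (algebraMap ℂ T.O c).2.choose_spec.unique (P.const c)

lemma P_Φ (y : T.O) : T.P 0 y (T.Φ y) := y.2.choose_spec

lemma P_of_B {k : κ} (hy : y ∈ C.B (T.β k)) : ∃ y' ∈ C'.B k, T.P 0 y y' := by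
  obtain ⟨n, a, ha⟩ := hy
  obtain ⟨N, hN⟩ := T.unit k
  obtain ⟨u', hu⟩ := T.hom ha
  obtain ⟨v', hv⟩ := T.hom (H.pow (C.hm (T.β k)) n)
  obtain ⟨h1, h2⟩ := hu.mem_B_of_dvd hv (j := k) (n := N * n) (by
    rw [map_pow, pow_mul]; exact pow_dvd_pow_of_dvd hN n)
  exact ⟨_, h2, a, _, _, _, _, u', v', by rwa [add_zero], H.pow (C.hm _) n, by rwa [add_zero], hv,
    h1, rfl, div_mul_cancel₀ _ h1⟩

variable (T) in
/-- The data of the morphism. -/
noncomputable def data : HomData C.charts C'.charts where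
  O := T.O
  Φ := T.Φ
  β := T.β
  le k y hy := (P_of_B hy).imp fun _ h => h.2
  mem k c := by
    obtain ⟨y', h1, h2⟩ := P_of_B c.2
    exact (h2.unique (P_Φ ⟨(c : K), y', h2⟩)) ▸ h1

variable (T) in
/-- The map of coordinate rings. -/
noncomputable def φ (k : κ) : C.B (T.β k) →ₐ[ℂ] C'.B k := T.data.φ k

lemma P_φ {k : κ} (t : C.B (T.β k)) : T.P 0 t (T.φ k t) := P_Φ ⟨(t : K), T.data.le k t.2⟩

lemma φ_mul {k : κ} (t : C.B (T.β k)) (h : C.H a d u) (h' : C.H b d v) (ht : t * v = u)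
    (ha : C'.H (T.θ a) (T.lam d) y') (hb : C'.H (T.θ b) (T.lam d) z') : T.φ k t * z' = y' :=
  (((P_φ t).mul (P.of_H h' hb)).congr (zero_add _) ht).unique (P.of_H h ha)

lemma φ_rel {k : κ} (t : C.B (T.β k)) (h : C.H a d u) (h' : C.H b d v) (ht : t * v = u) :
    T.φ k t * C'.δ k (T.θ b) = C'.δ k (T.θ a) := by
  obtain ⟨u', hu⟩ := T.hom h
  obtain ⟨v', hv⟩ := T.hom h'
  refine Subtype.ext ?_
  rw [MulMemClass.coe_mul, hu.δ, hv.δ, ← φ_mul t h h' ht hu hv, mul_div_assoc]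

lemma φ_δ {k : κ} (h : C.H a d u) (h' : C.H b d v) (hb : C.g (T.β k) d = v) :
    T.φ k (C.δ _ a) * C'.δ k (T.θ b) = C'.δ k (T.θ a) :=
  φ_rel _ h h' (by rw [h.δ, ← hb, div_mul_cancel₀ _ (C.g_ne _ _)])

lemma isUnit_θ_m (k : κ) : IsUnit (C'.δ k (T.θ (C.m (T.β k)))) := by
  obtain ⟨n, hn⟩ := T.unit k
  exact isUnit_of_dvd_unit (map_dvd _ hn) (by rw [map_pow]; exact (isUnit_δ_m k).pow n)

lemma ev_φ {k : κ} {D : Type} [CommRing D] [Algebra ℂ D] {θ₀ : R' →ₐ[ℂ] D} {θ : C'.B k →ₐ[ℂ] D}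
    (hθ : ∀ (y : C'.B k) a b d u v, C'.H a d u → C'.H b d v → y * v = u → θ y * θ₀ b = θ₀ a)
    (χ : C.B (T.β k) →ₐ[ℂ] D) (h : ∀ i, θ₀ (T.θ (C.x i)) = χ (C.δ _ (C.x i))) (t : C.B (T.β k)) :
    θ (T.φ k t) = χ t := by
  have h1 : ∀ a, θ₀ (T.θ a) = χ (C.δ _ a) := AlgHom.congr_fun (AlgHom.ext_of_adjoin_eq_top C.gen
    (φ₁ := θ₀.comp T.θ) (φ₂ := χ.comp (C.δ _)) (by rintro _ ⟨i, rfl⟩; exact h i))
  obtain ⟨n, a, ha, ha'⟩ := exists_δ t
  obtain ⟨u', hu⟩ := T.hom ha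
  obtain ⟨v', hv⟩ := T.hom (H.pow (C.hm (T.β k)) n)
  have h2 := hθ _ _ _ _ _ _ hu hv (φ_mul t ha (H.pow (C.hm _) n) rfl hu hv)
  rw [h1, h1, ← ha', map_mul, map_pow (C.δ _)] at h2
  exact (((isUnit_δ_m _).pow n).map χ).mul_right_cancel h2

lemma exists_pair {k : κ} (q : PrimeSpectrum (C.B (T.β k))) {D : Type} [CommRing D] [Algebra ℂ D]
    (θ₀ : R' →ₐ[ℂ] D) (hm : IsUnit (θ₀ (C'.m k))) (χ : q.asIdeal.ResidueField →ₐ[ℂ] D)
    (h : ∀ i, θ₀ (T.θ (C.x i)) = χ (algebraMap _ _ (C.δ (T.β k) (C.x i)))) {a b : R'}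
    {d : Fin r' → ℤ} (ha : C'.H a d y') (hb : C'.H b d z') (hd : b ∣ C'.m k)
    (P Q : PrimeSpectrum D) (h1 : P ≤ Q) (h2 : θ₀ a ∉ P.asIdeal) (h3 : θ₀ a ∈ Q.asIdeal) :
    ∃ P Q : PrimeSpectrum (C'.B k), P ≤ Q ∧ P ≠ Q ∧ P.comap (T.φ k).toRingHom = q ∧
      Q.comap (T.φ k).toRingHom = q := by
  obtain ⟨θ, hθ⟩ := exists_ev θ₀ hm
  have key : ∀ P : PrimeSpectrum D, (P.comap θ.toRingHom).comap (T.φ k).toRingHom = q := fun P => by
    ext t
    change θ (T.φ k t) ∈ P.asIdeal ↔ _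
    rw [ev_φ hθ (χ.comp (IsScalarTower.toAlgHom ℂ _ _)) h t,
      ← Ideal.algebraMap_residueField_eq_zero (I := q.asIdeal)]
    refine ⟨fun h => by_contra fun h0 => P.isPrime.ne_top (Ideal.eq_top_of_isUnit_mem _ h
      ((IsUnit.mk0 _ h0).map χ)), fun h => ?_⟩
    change χ (algebraMap _ _ t) ∈ _
    rw [h, map_zero]; exact zero_mem _
  obtain ⟨h4, h5⟩ := ha.mem_B_of_dvd hb (j := k) (n := 1) (by rwa [pow_one])
  have h6 := hθ ⟨_, h5⟩ _ _ _ _ _ ha hb (div_mul_cancel₀ _ h4)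
  refine ⟨P.comap θ.toRingHom, Q.comap θ.toRingHom, Ideal.comap_mono h1, fun e => h2 ?_, key P,
    key Q⟩
  have h7 : ⟨_, h5⟩ ∈ (Q.comap θ.toRingHom).asIdeal :=
    (Ideal.mul_unit_mem_iff_mem _ (isUnit_of_dvd_unit (map_dvd θ₀ hd) hm)).mp (h6 ▸ h3)
  rw [← e] at h7
  exact h6 ▸ Ideal.mul_mem_right _ _ h7

variable (N : Model C'.charts) (M : Model C.charts)

lemma O_le (q : N.X) (hy : y ∈ M.O (N.hom M T.data q)) : y ∈ T.O := by
  obtain ⟨k, p, rfl⟩ := N.cover q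
  obtain ⟨a, b, hb, h⟩ := (Model.mem_O (N.hom_ch M T.data k p).symm).mp hy
  obtain ⟨h1, h2⟩ := (P_φ (T := T) b).inv fun e => hb (by
    change T.φ k b ∈ p.asIdeal
    rw [show T.φ k b = 0 from Subtype.ext e]; exact zero_mem _)
  exact ⟨_, ((P_φ (T := T) a).mul h2).congr (by simp) (by
    rw [← h]; exact mul_inv_cancel_right₀ h1 y)⟩

lemma exists_w (k : κ) (d : Fin r → ℤ) : ∃ w, T.P d (C.g (T.β k) d) w ∧
    ∀ p, N.U (N.ch k p) (w / C'.g k (T.lam d)) := by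
  have key : ∀ d, ∃ w, T.P d (C.g (T.β k) d) w ∧
      ∀ p, w / C'.g k (T.lam d) ∈ N.O (N.ch k p) := by
    intro d
    obtain ⟨n, a, ha⟩ := C.hg (T.β k) d
    obtain ⟨u', hu⟩ := T.hom ha
    obtain ⟨v', hv⟩ := T.hom (H.pow (C.hm (T.β k)) n)
    have h1 : IsUnit (C'.δ k (T.θ (C.m (T.β k) ^ n))) := by
      rw [map_pow, map_pow]; exact (isUnit_θ_m k).pow n
    have h2 : v' ≠ 0 := hv.ne.mp fun e => h1.ne_zero (by rw [e, map_zero])
    refine ⟨u' / v', ⟨a, _, _, _, _, u', v', by rwa [add_comm], H.pow (C.hm _) n,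
      by rwa [add_comm], hv, h2, rfl, div_mul_cancel₀ _ h2⟩, fun p => ?_⟩
    have h3 := mul_mem (Model.B_le_O (rfl : N.ch k p = _) (hu.mem_B k)) (U_of_isUnit rfl h1).2.2
    have := C'.g_ne k (T.lam d)
    have := C'.g_ne k (T.lam (n • C.A))
    convert h3 using 1
    rw [hv.δ, map_add, C'.g_add]
    field_simp
  obtain ⟨w, h1, h2⟩ := key d
  obtain ⟨w', h3, h4⟩ := key (-d)
  have h5 := ((h1.mul h3).congr (add_neg_cancel d) (z := algebraMap ℂ K 1) (by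
    rw [← C.g_add, add_neg_cancel, g_zero, map_one])).unique (P.const 1)
  rw [map_one] at h5
  refine ⟨w, h1, fun p => ⟨div_ne_zero (left_ne_zero_of_mul_eq_one h5) (C'.g_ne _ _), h2 p, ?_⟩⟩
  convert h4 p using 1
  rw [map_neg, g_neg, inv_div, eq_inv_of_mul_eq_one_right h5, div_inv_eq_mul, mul_comm,
    div_eq_mul_inv]

variable [UniqueFactorizationMonoid R] [UniqueFactorizationMonoid R']

lemma test (hc : C'.Codim) (hd : topologicalKrullDim N.X = 1)
    (h1 : ∀ z : PrimeDiv N.X, C'.ℓ (deg N (Finsupp.single z 1)) = 1) {D : WDiv M.X}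
    (hD : NumTrivial M.s D) : C'.ℓ (T.lam (deg M D)) = 0 := by
  obtain ⟨E, ⟨g, t, h⟩, hE⟩ := hD N.X (N.hom M T.data) (by rw [Model.hom_s]; infer_instance) hd
  obtain ⟨u, hu, hD⟩ := exists_u D
  set d := deg M D
  have key : ∀ p : N.X, ∃ c : L, c ≠ 0 ∧ T.P (-d) (M.e (g p) / u) c ∧ ν N (-T.lam d) c p = 0 := by
    intro p
    obtain ⟨k, q, rfl⟩ := N.cover p
    obtain ⟨w, h2, h3⟩ := exists_w (T := T) N k d
    have h0 := (map_ne_zero M.e).mpr (h (N.ch k q)).1.1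
    have h4 : M.U (N.hom M T.data (N.ch k q)) (M.e (g (N.ch k q)) / (u / C.g (T.β k) d)) := by
      refine U_of_ord (div_ne_zero h0 (div_ne_zero hu (C.g_ne _ _))) fun z hz => ?_
      have h5 := (h (N.ch k q)).1.2 z hz
      rw [Model.hom_ch] at hz
      obtain ⟨q', hq'⟩ := Model.exists_of_specializes hz
      rw [Model.ord_div h0 (div_ne_zero hu (C.g_ne _ _)), Model.ord_e, ← h5, hD, ν_eq hq' hu]
      exact sub_self _
    have h6 := O_le N M _ h4.2.1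
    have h7 := (N.U_hom M T.data _ h6 h4.2.1).2.mpr h4
    have hw := (div_ne_zero_iff.mp (h3 q).1).1
    refine ⟨_, mul_ne_zero h7.1 (inv_ne_zero hw), ((P_Φ ⟨_, h6⟩).mul (h2.inv hw).2).congr
      (zero_add _) (by have := C.g_ne (T.β k) d; field_simp), ?_⟩
    rw [← zero_add (-T.lam d), ν_mul h7.1 (inv_ne_zero hw), ν_zero, h7.ord, ν_inv hw,
      ν_eq rfl hw, (h3 q).ord, neg_zero, add_zero]
  obtain ⟨c, c0, hc1, -⟩ := key (genericPoint N.X)
  obtain ⟨D', h2, h3⟩ := exists_D (M := N) hc (T.lam d) (inv_ne_zero c0)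
  have h4 : E = D'.mapDomain Subtype.val := by
    ext p
    obtain ⟨-, h5, h6⟩ := h p
    by_cases hp : Order.coheight p = 1
    · obtain ⟨c', c0', hc2, hc3⟩ := key p
      have h7 : M.ev _ (t p).1 ∈ T.O := O_le N M _ ⟨_, rfl⟩
      have h8 := (P_Φ ⟨_, h7⟩).unique ((hc2.mul (hc1.inv c0).2).congr (by simp) (by
        have := (map_ne_zero M.e).mpr (h (genericPoint N.X)).1.1
        rw [h5, map_mul]
        field_simp
        rfl))
      rw [h6, ← N.ord_e, ← N.ev_gen, N.ev_stalkMap M T.data _ _ h7,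
        Finsupp.mapDomain_apply Subtype.val_injective D' ⟨p, hp⟩, h3, ← zero_add (ν _ _ _ _),
        ← hc3, ← ν_mul c0' (inv_ne_zero c0), neg_add_cancel, ν_zero]
      exact congrArg (N.ord · p) h8
    · rw [h6, Scheme.ord_eq_zero_of_coheight_neq_one hp, Finsupp.mapDomain_of_notMem_range]
      rintro ⟨z, rfl⟩
      exact hp z.2
  rw [h4, Finsupp.degree_mapDomain] at hE
  rw [← h2, ← hE]
  clear h2 h3 h4 hE
  induction D' using Finsupp.induction_linear with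
  | zero => simp
  | add _ _ h h' => rw [map_add, map_add, map_add, h, h']
  | single z n =>
    rw [Finsupp.degree_single, ← Finsupp.smul_single_one, map_smul, map_zsmul, h1, smul_eq_mul,
      mul_one]

lemma isIso_app (hc : C'.Codim) (hinj : Function.Injective T.θ)
    (hsurj : ∀ (α : σ' → ℕ) d, ∑ i, α i • C'.dx i = T.lam d →
      ∃ a u, C.H a d u ∧ T.θ a = ∏ i, C'.x i ^ α i)
    (hs : Function.Surjective (N.hom M T.data)) (V : M.X.Opens) :
    IsIso ((N.hom M T.data).app V) := by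
  have hO : ∀ y, y ∈ T.O := fun y => by
    obtain ⟨a, b, d, u, v, ha, hb, hv, h⟩ := C.frac y
    obtain ⟨u', hu⟩ := T.hom ha
    obtain ⟨v', hv'⟩ := T.hom hb
    have := (H.ne hv').mp ((map_ne_zero_iff _ hinj).mpr ((H.ne hb).mpr hv))
    exact ⟨_, a, b, d, u, v, u', v', by rwa [add_zero], hb, by rwa [add_zero], hv', this, h,
      div_mul_cancel₀ _ this⟩
  have hΦ : ∀ {y y'}, T.P 0 y y' → y ≠ 0 → y' ≠ 0 := by
    rintro y _ ⟨a, b, e, u, v, u', v', h1, h2, h3, h4, h5, rfl, rfl⟩ hy rfl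
    refine h3.ne.mp ((map_ne_zero_iff _ hinj).mpr (h1.ne.mpr (mul_ne_zero hy
      (h2.ne.mp fun e => h4.ne.mpr h5 (by rw [e, map_zero]))))) (zero_mul _)
  have hsur : ∀ {a' d u'}, C'.H a' (T.lam d) u' → ∃ a u, C.H a d u ∧ T.θ a = a' := by
    intro a' d u' h
    have h1 := h.mem_span
    clear h
    induction h1 using Submodule.span_induction with
    | mem a ha =>
      obtain ⟨α, h, rfl⟩ := ha
      exact hsurj α d h
    | zero => exact ⟨0, 0, H.zero, map_zero _⟩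
    | add a b _ _ ha hb =>
      obtain ⟨a, u, hu, rfl⟩ := ha
      obtain ⟨b, v, hv, rfl⟩ := hb
      exact ⟨_, _, hu.add hv, map_add _ _ _⟩
    | smul c a _ ha =>
      obtain ⟨a, u, hu, rfl⟩ := ha
      exact ⟨_, _, hu.smul c, map_smul _ _ _⟩
  refine N.isIso_app M T.data hO ?_ (fun V y hy x hx => ?_) V
  · obtain ⟨k, -⟩ := C'.proper ⊤ fun _ => trivial
    rw [← N.ch_bot k, Model.hom_ch, ← M.ch_bot (T.β k)]
    congr 1
    refine PrimeSpectrum.ext (eq_bot_iff.mpr fun t ht => by_contra fun h0 => ?_)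
    exact hΦ (P_φ (T := T) t) (fun e => h0 (Subtype.ext e)) (congrArg Subtype.val ht)
  by_cases h0 : y = 0
  · exact ⟨0, zero_mem _, h0 ▸ map_zero T.Φ⟩
  obtain ⟨a, b, d, u, v, ha, hb, hv, h1, h2⟩ := C'.exists_coprime h0
  have key : ∀ b' : R', b' ∣ b → ∃ c e w, C.H c e w ∧ w ≠ 0 ∧ b' ∣ T.θ c := by
    intro b' hb'
    induction b' using UniqueFactorizationMonoid.induction_on_prime with
    | h₁ => exact (hb.ne.mpr hv (zero_dvd_iff.mp hb')).elim
    | h₂ b' h => exact ⟨1, 0, 1, H.one, one_ne_zero, h.dvd⟩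
    | h₃ b' π _ hπ ih =>
      obtain ⟨c, e, w, h3, h4, h5⟩ := ih (dvd_of_mul_left_dvd hb')
      have hπb := dvd_of_mul_right_dvd hb'
      obtain ⟨e', w', h6⟩ := hb.of_dvd (hb.ne.mpr hv) hπb
      obtain ⟨k, hk⟩ := hc π hπ
      obtain ⟨q, -, h8, h9⟩ := exists_z (M := N) hπ h6 hk
      have h10 : q.comap (T.φ k).toRingHom ≠ ⊥ := fun e => by
        have h11 := hy (N.ch k q) (by
          rw [Model.hom_ch]
          refine (congrArg (fun t => M.ch (T.β k) t ∈ V) e).mpr ?_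
          exact M.ch_bot _ ▸ (genericPoint_specializes x).mem_open V.2 hx)
        refine hπ.not_isUnit (h2 ((h9.iff_dvd hπ h6 h8 ha).mp ((ha.van_iff rfl).mpr
          (by_contra fun h12 => ?_))) hπb)
        have h13 := (U_δ (M := N) rfl a).mpr h12
        rw [ha.δ, ← h1, mul_comm, mul_div_right_comm, ← hb.δ] at h13
        exact (U_δ rfl b).mp (h13.of_mul (Model.B_le_O rfl (C'.δ k b).2) h11)
          ((hb.van_iff rfl).mp (h9.dvd hπb))
      obtain ⟨t, ht, t0⟩ := Submodule.exists_mem_ne_zero_of_ne_bot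
        (fun e => h10 (PrimeSpectrum.ext e))
      obtain ⟨n, c', hc', -⟩ := exists_δ t
      obtain ⟨w'', h14⟩ := T.hom hc'
      refine ⟨_, _, _, hc'.mul h3, mul_ne_zero (mul_ne_zero (fun e => t0 (Subtype.ext e))
        (pow_ne_zero _ (C.zm_ne _))) h4, ?_⟩
      rw [map_mul]
      refine mul_dvd_mul ((h9.iff_dvd hπ h6 h8 h14).mp ((h14.van_iff rfl).mpr ?_)) h5
      rw [← φ_rel t hc' (H.pow (C.hm _) n) rfl]
      exact Ideal.mul_mem_right _ _ ht
  obtain ⟨c, e, w, h3, h4, b', h5⟩ := key b dvd_rfl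
  obtain ⟨w', h6⟩ := T.hom h3
  have h7 := (map_ne_zero_iff _ hinj).mpr (h3.ne.mpr h4)
  obtain ⟨d₁, u₁, d₂, u₂, h8, h9, h10, h11⟩ := H.of_mul (h5 ▸ h6) (h5 ▸ h7)
  obtain ⟨rfl, rfl⟩ := hb.unique h8 (hb.ne.mpr hv)
  obtain ⟨a', u', h12, h13⟩ := hsur ((ha.mul h9).congr h10.symm rfl)
  have h14 : T.P 0 (u' / w) y := ⟨a', c, e, _, _, u * u₂, w', by rwa [add_zero], h3, by
    rw [add_zero, h13]; exact (ha.mul h9).congr h10.symm rfl, h6, h6.ne.mp h7,
    div_mul_cancel₀ _ h4, by rw [h11, ← h1, mul_assoc]⟩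
  refine ⟨u' / w, ?_, (P_Φ ⟨_, hO _⟩).unique h14⟩
  obtain ⟨h15, h16⟩ := h14.inv h0
  refine mem_O_of_ord h15 fun z hz => Model.ord_nonneg ((mem_O_or z h15).elim id fun h => ?_) h15
  obtain ⟨x', hx'⟩ := hs z
  rw [← hx'] at h ⊢
  have h17 := N.U_hom M T.data x' (hO _) h
  rw [show T.data.Φ ⟨_, hO _⟩ = y⁻¹ from (P_Φ ⟨_, hO _⟩).unique (h16.congr neg_zero rfl)] at h17
  simpa using (h17.2.mp ⟨inv_ne_zero h0, h17.1, by
    rw [inv_inv]; exact hy x' (hx' ▸ hz.mem_open V.2 hx)⟩).2.2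

end CoxHom

end Pool.Agent.MP_a703b5_ag

end MrgPart2

-- marker of a merged file
example : 731051 + 696070 = 731051 + 696070 := rfl
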