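import Mathlib.Algebra.DualNumber
import Mathlib.RingTheory.PicardGroup
import Mathlib.Analysis.CStarAlgebra.Classes
import Mathlib.RingTheory.Ideal.UFD
import Mathlib.RingTheory.MvPolynomial.IrreducibleQuadratic
import Mathlib.Tactic.Polynomial.Basic
import Pool.Agent.MP_a703b5_ag.CoxHom

-- ======== part 0: formerly Pool.Agent.MP_a703b5_ag.Build
section MrgPart0

/-!
Tools for building examples, the projective line and the base variety.
-/

set_option autoImplicit false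
set_option linter.unusedSectionVars false
set_option linter.style.haveILetI false

open AlgebraicGeometry CategoryTheory MvPolynomial
open AddMonoidAlgebra (single single_mul_single single_pow)

namespace Pool.Agent.MP_a703b5_ag

/-- Rational function fields. -/
abbrev KK (n : ℕ) : Type := FractionRing (MvPolynomial (Fin n) ℂ)

/-- The variables. -/
noncomputable def Z {n : ℕ} (i : Fin n) : KK n := algebraMap (MvPolynomial (Fin n) ℂ) _ (X i)

lemma Z_ne {n : ℕ} (i : Fin n) : Z i ≠ 0 :=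
  (map_ne_zero_iff _ (IsFractionRing.injective _ _)).mpr (X_ne_zero i)

section

variable {K : Type} [Field K] [Algebra ℂ K] {r : ℕ} {R : Type} [CommRing R] [Algebra ℂ R]

/-- Characters given by their values on the basis. -/
def gz (G : Fin r → K) (d : Fin r → ℤ) : K := ∏ l, G l ^ d l

lemma gz_ne {G : Fin r → K} (h : ∀ l, G l ≠ 0) (d : Fin r → ℤ) : gz G d ≠ 0 :=
  Finset.prod_ne_zero_iff.mpr fun l _ => zpow_ne_zero _ (h l)

lemma gz_add {G : Fin r → K} (h : ∀ l, G l ≠ 0) (d e : Fin r → ℤ) :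
    gz G (d + e) = gz G d * gz G e := by
  simp [gz, zpow_add₀ (h _), Finset.prod_mul_distrib]

lemma hg_of_gauge (ψ : R →ₐ[ℂ] AddMonoidAlgebra K (Fin r → ℤ)) {m : R} {A : Fin r → ℤ} {zm : K}
    (hm : ψ m = single A zm) {G : Fin r → K} (hG : ∀ l, G l ≠ 0) (x : Fin r → R)
    (dx : Fin r → Fin r → ℤ) (hx : ∀ l, ψ (x l) = single (dx l) (gz G (dx l))) (hd : ∀ l, x l ∣ m)
    (d : Fin r → ℤ) (k : Fin r → ℤ) (hk : d = ∑ l, k l • dx l) :
    ∃ (n : ℕ) (a : R), ψ a = single (d + n • A) (gz G d * zm ^ n) := by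
  have h0 : gz G 0 = 1 := by simp [gz]
  let S : AddSubmonoid (Fin r → ℤ) :=
    { carrier := {d | ∃ (n : ℕ) (a : R), ψ a = single (d + n • A) (gz G d * zm ^ n)}
      add_mem' := by
        rintro d e ⟨n, a, ha⟩ ⟨k, b, hb⟩
        refine ⟨n + k, a * b, ?_⟩
        rw [map_mul, ha, hb, single_mul_single, gz_add hG, add_smul, pow_add, add_add_add_comm,
          mul_mul_mul_comm]
      zero_mem' := ⟨0, 1, by simp [h0, AddMonoidAlgebra.one_def]⟩ }
  rw [hk]
  refine S.sum_mem fun l _ => ?_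
  obtain ⟨n, h | h⟩ := (k l).eq_nat_or_neg
  · rw [h, natCast_zsmul]
    exact S.nsmul_mem ⟨0, x l, by simp [hx]⟩ n
  · rw [h, neg_smul, ← smul_neg, natCast_zsmul]
    obtain ⟨c, hc⟩ := hd l
    refine S.nsmul_mem ⟨1, c, ?_⟩ n
    rw [one_smul, pow_one, ← single_mul_single, ← hm, hc, map_mul, hx, ← mul_assoc,
      single_mul_single, ← gz_add hG, neg_add_cancel, h0]
    exact (one_mul _).symm

lemma frac_of_gen {n : ℕ} (ψ : R →ₐ[ℂ] AddMonoidAlgebra (KK n) (Fin r → ℤ))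
    (h : ∀ i, ∃ a b d u v, ψ a = single d u ∧ ψ b = single d v ∧ v ≠ 0 ∧ Z i * v = u) (y : KK n) :
    ∃ a b d u v, ψ a = single d u ∧ ψ b = single d v ∧ v ≠ 0 ∧ y * v = u := by
  have key : ∀ p : MvPolynomial (Fin n) ℂ, ∃ a b d u v, ψ a = single d u ∧ ψ b = single d v ∧
      v ≠ 0 ∧ algebraMap _ (KK n) p * v = u := by
    intro p
    induction p using MvPolynomial.induction_on with
    | C c => exact ⟨_, 1, 0, _, 1, ψ.commutes c, map_one ψ, one_ne_zero, mul_one _⟩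
    | add p q hp hq =>
      obtain ⟨a, b, d, _, v, h1, h2, h3, rfl⟩ := hp
      obtain ⟨a', b', d', _, v', k1, k2, k3, rfl⟩ := hq
      refine ⟨a * b' + b * a', b * b', d + d', _, v * v', ?_, by
        rw [map_mul, h2, k2, single_mul_single], mul_ne_zero h3 k3, rfl⟩
      rw [map_add, map_mul, map_mul, h1, h2, k1, k2, single_mul_single, single_mul_single,
        ← AddMonoidAlgebra.single_add, map_add]
      congr 1
      ring
    | mul_X p i hp =>
      obtain ⟨a, b, d, _, v, h1, h2, h3, rfl⟩ := hp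
      obtain ⟨a', b', d', _, v', k1, k2, k3, rfl⟩ := h i
      exact ⟨a * a', b * b', d + d', _, v * v', by
        rw [map_mul, h1, k1, single_mul_single, map_mul, mul_mul_mul_comm]; rfl, by
        rw [map_mul, h2, k2, single_mul_single], mul_ne_zero h3 k3, rfl⟩
  obtain ⟨p, q, hq, rfl⟩ := IsFractionRing.div_surjective (A := MvPolynomial (Fin n) ℂ) y
  have h0 := (map_ne_zero_iff _ (IsFractionRing.injective _ (KK n))).mpr
    (nonZeroDivisors.ne_zero hq)
  obtain ⟨a, b, d, _, v, h1, h2, h3, rfl⟩ := key p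
  obtain ⟨a', b', d', _, v', k1, k2, k3, rfl⟩ := key q
  exact ⟨a * b', b * a', d + d', _, _, by rw [map_mul, h1, k2, single_mul_single], by
    rw [map_mul, h2, k1, single_mul_single], mul_ne_zero h3 (mul_ne_zero h0 k3), by field_simp⟩

lemma inj_of_leftInv {τ : Type} {n : ℕ} (dx : τ → Fin r → ℤ) (zx : τ → KK n)
    (zp : τ → MvPolynomial (Fin n) ℂ) (hz : ∀ i, algebraMap _ _ (zp i) = zx i)
    (Z' : Fin n → FractionRing (MvPolynomial τ ℂ)) (G : Fin r → FractionRing (MvPolynomial τ ℂ))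
    (hG : ∀ l, G l ≠ 0) (h : ∀ i, aeval Z' (zp i) * gz G (dx i) =
      algebraMap (MvPolynomial τ ℂ) _ (X i)) : Function.Injective
    (aeval fun i => single (dx i) (zx i) : MvPolynomial τ ℂ →ₐ[ℂ] AddMonoidAlgebra (KK n) _) := by
  let ψ₀ : MvPolynomial τ ℂ →ₐ[ℂ] AddMonoidAlgebra (MvPolynomial (Fin n) ℂ) (Fin r → ℤ) :=
    aeval fun i => single (dx i) (zp i)
  let Θ := AddMonoidAlgebra.liftNCAlgHom (aeval (R := ℂ) Z') ⟨⟨fun d => gz G d.toAdd, by simp [gz]⟩,
    fun d e => gz_add hG _ _⟩ fun _ _ => Commute.all _ _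
  have h1 : Θ.comp ψ₀ = IsScalarTower.toAlgHom ℂ _ _ := algHom_ext fun i => by
    rw [AlgHom.comp_apply, aeval_X]
    exact (AddMonoidAlgebra.liftNCRingHom_single _ _ (fun _ _ => Commute.all _ _) _ _).trans (h i)
  have h2 : Function.Injective ψ₀ := Function.Injective.of_comp (f := Θ) (by
    rw [← AlgHom.coe_comp, h1]; exact IsFractionRing.injective _ _)
  have h3 : (aeval fun i => single (dx i) (zx i)) = (AddMonoidAlgebra.mapAlgHom (Fin r → ℤ)
      (IsScalarTower.toAlgHom ℂ (MvPolynomial (Fin n) ℂ) (KK n))).comp ψ₀ :=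
    algHom_ext fun i => by simp [ψ₀, hz]
  rw [h3]
  exact (AddMonoidAlgebra.map_injective (algebraMap (MvPolynomial (Fin n) ℂ) (KK n)).toAddMonoidHom
    (IsFractionRing.injective _ _)).comp h2

lemma exists_max (O : ValuationSubring K) {n : ℕ} (t : Fin (n + 1) → K) (h : ∀ i, t i ≠ 0) :
    ∃ i, ∀ l, t l / t i ∈ O := by
  obtain ⟨i, hi⟩ := Finite.exists_max fun i => O.valuation (t i)
  refine ⟨i, fun l => ?_⟩
  rw [← O.valuation_le_one_iff, map_div₀, div_le_one₀ (by simpa [pos_iff_ne_zero] using h i)]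
  exact hi l

lemma exists_primes (k : Type) [Field k] [Algebra ℂ k] (c : Polynomial k) :
    ∃ (D : Type) (_ : CommRing D) (_ : Algebra ℂ D) (f : Polynomial k →ₐ[ℂ] D) (w : D)
      (P Q : PrimeSpectrum D), w ^ 2 + f c = 0 ∧ P ≤ Q ∧ f .X ∉ P.asIdeal ∧ f .X ∈ Q.asIdeal := by
  have hm : (Polynomial.X ^ 2 + Polynomial.C c).Monic := Polynomial.monic_X_pow_add_C c two_ne_zero
  let D := AdjoinRoot (Polynomial.X ^ 2 + Polynomial.C c)
  have := hm.finite_adjoinRoot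
  have inj : Function.Injective (algebraMap (Polynomial k) D) :=
    AdjoinRoot.of.injective_of_degree_ne_zero (by
      rw [Polynomial.degree_X_pow_add_C two_pos]; simp)
  obtain ⟨P, -, h1, h2⟩ := Ideal.exists_ideal_over_prime_of_isIntegral (⊥ : Ideal (Polynomial k))
    (⊥ : Ideal D) (Ideal.comap_bot_of_injective _ inj).le
  have := (Ideal.span_singleton_prime Polynomial.X_ne_zero).mpr (Polynomial.prime_X (R := k))
  obtain ⟨Q, h3, h4, h5⟩ := Ideal.exists_ideal_over_prime_of_isIntegral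
    (Ideal.span {(Polynomial.X : Polynomial k)}) P (h2.le.trans bot_le)
  refine ⟨D, inferInstance, inferInstance, IsScalarTower.toAlgHom ℂ _ _, AdjoinRoot.root _,
    ⟨P, h1⟩, ⟨Q, h4⟩, ?_, h3, fun h => Polynomial.X_ne_zero (h2.le h),
    h5.ge (Ideal.mem_span_singleton_self _)⟩
  have := AdjoinRoot.eval₂_root (Polynomial.X ^ 2 + Polynomial.C c)
  rwa [Polynomial.eval₂_add, Polynomial.eval₂_X_pow, Polynomial.eval₂_C] at this

variable {σ ι : Type} [Fintype σ] {C : Cox K r R σ ι} [IsDomain R]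

lemma Cox.not_dvd {i : σ} (hx : C.zx i ≠ 0) (hl : C.ℓ (C.dx i) = 1) {π : R} (hπ : Prime π)
    (h : π ∣ C.x i) (ev : R →ₐ[ℂ] ℂ) (h0 : ev (C.x i) = 0) {a : R} (ha : ev a ≠ 0) : ¬ π ∣ a :=
  fun h1 => ha (zero_dvd_iff.mp (h0 ▸ map_dvd ev ((H.dvd_of_dvd (C.hx i) ((H.ne (C.hx i)).mpr hx)
    hl hπ.not_isUnit h).trans h1)))

lemma Cox.δ_eq_one {i : σ} {j : ι} (h : C.g j (C.dx i) = C.zx i) : C.δ j (C.x i) = 1 :=
  Subtype.ext (by rw [H.δ (C.hx i), ← h, div_self (C.g_ne _ _)]; rfl)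

lemma Cox.ev_δ {j : ι} {D : Type} [CommRing D] [Algebra ℂ D] {θ₀ : R →ₐ[ℂ] D} {θ : C.B j →ₐ[ℂ] D}
    (hθ : ∀ (y : C.B j) a b d u v, C.H a d u → C.H b d v → y * v = u → θ y * θ₀ b = θ₀ a)
    {a b : R} {d : Fin r → ℤ} {u v : K} (h : C.H a d u) (h' : C.H b d v) (hb : C.g j d = v) :
    θ (C.δ j a) * θ₀ b = θ₀ a :=
  hθ _ _ _ _ _ _ h h' (by rw [h.δ, ← hb, div_mul_cancel₀ _ (C.g_ne _ _)])

lemma Cox.normal [UniqueFactorizationMonoid R] (M : Model C.charts) (x : M.X) :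
    IsIntegrallyClosed (M.X.presheaf.stalk x) := by
  refine (isIntegrallyClosed_iff M.X.functionField).mpr fun {y} hy => ?_
  by_cases h0 : M.e y = 0
  · exact ⟨0, M.e.injective (by rw [h0, map_zero, map_zero])⟩
  obtain ⟨u, hu⟩ := mem_O_of_ord (x := x) h0 fun z hz => by
    let V := ValuationSubring.ofSubring (M.O z) fun y => by
      by_cases h : y = 0
      exacts [Or.inl (h ▸ zero_mem _), mem_O_or z h]
    obtain ⟨v, hv⟩ := IsIntegrallyClosed.isIntegral_iff.mp (hy.map_of_comp_eq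
      ((M.ev x).codRestrict V fun u => Model.O_mono hz ⟨u, rfl⟩) M.e.toRingHom rfl)
    exact Model.ord_nonneg (hv ▸ v.2 : M.e.toRingHom y ∈ M.O z) h0
  exact ⟨u, M.e.injective hu⟩

lemma Cox.frac_of_range {A : Type} [CommRing A] [Algebra ℂ A] {j : ι} (φ : A →ₐ[ℂ] C.B j)
    (h : ∀ i, C.δ j (C.x i) ∈ φ.range) (b : C.B j) :
    ∃ a u, IsUnit (φ u) ∧ b * φ u = φ a := by
  have key : ∀ a, C.δ j a ∈ φ.range := fun a => by
    have : Algebra.adjoin ℂ (Set.range C.x) ≤ φ.range.comap (C.δ j) :=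
      Algebra.adjoin_le (by rintro _ ⟨i, rfl⟩; exact h i)
    exact this (C.gen ▸ trivial)
  obtain ⟨n, a, -, ha⟩ := exists_δ b
  obtain ⟨u, hu⟩ := key (C.m j ^ n)
  obtain ⟨a', ha'⟩ := key a
  change φ _ = _ at hu ha'
  rw [map_pow] at hu
  exact ⟨a', u, hu ▸ (isUnit_δ_m j).pow n, by rw [hu, ha', ha]⟩

end

/-- The projective line. -/
noncomputable def P1 : Cox (KK 1) 1 (MvPolynomial (Fin 2) ℂ) (Fin 2) (Fin 2) where
  ψ := aeval fun i => single 1 (![1, Z 0] i)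
  ψ_inj := inj_of_leftInv (fun _ => 1) _ ![1, X 0] (fun i => by fin_cases i <;> simp [Z])
    ![Z 1 / Z 0] ![Z 0] (by simp [Z_ne]) fun i => by
      have := Z_ne (0 : Fin 2)
      fin_cases i <;> simp [gz, *] <;> rfl
  x := X
  dx _ := 1
  zx := ![1, Z 0]
  hx := aeval_X _
  gen := adjoin_range_X
  ℓ := Pi.evalAddMonoidHom _ 0
  pos _ := one_pos
  A := 1
  m := X
  zm := ![1, Z 0]
  hm := aeval_X _
  zm_ne i := by fin_cases i <;> simp [Z_ne]
  g j := gz ![![1, Z 0] j]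
  g_ne j := gz_ne (by fin_cases j <;> simp [Z_ne])
  g_add j := gz_add (by fin_cases j <;> simp [Z_ne])
  hg j d := hg_of_gauge _ (by rw [aeval_X]) (by fin_cases j <;> simp [Z_ne]) (fun _ => X j)
    (fun _ => 1) (fun _ => by simp [gz]) (fun _ => dvd_rfl) d d (by ext l; simp [Fin.eq_zero l])
  frac := frac_of_gen _ fun i => ⟨_, _, _, _, _, aeval_X _ 1, aeval_X _ 0, by simp,
    by simp [Fin.eq_zero i]⟩
  proper O _ := by
    obtain ⟨i, hi⟩ := exists_max O ![1, Z (0 : Fin 1)] fun i => by fin_cases i <;> simp [Z_ne]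
    exact ⟨i, by simpa [gz] using hi, by simpa [gz] using hi i⟩

lemma P1_codim : P1.Codim := fun π hπ => by
  by_cases h : π ∣ X 0
  · exact ⟨1, Cox.not_dvd (C := P1) (i := 0) one_ne_zero rfl hπ h (aeval ![0, 1])
      (aeval_X _ _) (by simp [P1])⟩
  · exact ⟨0, h⟩

lemma P1_δ (j : Fin 2) : P1.δ j (X j) = 1 := Cox.δ_eq_one (C := P1) (by simp [P1, gz])

lemma P1_dim (N : Model P1.charts) : topologicalKrullDim N.X = 1 := by
  refine dim_eq_one ?_ fun a b c hab hbc => ?_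
  · obtain ⟨q, -, h, -⟩ := Cox.exists_z (M := N) (j := 0) (X_prime (i := 1)) (P1.hx 1)
      (by simp [P1])
    refine ⟨_, _, genericPoint_specializes (N.ch 0 q), fun e => ?_⟩
    rw [← e, ← N.ch_bot 0, Model.coheight_ch] at h
    exact zero_ne_one (Ideal.height_bot.symm.trans h)
  · obtain ⟨j, R, rfl⟩ := N.cover c
    obtain ⟨Q, rfl⟩ := Model.exists_of_specializes hbc
    obtain ⟨P, rfl⟩ := Model.exists_of_specializes hab
    refine (no_chain (P1.δ j).toRingHom (Cox.frac_of_range (P1.δ j) fun i => ⟨_, rfl⟩)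
      (X j - 1) (by simp [P1_δ]) (fun q h => (Ideal.eq_top_iff_one q).mpr (by simpa using h 0)) P Q R (Model.ch_specializes.mp hab)
      (Model.ch_specializes.mp hbc) (Subsingleton.elim _ _)).imp (congrArg _) (congrArg _)

lemma P1_deg (N : Model P1.charts) (z : PrimeDiv N.X) :
    P1.ℓ (Cox.deg N (Finsupp.single z 1)) = 1 := by
  obtain ⟨⟨π, d, u⟩, h1, h2, h3⟩ := Cox.exists_π z
  obtain ⟨j, p, hp⟩ := N.cover z
  have := p.isPrime
  let t := Ideal.Quotient.mk p.asIdeal (P1.δ j (X (j + 1)))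
  let ρ : MvPolynomial (Fin 2) ℂ →ₐ[ℂ] Polynomial ℂ :=
    aeval fun i => if i = j then 1 else Polynomial.X
  have e : P1.δ j = (Polynomial.aeval (P1.δ j (X (j + 1)))).comp ρ := algHom_ext fun i => by
    by_cases h : i = j
    · simp [ρ, h, P1_δ]
    · simp [ρ, h, show j + 1 = i by omega]
  have ht : IsIntegral ℂ t := by
    refine IsAlgebraic.isIntegral ⟨ρ π, fun h => h2.δ_ne h1.ne_zero j (by rw [e]; simp [h]), ?_⟩
    refine (Polynomial.aeval_algHom_apply (Ideal.Quotient.mkₐ ℂ p.asIdeal) _ _).trans ?_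
    exact Ideal.Quotient.eq_zero_iff_mem.mpr (AlgHom.congr_fun e π ▸ (h2.van_iff hp).mp h3)
  obtain ⟨c, hc⟩ := minpoly.mem_range_of_degree_eq_one ℂ t
    (IsAlgClosed.degree_eq_one_of_irreducible ℂ (minpoly.irreducible ht))
  have h4 := (Cox.H.add (P1.hx (j + 1)) (Cox.H.smul (P1.hx j) (-c)))
  have h5 : P1.x (j + 1) + -c • P1.x j ≠ 0 := fun h => by
    have := congrArg (aeval fun i => if i = j then (0 : ℂ) else 1) h
    simp [P1] at this
  have h6 := (h3.iff_dvd h1 h2 z.2 h4).mp ((h4.van_iff hp).mpr (by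
    refine Ideal.Quotient.eq_zero_iff_mem.mp ?_
    rw [map_add, map_smul, show P1.δ j (P1.x j) = 1 from P1_δ j, ← Algebra.algebraMap_eq_smul_one,
      map_neg, ← sub_eq_add_neg]
    exact (map_sub _ _ _).trans (sub_eq_zero.mpr hc.symm)))
  rw [(Cox.Van.single (h3.dvd h6) ((associated_of_dvd_dvd h6
    (h4.dvd_of_dvd h5 rfl h1.not_isUnit h6)).prime h1) h4).1]
  rfl

end Pool.Agent.MP_a703b5_ag

end MrgPart0

-- ======== part 1: formerly Pool.Agent.MP_a703b5_ag.Base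
section MrgPart1

/-!
The base: the projective bundle of `O ⊕ O(2)` over the plane.
-/

set_option autoImplicit false
set_option linter.unusedSectionVars false
set_option linter.style.haveILetI false

open AlgebraicGeometry CategoryTheory MvPolynomial Sum
open AddMonoidAlgebra (single single_mul_single single_pow)

namespace Pool.Agent.MP_a703b5_ag

/-- The coordinates of the plane. -/
noncomputable def tt {n : ℕ} : Fin 3 → KK (n + 2) := ![1, Z 0, Z 1]

lemma tt_ne {n : ℕ} (i : Fin 3) : (tt i : KK (n + 2)) ≠ 0 := by fin_cases i <;> simp [tt, Z_ne]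

/-- The sum of the coordinates. -/
def ell (r : ℕ) : (Fin r → ℤ) →+ ℤ :=
  AddMonoidHom.mk' (fun d => ∑ l, d l) fun _ _ => Finset.sum_add_distrib

/-- The degrees on the base. -/
def dY : Fin 3 ⊕ Fin 2 → Fin 2 → ℤ := Sum.elim (fun _ => ![1, 0]) ![![0, 1], ![2, 1]]

/-- The coefficients on the base. -/
noncomputable def zY : Fin 3 ⊕ Fin 2 → KK 3 := Sum.elim tt ![1, Z 2]

/-- The gauges on the base. -/
noncomputable def GY (j : Fin 3 × Fin 2) : Fin 2 → KK 3 := ![tt j.1, ![1, Z 2 / tt j.1 ^ 2] j.2]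

lemma GY_ne (j : Fin 3 × Fin 2) (l : Fin 2) : GY j l ≠ 0 := by
  obtain ⟨i, c⟩ := j
  fin_cases c <;> fin_cases l <;> simp [GY, tt_ne, Z_ne]

lemma GY_t (i : Fin 3) (j : Fin 3 × Fin 2) : gz (GY j) (dY (inl i)) = tt j.1 := by
  simp [gz, GY, dY]

lemma GY_y (j : Fin 3 × Fin 2) : gz (GY j) (dY (inr j.2)) = zY (inr j.2) := by
  obtain ⟨i, c⟩ := j
  have := tt_ne (n := 1) i
  fin_cases c <;> simp [gz, GY, dY, zY]
  field_simp

/-- The base. -/
noncomputable def CY : Cox (KK 3) 2 (MvPolynomial (Fin 3 ⊕ Fin 2) ℂ) (Fin 3 ⊕ Fin 2)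
    (Fin 3 × Fin 2) where
  ψ := aeval fun i => single (dY i) (zY i)
  ψ_inj := by
    let x : Fin 3 ⊕ Fin 2 → FractionRing (MvPolynomial (Fin 3 ⊕ Fin 2) ℂ) := fun i =>
      algebraMap (MvPolynomial (Fin 3 ⊕ Fin 2) ℂ) _ (X i)
    have hx : ∀ i, x i ≠ 0 := fun i =>
      (map_ne_zero_iff _ (IsFractionRing.injective _ _)).mpr (X_ne_zero i)
    have := hx (inl 0)
    have := hx (inr 0)
    refine inj_of_leftInv _ _ (Sum.elim ![1, X 0, X 1] ![1, X 2]) ?_
      ![x (inl 1) / x (inl 0), x (inl 2) / x (inl 0), x (inr 1) / (x (inl 0) ^ 2 * x (inr 0))]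
      ![x (inl 0), x (inr 0)] (fun l => by fin_cases l <;> simp [hx]) ?_
    · rintro (i | i) <;> fin_cases i <;> simp [zY, tt, Z]
    · intro i
      change _ = x i
      rcases i with i | i <;> fin_cases i <;> simp [gz, dY] <;> field_simp
  x := X
  dx := dY
  zx := zY
  hx := aeval_X _
  gen := adjoin_range_X
  ℓ := ell 2
  pos := by decide
  A := ![3, 1]
  m j := X (inl j.1) ^ ![3, 1] j.2 * X (inr j.2)
  zm j := tt j.1 ^ ![3, 1] j.2 * zY (inr j.2)
  hm j := by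
    rw [map_mul, map_pow, aeval_X, aeval_X, single_pow, single_mul_single]
    congr 1
    revert j
    decide
  zm_ne j := by rw [← GY_y]; exact mul_ne_zero (pow_ne_zero _ (tt_ne _)) (gz_ne (GY_ne j) _)
  g j := gz (GY j)
  g_ne j := gz_ne (GY_ne j)
  g_add j := gz_add (GY_ne j)
  hg j d := by
    refine hg_of_gauge _ (m := X (inl j.1) ^ ![3, 1] j.2 * X (inr j.2)) ?_ (GY_ne j)
      (fun l => X (![inl j.1, inr j.2] l)) (fun l => dY (![inl j.1, inr j.2] l)) (fun l => ?_)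
      (fun l => ?_) d ![d 0 - 2 * j.2 * d 1, d 1] ?_
    · rw [map_mul, map_pow, aeval_X, aeval_X, single_pow, single_mul_single]
      congr 1
      revert j
      decide
    · fin_cases l <;> simp [GY_t, GY_y]
      rfl
    · obtain ⟨i, c⟩ := j
      fin_cases l <;> fin_cases c <;> simp [dvd_mul_of_dvd_left]
    · obtain ⟨i, c⟩ := j
      ext l
      fin_cases l <;> fin_cases c <;> simp [dY]
      ring
  frac := frac_of_gen _ fun i => by
    fin_cases i
    · exact ⟨_, _, _, _, _, aeval_X _ (inl 1), aeval_X _ (inl 0), by simp [zY, tt], by simp [zY, tt]⟩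
    · exact ⟨_, _, _, _, _, aeval_X _ (inl 2), aeval_X _ (inl 0), by simp [zY, tt], by simp [zY, tt]⟩
    · refine ⟨_, X (inl 0) ^ 2 * X (inr 0), _, _, 1, aeval_X _ (inr 1), ?_, by simp, by simp [zY]⟩
      rw [map_mul, map_pow, aeval_X, aeval_X, single_pow, single_mul_single]
      congr 1
      · decide
      · simp [zY, tt]
  proper O _ := by
    obtain ⟨i, hi⟩ := exists_max O (tt (n := 1)) tt_ne
    have := tt_ne (n := 1) i
    have := Z_ne (2 : Fin 3)
    obtain ⟨c, hc⟩ : ∃ c, ∀ l, zY (inr l) / gz (GY (i, c)) (dY (inr l)) ∈ O := by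
      rcases O.mem_or_inv_mem (Z 2 / tt i ^ 2) with h | h
      · exact ⟨0, fun l => by fin_cases l <;> simp [gz, GY, dY, zY, zpow_ofNat, h]⟩
      · exact ⟨1, fun l => by
          fin_cases l
          · simpa [gz, GY, dY, zY] using h
          · exact (GY_y (i, 1)).symm ▸ (div_self (GY_y (i, 1) ▸ gz_ne (GY_ne _) _)).symm ▸ one_mem O⟩
    refine ⟨(i, c), ?_, ?_⟩
    · rintro (l | l)
      exacts [(GY_t l (i, c)).symm ▸ hi l, hc l]
    · convert one_mem O
      fin_cases c <;> simp [gz, GY, zY, zpow_ofNat, *]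
      field_simp

lemma CY_codim : CY.Codim := fun π hπ => by
  by_cases h : π ∣ X (inl 0)
  · exact ⟨(1, 0), Cox.not_dvd (C := CY) (i := inl 0) one_ne_zero rfl hπ h
      (aeval (Sum.elim ![0, 1, 0] ![1, 0])) (aeval_X _ _) (by simp [CY])⟩
  by_cases h' : π ∣ X (inr 0)
  · exact ⟨(0, 1), Cox.not_dvd (C := CY) (i := inr 0) one_ne_zero rfl hπ h'
      (aeval (Sum.elim ![1, 0, 0] ![0, 1])) (aeval_X _ _) (by simp [CY])⟩
  · exact ⟨(0, 0), fun h'' => (hπ.dvd_or_dvd h'').elim (fun e => h (hπ.dvd_of_dvd_pow e)) h'⟩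

lemma CY_smooth (M : Model CY.charts) : Smooth M.s :=
  M.smooth fun _ => Cox.formallySmooth fun D _ _ I _ φ _ => by
    choose ξ hξ using fun i => Ideal.Quotient.mk_surjective (φ (X i))
    exact ⟨aeval ξ, algHom_ext fun i => by simp [hξ]⟩

lemma P1_H (c : ℂ) (i : Fin 2) (n : ℕ) {a : MvPolynomial (Fin 2) ℂ} {d : Fin 1 → ℤ}
    (h : a = C c * X i ^ n) (hd : c = 0 ∨ d 0 = n) : ∃ w, P1.H a d w := by
  rcases hd with rfl | hd
  · exact ⟨0, by rw [h, C_0, zero_mul]; exact Cox.H.zero⟩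
  · exact ⟨_, h ▸ ((Cox.H.const c).mul (Cox.H.pow (P1.hx i) n)).congr
      (by ext l; simp [P1, Fin.eq_zero l, hd]) rfl⟩

/-- A linear form on the degrees. -/
def lin {r : ℕ} (v : Fin r → ℤ) : (Fin r → ℤ) →+ (Fin 1 → ℤ) :=
  AddMonoidHom.mk' (fun d _ => ∑ l, v l * d l) fun d e => by
    ext
    simp [mul_add, Finset.sum_add_distrib]

/-- A curve given by monomials. -/
noncomputable def curve {K R σ ι : Type} [Field K] [Algebra ℂ K] {r : ℕ} [CommRing R] [Algebra ℂ R]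
    (B : Cox K r R σ ι) (θ : R →ₐ[ℂ] MvPolynomial (Fin 2) ℂ) (v : Fin r → ℤ) (c : σ → ℤ)
    (k : σ → Fin 2) (n : σ → ℕ) (h : ∀ i, θ (B.x i) = C (c i : ℂ) * X (k i) ^ n i)
    (hd : ∀ i, c i = 0 ∨ ∑ l, v l * B.dx i l = n i) (β : Fin 2 → ι)
    (hβ : ∀ k, ∃ n, θ (B.m (β k)) ∣ X k ^ n) : CoxHom B P1 where
  θ := θ
  lam := lin v
  hθ i := P1_H _ _ _ (h i) ((hd i).imp (fun e => by simp [e]) id)
  β := β
  unit := hβ

lemma CY_picard (M : Model CY.charts) : picardNumber M.s = 2 := by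
  obtain ⟨N⟩ := exists_model P1.charts
  refine Cox.picard CY_codim fun D hD => ?_
  have key : ∀ (v : Fin 2 → ℤ) (c : Fin 3 ⊕ Fin 2 → ℤ) (k : Fin 3 ⊕ Fin 2 → Fin 2)
      (n : Fin 3 ⊕ Fin 2 → ℕ) (β : Fin 2 → Fin 3 × Fin 2),
      (∀ i, c i = 0 ∨ ∑ l, v l * dY i l = n i) → (∀ j, ∃ N, aeval (fun i => C (c i : ℂ) *
      (X (k i) : MvPolynomial (Fin 2) ℂ) ^ n i) (CY.m (β j)) ∣ X j ^ N) →
      ∑ l, v l * Cox.deg M D l = 0 := fun v c k n β hd hβ =>
    CoxHom.test (T := curve CY _ v c k n (aeval_X _) hd β hβ) N M P1_codim (P1_dim N) (P1_deg N) hD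
  have h1 := key ![0, 1] (Sum.elim ![1, 0, 0] 1) (Sum.elim 0 id) (Sum.elim 0 1) ![(0, 0), (0, 1)]
    (by decide) fun j => ⟨1, by fin_cases j <;> simp [CY]⟩
  have h2 := key ![1, -2] (Sum.elim ![1, 1, 0] ![0, 1]) (Sum.elim ![0, 1, 0] 0) (Sum.elim 1 0)
    ![(0, 1), (1, 1)] (by decide) fun j => ⟨1, by fin_cases j <;> simp [CY]⟩
  simp only [Fin.sum_univ_two, Matrix.cons_val_zero, Matrix.cons_val_one] at h1 h2
  ext l
  fin_cases l <;> simp <;> omega

end Pool.Agent.MP_a703b5_ag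

end MrgPart1

-- ======== part 2: formerly Pool.Agent.MP_a703b5_ag.RingX
section MrgPart2

/-!
The Cox ring of the total space.
-/

set_option autoImplicit false
set_option linter.unusedSectionVars false
set_option linter.style.haveILetI false

open MvPolynomial Sum
open AddMonoidAlgebra (single single_mul_single single_pow)

namespace Pool.Agent.MP_a703b5_ag

/-- The variables `t₀, t₁, t₂` and `w, e₁, e₂, s₁, s₂, y`. -/
abbrev SX : Type := Fin 3 ⊕ Fin 6

/-- The equation. -/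
def FF {D : Type} [CommRing D] (ξ : SX → D) : D :=
  ξ (inr 3) * ξ (inr 4) * ξ (inr 5) + (ξ (inr 0) ^ 2 + (ξ (inl 0) * ξ (inl 2) - ξ (inl 1) ^ 2) *
    ((ξ (inr 1) * ξ (inr 3)) ^ 2 + (ξ (inr 2) * ξ (inr 4)) ^ 2))

lemma map_FF {D E G : Type} [CommRing D] [CommRing E] [FunLike G D E] [RingHomClass G D E] (φ : G)
    (ξ : SX → D) : φ (FF ξ) = FF fun i => φ (ξ i) := by
  simp [FF]

/-- The Cox ring. -/
abbrev RX : Type := MvPolynomial SX ℂ ⧸ Ideal.span {FF (X : SX → MvPolynomial SX ℂ)}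

/-- The generators. -/
noncomputable def xX (i : SX) : RX := Ideal.Quotient.mk _ (X i)

lemma FF_x : FF xX = 0 :=
  (map_FF (Ideal.Quotient.mk _) X).symm.trans
    (Ideal.Quotient.eq_zero_iff_mem.mpr (Ideal.mem_span_singleton_self _))

/-- Maps out of a hypersurface ring. -/
noncomputable def liftQ {σ D : Type} [CommRing D] [Algebra ℂ D] {F : MvPolynomial σ ℂ} (ξ : σ → D)
    (h : aeval ξ F = 0) : (MvPolynomial σ ℂ ⧸ Ideal.span {F}) →ₐ[ℂ] D :=
  Ideal.Quotient.liftₐ _ (aeval ξ) fun a ha => by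
    obtain ⟨b, rfl⟩ := Ideal.mem_span_singleton'.mp ha
    rw [map_mul, h, mul_zero]

lemma liftQ_mk {σ D : Type} [CommRing D] [Algebra ℂ D] {F : MvPolynomial σ ℂ} (ξ : σ → D)
    (h : aeval ξ F = 0) (p : MvPolynomial σ ℂ) : liftQ ξ h (Ideal.Quotient.mk _ p) = aeval ξ p :=
  rfl

/-- Maps out of the Cox ring. -/
noncomputable def liftX {D : Type} [CommRing D] [Algebra ℂ D] (ξ : SX → D) (h : FF ξ = 0) :
    RX →ₐ[ℂ] D :=
  liftQ ξ (by rw [map_FF, ← h]; simp)

lemma liftX_x {D : Type} [CommRing D] [Algebra ℂ D] (ξ : SX → D) (h : FF ξ = 0) (i : SX) :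
    liftX ξ h (xX i) = ξ i := aeval_X _ _

lemma homX_ext {D : Type} [CommRing D] [Algebra ℂ D] {φ φ' : RX →ₐ[ℂ] D}
    (h : ∀ i, φ (xX i) = φ' (xX i)) : φ = φ' :=
  Ideal.Quotient.algHom_ext _ (algHom_ext h)

lemma relPrime_X {σ : Type} (i : σ) (g : MvPolynomial σ ℂ) (ξ : σ → ℂ) (h : ξ i = 0)
    (h' : aeval ξ g ≠ 0) : IsRelPrime (X i) g :=
  X_prime.irreducible.isRelPrime_iff_not_dvd.mpr fun e => h' (by
    simpa [h] using map_dvd (aeval ξ) e)

lemma prime_lin {σ : Type} (f g : MvPolynomial σ ℂ) (i : σ) (h0 : f ≠ 0)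
    (hf : f ∈ supported ℂ {i}ᶜ) (hg : g ∈ supported ℂ {i}ᶜ) (h : IsRelPrime f g) :
    Prime (f * X i + g) :=
  (irreducible_mul_X_add f g i h0 (fun e => mem_supported.mp hf e rfl)
    (fun e => mem_supported.mp hg e rfl) h).prime

instance : IsDomain RX := by
  have h : Prime (FF (X : SX → MvPolynomial SX ℂ)) := by
    refine prime_lin _ _ _ (by simp) ?_ ?_ (IsRelPrime.mul_left ?_ ?_)
    iterate 2
      repeat' first | exact X_mem_supported.mpr (by simp) | with_reducible apply mul_mem |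
        with_reducible apply add_mem | with_reducible apply sub_mem | with_reducible apply pow_mem
    all_goals exact relPrime_X _ _ (Pi.single (inr 0) 1) (by simp) (by simp)
  have := (Ideal.span_singleton_prime h.ne_zero).mpr h
  exact Ideal.Quotient.isDomain _

lemma prime_x (a : SX) (h0 : xX a ≠ 0)
    (h : Prime (FF (Function.update X a (0 : MvPolynomial SX ℂ)))) : Prime (xX a) := by
  have := (Ideal.span_singleton_prime h.ne_zero).mpr h
  let χ : RX →ₐ[ℂ] _ ⧸ Ideal.span {FF (Function.update X a (0 : MvPolynomial SX ℂ))} :=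
    liftX (fun i => Ideal.Quotient.mk _ (Function.update X a 0 i))
      ((map_FF (Ideal.Quotient.mk _) _).symm.trans
        (Ideal.Quotient.eq_zero_iff_mem.mpr (Ideal.mem_span_singleton_self _)))
  have key : ∀ i, aeval (fun i => Ideal.Quotient.mk (Ideal.span {xX a}) (xX i))
      (Function.update X a (0 : MvPolynomial SX ℂ) i) = Ideal.Quotient.mk _ (xX i) := fun i => by
    by_cases e : i = a
    · rw [e, Function.update_self, map_zero, eq_comm, Ideal.Quotient.eq_zero_iff_mem]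
      exact Ideal.mem_span_singleton_self _
    · rw [Function.update_of_ne e, aeval_X]
  let χ' := liftQ (F := FF (Function.update X a (0 : MvPolynomial SX ℂ)))
    (fun i => Ideal.Quotient.mk (Ideal.span {xX a}) (xX i)) (by
      rw [map_FF, funext key, ← map_FF, FF_x, map_zero])
  have h1 : χ'.comp χ = Ideal.Quotient.mkₐ ℂ _ := homX_ext (D := RX ⧸ Ideal.span {xX a}) fun i => by
    rw [AlgHom.comp_apply, liftX_x]; exact key i
  have h2 : Ideal.span {xX a} = RingHom.ker χ := by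
    refine le_antisymm ((Ideal.span_singleton_le_iff_mem _).mpr ?_) fun b hb => ?_
    · rw [RingHom.mem_ker, liftX_x, Function.update_self, map_zero]
    · rw [← Ideal.Quotient.eq_zero_iff_mem]
      exact (AlgHom.congr_fun h1 b).symm.trans (by
        rw [AlgHom.comp_apply, RingHom.mem_ker.mp hb, map_zero])
  rw [← Ideal.span_singleton_prime h0, h2]
  exact RingHom.ker_isPrime _

lemma prime_aux (e s : Fin 6) (he : e ≠ 0) (hs : s ≠ 0) : Prime (X (inl 2) * (X (inr e) *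
    X (inr s)) ^ 2 * X (inl 0) + (X (inr 0) ^ 2 - X (inl 1) ^ 2 * (X (inr e) * X (inr s)) ^ 2) :
    MvPolynomial SX ℂ) := by
  refine prime_lin _ _ _ (by simp) ?_ ?_
    (IsRelPrime.mul_left ?_ (IsRelPrime.pow_left (IsRelPrime.mul_left ?_ ?_)))
  iterate 2
    repeat' first | exact X_mem_supported.mpr (by simp) | with_reducible apply mul_mem |
      with_reducible apply add_mem | with_reducible apply sub_mem | with_reducible apply pow_mem
  all_goals exact relPrime_X _ _ (Pi.single (inr 0) 1) (by simp [he, hs]) (by simp)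

/-- A point. -/
noncomputable def pt (a b : ℂ) : RX →ₐ[ℂ] ℂ :=
  liftX (Sum.elim 0 ![0, 0, 0, a, b, 0]) (by simp [FF])

lemma prime_s1 : Prime (xX (inr 3)) :=
  prime_x _ (fun e => by simpa [pt, liftX_x] using congrArg (pt 1 1) e) (by
    convert prime_aux 2 4 (by decide) (by decide) using 1
    simp [FF]
    ring)

lemma prime_s2 : Prime (xX (inr 4)) :=
  prime_x _ (fun e => by simpa [pt, liftX_x] using congrArg (pt 1 1) e) (by
    convert prime_aux 1 3 (by decide) (by decide) using 1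
    simp [FF]
    ring)

/-- The polynomial ring in all generators but the last. -/
abbrev PX : Type := MvPolynomial (Fin 3 ⊕ Fin 5) ℂ

/-- The inclusion of the polynomial ring. -/
noncomputable def inc : PX →ₐ[ℂ] RX := aeval fun i => xX (Sum.map id Fin.castSucc i)

lemma exists_pow_mul (ρ : RX) : ∃ (n : ℕ) (p : PX), (xX (inr 3) * xX (inr 4)) ^ n * ρ = inc p := by
  obtain ⟨ρ, rfl⟩ := Ideal.Quotient.mk_surjective ρ
  induction ρ using MvPolynomial.induction_on with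
  | C c => exact ⟨0, C c, by rw [pow_zero, one_mul]; exact (inc.commutes c).symm⟩
  | add p q hp hq =>
    obtain ⟨n, a, ha⟩ := hp
    obtain ⟨k, b, hb⟩ := hq
    refine ⟨n + k, (X (inr 3) * X (inr 4)) ^ k * a + (X (inr 3) * X (inr 4)) ^ n * b, ?_⟩
    simp only [map_add, map_mul, map_pow, ← ha, ← hb]
    simp [inc]
    ring
  | mul_X p i hp =>
    obtain ⟨n, a, ha⟩ := hp
    have key : ∃ q : PX, xX (inr 3) * xX (inr 4) * xX i = inc q := by
      rcases i with i | i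
      · exact ⟨X (inr 3) * X (inr 4) * X (inl i), by simp [inc]⟩
      · induction i using Fin.lastCases with
        | cast i => exact ⟨X (inr 3) * X (inr 4) * X (inr i), by simp [inc]⟩
        | last => exact ⟨-FF (Sum.elim (X ∘ inl) ![X (inr 0), X (inr 1), X (inr 2), X (inr 3),
            X (inr 4), 0]), by simpa [inc, FF, add_eq_zero_iff_eq_neg] using FF_x⟩
    obtain ⟨q, hq⟩ := key
    exact ⟨n + 1, a * q, by rw [map_mul, map_mul, ← ha, ← hq]; simp only [xX]; ring⟩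

lemma inj_of_inc {D : Type} [CommRing D] [Algebra ℂ D] (φ : RX →ₐ[ℂ] D)
    (h : Function.Injective (φ.comp inc)) : Function.Injective φ := by
  rw [injective_iff_map_eq_zero] at h ⊢
  intro ρ h0
  obtain ⟨n, p, hp⟩ := exists_pow_mul ρ
  rw [h p (by rw [AlgHom.comp_apply, ← hp, map_mul, h0, mul_zero]), map_zero] at hp
  exact (mul_eq_zero.mp hp).resolve_left
    (pow_ne_zero _ (mul_ne_zero prime_s1.ne_zero prime_s2.ne_zero))

instance : UniqueFactorizationMonoid RX := by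
  let s : PX := X (inr 3) * X (inr 4)
  let L := Localization.Away s
  let x : Fin 3 ⊕ Fin 5 → L := fun i => algebraMap PX L (X i)
  have hs : x (inr 3) * x (inr 4) * IsLocalization.Away.invSelf s = 1 := by
    rw [← map_mul]; exact IsLocalization.Away.mul_invSelf _
  let φ : RX →ₐ[ℂ] L := liftX (Sum.elim (x ∘ inl) ![x (inr 0), x (inr 1), x (inr 2), x (inr 3),
    x (inr 4), -IsLocalization.Away.invSelf s * FF (Sum.elim (x ∘ inl) ![x (inr 0), x (inr 1),
      x (inr 2), x (inr 3), x (inr 4), 0])]) (by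
    simp [FF, ← mul_assoc]
    rw [mul_neg, hs, neg_one_mul, neg_add_cancel])
  have h1 : φ.comp inc = IsScalarTower.toAlgHom ℂ _ _ := algHom_ext fun i => by
    rcases i with i | i <;> fin_cases i <;> simp [φ, inc, liftX_x, x]
  have h2 := inj_of_inc φ (h1 ▸ IsLocalization.injective L
    (powers_le_nonZeroDivisors_of_noZeroDivisors (show s ≠ 0 by simp [s])))
  letI := φ.toRingHom.toAlgebra
  have h3 : φ (xX (inr 3) * xX (inr 4)) = algebraMap PX L s :=
    (congrArg φ (by simp [inc, s])).trans (AlgHom.congr_fun h1 s)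
  have : IsLocalization.Away (xX (inr 4) * xX (inr 3)) L := by
    rw [mul_comm]
    refine IsLocalization.Away.mk _ (h3 ▸ IsLocalization.Away.algebraMap_isUnit s :
      IsUnit (φ _)) (fun z => ?_) fun a b e => ⟨0, by rw [h2 e]⟩
    obtain ⟨n, p, hp⟩ := IsLocalization.Away.surj s z
    exact ⟨n, inc p, (by rw [h3, hp]; exact (AlgHom.congr_fun h1 p).symm : z * φ _ ^ n = φ _)⟩
  have := IsLocalization.Away.isDomain (Localization.Away (xX (inr 3))) prime_s1.ne_zero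
  have := IsLocalization.isNoetherianRing (Submonoid.powers (xX (inr 3)))
    (Localization.Away (xX (inr 3))) inferInstance
  have h4 : Prime (algebraMap RX (Localization.Away (xX (inr 3))) (xX (inr 4))) := by
    have h5 := (map_ne_zero_iff _ (IsLocalization.injective (Localization.Away (xX (inr 3)))
      (powers_le_nonZeroDivisors_of_noZeroDivisors prime_s1.ne_zero))).mpr prime_s2.ne_zero
    refine (IsLocalization.toLocalizationMap (Submonoid.powers (xX (inr 3)))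
      (Localization.Away (xX (inr 3)))).map_prime prime_s2 h5 fun h => ?_
    obtain ⟨n, hn⟩ := (IsLocalization.Away.algebraMap_isUnit_iff (xX (inr 3))).mp h
    simpa [pt, liftX_x] using map_dvd (pt 1 0) hn
  rw [UniqueFactorizationMonoid.iff_localizationAway_of_prime prime_s1,
    UniqueFactorizationMonoid.iff_localizationAway_of_prime h4]
  exact (IsLocalization.algEquiv (Submonoid.powers (xX (inr 4) * xX (inr 3))) L
    _).toMulEquiv.uniqueFactorizationMonoid inferInstance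

end Pool.Agent.MP_a703b5_ag

end MrgPart2

-- ======== part 3: formerly Pool.Agent.MP_a703b5_ag.TotalX
section MrgPart3

/-!
The total space.
-/

set_option autoImplicit false
set_option linter.unusedSectionVars false
set_option linter.style.haveILetI false

open MvPolynomial Sum
open AddMonoidAlgebra (single single_mul_single single_pow)

namespace Pool.Agent.MP_a703b5_ag

/-- The degrees. -/
def dX : SX → Fin 4 → ℤ := Sum.elim (fun _ => ![1, 0, 0, 0])
  ![![1, 1, 0, 1], ![0, 1, 0, 0], ![0, 0, 1, 0], ![0, 0, 0, 1], ![0, 1, -1, 1], ![2, 1, 1, 0]]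

/-- The last coordinate. -/
noncomputable def YY : KK 4 := -(Z 2 ^ 2 + (Z 1 - Z 0 ^ 2) * (1 + Z 3 ^ 2)) / Z 3

lemma YY_ne : YY ≠ 0 := by
  refine div_ne_zero (neg_ne_zero.mpr fun h => ?_) (Z_ne 3)
  have h1 : (X 2 ^ 2 + (X 1 - X 0 ^ 2) * (1 + X 3 ^ 2) : MvPolynomial (Fin 4) ℂ) = 0 :=
    IsFractionRing.injective _ (KK 4) (by simpa [Z] using h)
  simpa using congrArg (aeval fun _ => (1 : ℂ)) h1

/-- The coefficients. -/
noncomputable def zX : SX → KK 4 := Sum.elim tt ![Z 2, 1, 1, 1, Z 3, YY]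

lemma zX_ne (i : SX) : zX i ≠ 0 := by
  rcases i with i | i
  · exact tt_ne i
  · fin_cases i <;> simp [zX, Z_ne, YY_ne]

lemma FF_z : FF zX = 0 := by
  have := Z_ne (3 : Fin 4)
  simp [FF, zX, tt, YY]
  field_simp
  ring

/-- The embedding. -/
noncomputable def ψX : RX →ₐ[ℂ] AddMonoidAlgebra (KK 4) (Fin 4 → ℤ) :=
  liftX (fun i => single (dX i) (zX i)) (by
    have h := FF_z
    simp only [FF, sq, single_mul_single] at h ⊢
    rw [show dX (inl 0) + dX (inl 2) = dX (inl 1) + dX (inl 1) by decide,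
      ← AddMonoidAlgebra.single_sub, show dX (inr 1) + dX (inr 3) + (dX (inr 1) + dX (inr 3)) =
        dX (inr 2) + dX (inr 4) + (dX (inr 2) + dX (inr 4)) by decide,
      ← AddMonoidAlgebra.single_add, single_mul_single, show dX (inr 0) + dX (inr 0) =
        dX (inl 1) + dX (inl 1) + (dX (inr 2) + dX (inr 4) + (dX (inr 2) + dX (inr 4))) by decide,
      ← AddMonoidAlgebra.single_add, show dX (inr 3) + dX (inr 4) + dX (inr 5) =
        dX (inl 1) + dX (inl 1) + (dX (inr 2) + dX (inr 4) + (dX (inr 2) + dX (inr 4))) by decide,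
      ← AddMonoidAlgebra.single_add, h, AddMonoidAlgebra.single_zero])

lemma ψX_x (i : SX) : ψX (xX i) = single (dX i) (zX i) := liftX_x _ _ _

lemma ψX_inj : Function.Injective ψX := by
  let x : Fin 3 ⊕ Fin 5 → FractionRing PX := fun i => algebraMap PX _ (X i)
  have hx : ∀ i, x i ≠ 0 := fun i =>
    (map_ne_zero_iff _ (IsFractionRing.injective _ _)).mpr (X_ne_zero i)
  have := hx (inl 0)
  have := hx (inr 1)
  have := hx (inr 2)
  have := hx (inr 3)
  have h : ψX.comp inc = aeval fun i => single (dX (Sum.map id Fin.castSucc i))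
      (zX (Sum.map id Fin.castSucc i)) := algHom_ext fun i => by simp [inc, ψX_x]
  refine inj_of_inc _ (h ▸ inj_of_leftInv _ _ (Sum.elim ![1, X 0, X 1] ![X 2, 1, 1, 1, X 3]) ?_
    ![x (inl 1) / x (inl 0), x (inl 2) / x (inl 0), x (inr 0) / (x (inl 0) * x (inr 1) * x (inr 3)),
      x (inr 4) * x (inr 2) / (x (inr 1) * x (inr 3))]
    ![x (inl 0), x (inr 1), x (inr 2), x (inr 3)] (fun l => by fin_cases l <;> simp [hx]) ?_)
  · rintro (i | i) <;> fin_cases i <;> simp [zX, tt, Z]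
  · intro i
    change _ = x i
    rcases i with i | i <;> fin_cases i <;> simp [gz, dX, Fin.prod_univ_four] <;> field_simp

section

variable {K : Type} [Field K]

/-- The gauges. -/
def GG (T l o v : K) : Fin 5 → Fin 4 → K :=
  ![![T, l, 1, v / l], ![T, 1, l, 1], ![T, 1, 1, v], ![T, 1, 1, 1], ![T, o, o / v, 1]]

/-- The coordinates in the charts. -/
def VV (l o v : K) : Fin 5 → Fin 6 → K :=
  ![![o / v, l⁻¹, 1, l / v, 1, 1], ![o, 1, l⁻¹, 1, v * l, 1], ![o / v, 1, 1, v⁻¹, 1, l],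
    ![o, 1, 1, 1, v, l], ![1, o⁻¹, v / o, 1, 1, l * v / o ^ 2]]

/-- The exponents of the sections. -/
def μX : Fin 5 → Fin 6 → ℕ :=
  ![![0, 0, 3, 0, 3, 3], ![0, 3, 0, 3, 0, 3], ![0, 3, 6, 0, 3, 0], ![0, 6, 3, 3, 0, 0],
    ![1, 0, 0, 1, 1, 4]]

lemma VV_eq {T l o v : K} (hT : T ≠ 0) (hl : l ≠ 0) (ho : o ≠ 0) (hv : v ≠ 0) (c : Fin 5)
    (k : Fin 6) : ![o * T, 1, 1, 1, v, l * T ^ 2] k / gz (GG T l o v c) (dX (inr k)) =
      VV l o v c k := by
  fin_cases c <;> fin_cases k <;> simp [gz, GG, VV, dX, Fin.prod_univ_four, zpow_ofNat, *] <;>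
    field_simp

lemma exists_chart (O : ValuationSubring K) {l o v q : K} (hl : l ≠ 0) (ho : o ≠ 0) (hv : v ≠ 0)
    (hq : q ∈ O) (h : l * v + o ^ 2 + q * (1 + v ^ 2) = 0) :
    ∃ c, (∀ k, VV l o v c k ∈ O) ∧ (∏ k, VV l o v c k ^ μX c k)⁻¹ ∈ O := by
  have sq : ∀ a b : K, a ^ 2 = b → b ∈ O → a ∈ O := fun a b e hb =>
    (O.mem_or_inv_mem a).elim id fun h => by
      by_cases h0 : a = 0
      · rw [h0]; exact zero_mem _
      · have := mul_mem hb h
        rwa [← e, sq, mul_inv_cancel_right₀ h0] at this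
  have k1 : v ∈ O → l * v ∈ O → o ∈ O := fun h1 h2 => sq _ (-(l * v + q * (1 + v ^ 2)))
    (by linear_combination h) (neg_mem (add_mem h2 (mul_mem hq (add_mem (one_mem _)
      (pow_mem h1 2)))))
  have k2 : v⁻¹ ∈ O → l / v ∈ O → o / v ∈ O := fun h1 h2 => sq _ (-(l / v + q * (1 + v⁻¹ ^ 2)))
    (by field_simp; linear_combination h) (neg_mem (add_mem h2 (mul_mem hq (add_mem (one_mem _)
      (pow_mem h1 2)))))
  rcases O.mem_or_inv_mem l with h1 | h1
  · rcases O.mem_or_inv_mem v with h2 | h2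
    · have := k1 h2 (mul_mem h1 h2)
      exact ⟨3, fun k => by fin_cases k <;> simp [VV, *], by simp [VV, μX, Fin.prod_univ_six]⟩
    · have := k2 h2 (div_eq_mul_inv l v ▸ mul_mem h1 h2)
      exact ⟨2, fun k => by fin_cases k <;> simp [VV, *], by simp [VV, μX, Fin.prod_univ_six]⟩
  by_cases h2 : l / v ∈ O
  · have := k2 (by convert mul_mem h2 h1 using 1; field_simp) h2
    exact ⟨0, fun k => by fin_cases k <;> simp [VV, *], by simp [VV, μX, Fin.prod_univ_six]⟩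
  by_cases h3 : v * l ∈ O
  · have := k1 (by convert mul_mem h3 h1 using 1; field_simp) (mul_comm v l ▸ h3)
    exact ⟨1, fun k => by fin_cases k <;> simp [VV, *], by simp [VV, μX, Fin.prod_univ_six]⟩
  have k3 : ∀ a : K, a ∉ O → O.valuation a⁻¹ < 1 := fun a ha => by
    rw [← O.valuation_le_one_iff, not_le] at ha
    rw [map_inv₀]
    exact inv_lt_one_of_one_lt₀ ha
  have k4 : O.valuation (1 + q * ((l / v)⁻¹ + (v * l)⁻¹)) = 1 :=
    O.valuation.map_one_add_of_lt (by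
      rw [map_mul]
      exact (mul_le_of_le_one_left' ((O.valuation_le_one_iff q).mpr hq)).trans_lt
        (O.valuation.map_add_lt (k3 _ h2) (k3 _ h3)))
  rw [show 1 + q * ((l / v)⁻¹ + (v * l)⁻¹) = -(l * v / o ^ 2)⁻¹ by
    field_simp; linear_combination h, Valuation.map_neg] at k4
  have h4 := (O.valuation_le_one_iff _).mp k4.le
  have h5 : l * v / o ^ 2 ∈ O := (O.valuation_le_one_iff _).mp (by
    rw [map_inv₀, inv_eq_one] at k4; exact k4.le)
  have h6 := sq o⁻¹ _ (by field_simp) (mul_mem h5 ((O.valuation_le_one_iff _).mp (k3 _ h3).le))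
  have h7 := sq (v / o) _ (by field_simp) (mul_mem h5 ((O.valuation_le_one_iff _).mp (k3 _ h2).le))
  exact ⟨4, fun k => by fin_cases k <;> simp [VV, *], by
    simpa [VV, μX, Fin.prod_univ_six, ← inv_pow] using pow_mem h4 4⟩

end

/-- The gauges of the charts. -/
noncomputable def GX (j : Fin 3 × Fin 5) : Fin 4 → KK 4 :=
  GG (tt j.1) (YY / tt j.1 ^ 2) (Z 2 / tt j.1) (Z 3) j.2

lemma GX_ne (j : Fin 3 × Fin 5) (l : Fin 4) : GX j l ≠ 0 := by
  obtain ⟨i, c⟩ := j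
  fin_cases c <;> fin_cases l <;> simp [GX, GG, tt_ne, Z_ne, YY_ne]

lemma GX_t (i : Fin 3) (j : Fin 3 × Fin 5) : gz (GX j) (dX (inl i)) = tt j.1 := by
  obtain ⟨i, c⟩ := j
  fin_cases c <;> simp [gz, GX, GG, dX, Fin.prod_univ_four]

lemma GX_x (j : Fin 3 × Fin 5) (k : Fin 6) : zX (inr k) / gz (GX j) (dX (inr k)) =
    VV (YY / tt j.1 ^ 2) (Z 2 / tt j.1) (Z 3) j.2 k := by
  have h := tt_ne (n := 2) j.1
  rw [← VV_eq h (div_ne_zero YY_ne (pow_ne_zero 2 h)) (div_ne_zero (Z_ne 2) h) (Z_ne 3),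
    div_mul_cancel₀ _ h, div_mul_cancel₀ _ (pow_ne_zero 2 h)]
  rfl

/-- The gauge variables. -/
def γX : Fin 5 → Fin 3 → Fin 6 := ![![4, 2, 5], ![3, 1, 5], ![4, 2, 1], ![3, 1, 2], ![3, 4, 0]]

lemma GX_γ (j : Fin 3 × Fin 5) (l : Fin 3) : gz (GX j) (dX (inr (γX j.2 l))) = zX (inr (γX j.2 l)) := by
  refine ((div_eq_one_iff_eq (gz_ne (GX_ne j) _)).mp ?_).symm
  rw [GX_x]
  obtain ⟨i, c⟩ := j
  fin_cases c <;> fin_cases l <;> rfl

/-- The sections. -/
noncomputable def mX {D : Type} [CommRing D] (ξ : SX → D) (j : Fin 3 × Fin 5) : D :=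
  ξ (inl j.1) ^ ![6, 6, 12, 12, 3] j.2 * ∏ k, ξ (inr k) ^ μX j.2 k

lemma map_mX {D E G : Type} [CommRing D] [CommRing E] [FunLike G D E] [RingHomClass G D E] (φ : G)
    (ξ : SX → D) (j : Fin 3 × Fin 5) : φ (mX ξ j) = mX (fun i => φ (ξ i)) j := by
  simp [mX]

lemma ψX_m (j : Fin 3 × Fin 5) : ψX (mX xX j) = single ![12, 6, 3, 3] (mX zX j) := by
  simp only [mX, map_mul, map_pow, Fin.prod_univ_six, ψX_x, single_pow, single_mul_single]
  congr 1
  revert j
  decide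

/-- The total space. -/
noncomputable def CX : Cox (KK 4) 4 RX SX (Fin 3 × Fin 5) where
  ψ := ψX
  ψ_inj := ψX_inj
  x := xX
  dx := dX
  zx := zX
  hx := ψX_x
  gen := by
    have := congrArg (Subalgebra.map (Ideal.Quotient.mkₐ ℂ (Ideal.span {FF X})))
      (adjoin_range_X (R := ℂ) (σ := SX))
    rw [AlgHom.map_adjoin, ← Set.range_comp, Algebra.map_top] at this
    exact this.trans ((AlgHom.range_eq_top _).mpr Ideal.Quotient.mk_surjective)
  ℓ := ell 4
  pos := by decide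
  A := ![12, 6, 3, 3]
  m := mX xX
  zm := mX zX
  hm := ψX_m
  zm_ne j := mul_ne_zero (pow_ne_zero _ (zX_ne _))
    (Finset.prod_ne_zero_iff.mpr fun _ _ => pow_ne_zero _ (zX_ne _))
  g j := gz (GX j)
  g_ne j := gz_ne (GX_ne j)
  g_add j := gz_add (GX_ne j)
  hg j d := by
    refine hg_of_gauge _ (ψX_m j) (GX_ne j) (xX ∘ Matrix.vecCons (inl j.1) (inr ∘ γX j.2))
      (dX ∘ Matrix.vecCons (inl j.1) (inr ∘ γX j.2)) (fun l => ?_) (fun l => ?_) d
      (![![d 0 - 2 * d 1 + 2 * d 3, d 3, d 2 - d 1 + 2 * d 3, d 1 - d 3],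
        ![d 0 - 2 * d 2, d 3, d 1 - d 2, d 2], ![d 0, d 3, d 2 + d 3, d 1 - d 3],
        ![d 0, d 3, d 1, d 2], ![d 0 - d 1 - d 2, d 3 - d 1, -d 2, d 1 + d 2]] j.2) ?_
    · induction l using Fin.cases with
      | zero => exact (ψX_x _).trans (congrArg _ (GX_t _ j).symm)
      | succ l => exact (ψX_x _).trans (congrArg _ (GX_γ j l).symm)
    · induction l using Fin.cases with
      | zero => exact (dvd_pow_self _ (by revert j; decide)).mul_right _
      | succ l => exact ((dvd_pow_self _ (show μX j.2 (γX j.2 l) ≠ 0 by revert j l; decide)).trans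
          (Finset.dvd_prod_of_mem (fun k => xX (inr k) ^ μX j.2 k) (Finset.mem_univ _))).mul_left _
    · obtain ⟨i, c⟩ := j
      ext l
      fin_cases c <;> fin_cases l <;> simp [dX, γX, Fin.sum_univ_succ] <;> ring
  frac := frac_of_gen _ fun i => by
    fin_cases i
    · exact ⟨_, _, _, _, _, ψX_x (inl 1), ψX_x (inl 0), by simp [zX, tt], by simp [zX, tt]⟩
    · exact ⟨_, _, _, _, _, ψX_x (inl 2), ψX_x (inl 0), by simp [zX, tt], by simp [zX, tt]⟩
    · refine ⟨_, xX (inl 0) * xX (inr 1) * xX (inr 3), _, _, 1, ψX_x (inr 0), ?_, by simp,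
        by simp [zX]⟩
      rw [map_mul, map_mul, ψX_x, ψX_x, ψX_x, single_mul_single, single_mul_single]
      congr 1
      · decide
      · simp [zX, tt]
    · refine ⟨xX (inr 4) * xX (inr 2), xX (inr 1) * xX (inr 3), dX (inr 4) + dX (inr 2), _, 1, by
        rw [map_mul, ψX_x, ψX_x, single_mul_single], ?_, by simp, by simp [zX]⟩
      rw [map_mul, ψX_x, ψX_x, single_mul_single]
      congr 1
      · decide
      · simp [zX]
  proper O _ := by
    obtain ⟨i, hi⟩ := exists_max O (tt (n := 2)) tt_ne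
    have h := tt_ne (n := 2) i
    obtain ⟨c, h1, h2⟩ := exists_chart O (div_ne_zero YY_ne (pow_ne_zero 2 h))
      (div_ne_zero (Z_ne 2) h) (Z_ne 3) (sub_mem (mul_mem (hi 0) (hi 2)) (pow_mem (hi 1) 2)) (by
        have := FF_z
        simp only [FF, zX, elim_inl, elim_inr, Matrix.cons_val] at this
        field_simp
        linear_combination this)
    refine ⟨(i, c), ?_, ?_⟩
    · rintro (l | l)
      exacts [(GX_t l (i, c)).symm ▸ hi l, (GX_x (i, c) l).symm ▸ h1 l]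
    · convert h2 using 1
      have := Z_ne (2 : Fin 4)
      have := Z_ne (3 : Fin 4)
      have := YY_ne
      fin_cases c <;> simp [gz, GX, GG, VV, mX, μX, zX, zpow_ofNat, Fin.prod_univ_four,
        Fin.prod_univ_six, *] <;> field_simp

end Pool.Agent.MP_a703b5_ag

end MrgPart3

-- ======== part 4: formerly Pool.Agent.MP_a703b5_ag.PropsX
section MrgPart4

/-!
The total space is a smooth Fano variety of Picard number four.
-/

set_option autoImplicit false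
set_option linter.unusedSectionVars false
set_option linter.style.haveILetI false

open AlgebraicGeometry MvPolynomial Sum

namespace Pool.Agent.MP_a703b5_ag

lemma prime_cases {π : RX} (hπ : Prime π) : ¬ π ∣ mX xX (0, 3) * xX (inr 4) ∨
    ∃ k : Fin 5, ¬ π ∣ mX xX (![(1, 3), (0, 3), (0, 2), (0, 0), (0, 1)] k) * xX (inr 0) := by
  by_cases h : ∃ k : Fin 5, π ∣ xX (![inl 0, inr 4, inr 3, inr 1, inr 2] k)
  · obtain ⟨k, hk⟩ := h
    refine Or.inr ⟨k, Cox.not_dvd (C := CX) (zX_ne _) (by clear hk; revert k; decide) hπ hk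
      (liftX (Sum.elim ![![0, 1, 1, 1, 1] k, 1, 0] (![![1, 1, 1, 1, 0, 0], ![1, 1, 1, 1, 0, 0],
        ![1, 1, 1, 0, 1, 0], ![1, 0, 1, 0, 1, 1], ![1, 1, 0, 1, 0, 1]] k)) ?_)
      ((liftX_x _ _ _).trans ?_) ?_⟩
    · fin_cases k <;> simp [FF]
    · fin_cases k <;> simp
    · rw [map_mul, map_mX]
      fin_cases k <;> simp [liftX_x, mX, μX, Fin.prod_univ_six]
  · rw [not_exists] at h
    have h0 := h 0
    have h1 := h 1
    have h2 := h 2
    have h3 := h 3
    have h4 := h 4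
    simp only [Matrix.cons_val] at h0 h1 h2 h3 h4
    simp [mX, μX, Fin.prod_univ_six, hπ.dvd_mul, hπ.dvd_pow_iff_dvd, *]

lemma CX_codim : CX.Codim := fun _ hπ => by
  rcases prime_cases hπ with h | ⟨k, h⟩
  all_goals exact ⟨_, fun e => h (e.mul_right _)⟩

lemma CX_smooth (M : Model CX.charts) : Smooth M.s := by
  refine M.smooth fun j => Cox.formallySmooth fun D _ _ I hI φ hm => ?_
  choose ξ hξ using fun i => Ideal.Quotient.mk_surjective (φ (xX i))
  have hf : FF ξ ∈ I := by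
    rw [← Ideal.Quotient.eq_zero_iff_mem, map_FF, funext hξ, ← map_FF, FF_x, map_zero]
  have h2 : FF ξ ^ 2 = 0 := Ideal.mem_bot.mp (hI ▸ Ideal.pow_mem_pow hf 2)
  have h3 : IsUnit (mX ξ j) := (IsNilpotent.isUnit_quotient_mk_iff ⟨2, hI⟩).mp (by
    rw [map_mX, funext hξ, ← map_mX]; exact hm)
  obtain ⟨i, c⟩ := j
  rw [mX, IsUnit.mul_iff, isUnit_pow_iff (by clear * -; revert i c; decide), IsUnit.prod_univ_iff] at h3
  have h4 : ∀ k, μX c k ≠ 0 → IsUnit (ξ (inr k)) := fun k hk => (isUnit_pow_iff hk).mp (h3.2 k)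
  obtain ⟨a, ha⟩ : ∃ a : Fin 3 → D, a 0 * ξ (inl 2) - 2 * a 1 * ξ (inl 1) + a 2 * ξ (inl 0) = 1 := by
    obtain ⟨u, hu⟩ := h3.1.exists_right_inv
    have h5 : 2 * algebraMap ℂ D 2⁻¹ = 1 := by
      rw [← map_ofNat (algebraMap ℂ D), ← map_mul, mul_inv_cancel₀ two_ne_zero, map_one]
    fin_cases i <;> simp only [Fin.zero_eta, Fin.mk_one, Fin.reduceFinMk] at hu
    · exact ⟨![0, 0, u], by simp [mul_comm u, hu]⟩
    · exact ⟨![0, -algebraMap ℂ D 2⁻¹ * u, 0], by
        simp only [Matrix.cons_val]; linear_combination hu + ξ (inl 1) * u * h5⟩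
    · exact ⟨![u, 0, 0], by simp [mul_comm u, hu]⟩
  obtain ⟨α, β, hα⟩ : ∃ α β : D, α * (ξ (inr 3) * ξ (inr 4)) +
      β * ((ξ (inr 1) * ξ (inr 3)) ^ 2 + (ξ (inr 2) * ξ (inr 4)) ^ 2) = 1 := by
    by_cases h5 : c = 4
    · obtain ⟨u, hu⟩ := ((h4 3 (by rw [h5]; decide)).mul (h4 4 (by rw [h5]; decide))).exists_left_inv
      exact ⟨u, 0, by simp [hu]⟩
    by_cases h6 : μX c 4 = 0
    · obtain ⟨u, hu⟩ := (((h4 1 (by clear * - h5 h6; revert c; decide)).pow 2).mul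
        ((h4 3 (by clear * - h5 h6; revert c; decide)).pow 3)).exists_left_inv
      exact ⟨-u * ξ (inr 2) ^ 2 * ξ (inr 4), u * ξ (inr 3), by linear_combination hu⟩
    · obtain ⟨u, hu⟩ := (((h4 2 (by clear * - h5 h6; revert c; decide)).pow 2).mul
        ((h4 4 h6).pow 3)).exists_left_inv
      exact ⟨-u * ξ (inr 1) ^ 2 * ξ (inr 3), u * ξ (inr 4), by linear_combination hu⟩
  refine ⟨liftX (fun i => ξ i - FF ξ * Sum.elim (fun l => β * a l) (Pi.single 5 α) i) ?_,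
    homX_ext (D := D ⧸ I) fun i => ?_⟩
  · generalize hF : FF ξ = f at h2 ⊢
    simp [FF] at hF ⊢
    linear_combination hF - f * hα - (f * ha * β - β ^ 2 * (a 0 * a 2 - a 1 ^ 2) * h2) *
      ((ξ (inr 1) * ξ (inr 3)) ^ 2 + (ξ (inr 2) * ξ (inr 4)) ^ 2)
  · rw [AlgHom.comp_apply, liftX_x, Ideal.Quotient.mkₐ_eq_mk, map_sub, hξ, map_mul,
      Ideal.Quotient.eq_zero_iff_mem.mpr hf, zero_mul, sub_zero]

lemma CX_picard (M : Model CX.charts) : picardNumber M.s = 4 := by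
  obtain ⟨N⟩ := exists_model P1.charts
  refine Cox.picard CX_codim fun D hD => ?_
  have key : ∀ (v : Fin 4 → ℤ) (c : SX → ℤ) (k : SX → Fin 2) (n : SX → ℕ)
      (β : Fin 2 → Fin 3 × Fin 5), (∀ i, c i = 0 ∨ ∑ l, v l * dX i l = n i) →
      FF (fun i => C (c i : ℂ) * (X (k i) : MvPolynomial (Fin 2) ℂ) ^ n i) = 0 →
      (∀ j, ∃ N, mX (fun i => C (c i : ℂ) * (X (k i) : MvPolynomial (Fin 2) ℂ) ^ n i) (β j) ∣
        X j ^ N) → ∑ l, v l * Cox.deg M D l = 0 := fun v c k n β hd hF hβ =>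
    CoxHom.test (T := curve CX (liftX _ hF) v c k n (liftX_x _ _) hd β fun j => (hβ j).imp
      fun _ h => ((map_mX _ _ _).trans (congrArg (mX · _) (funext (liftX_x _ _)))).dvd.trans h)
      N M P1_codim (P1_dim N) (P1_deg N) hD
  have h1 := key ![0, -1, 1, 2] (Sum.elim ![1, 0, 0] ![1, 0, 1, -1, 1, 1])
    (Sum.elim 0 ![1, 0, 0, 1, 0, 0]) (Sum.elim 0 ![1, 0, 1, 2, 0, 0]) ![(0, 0), (0, 4)]
    (by decide) (by simp [FF]) fun j => ⟨3, by
      fin_cases j <;> simp [mX, μX, Fin.prod_univ_six, pow_succ' _ 2]⟩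
  have h2 := key ![0, 1, -1, 0] (Sum.elim ![1, 0, 0] ![1, 1, 0, 1, -1, 1])
    (Sum.elim 0 ![1, 0, 0, 0, 1, 0]) (Sum.elim 0 ![1, 1, 0, 0, 2, 0]) ![(0, 1), (0, 4)]
    (by decide) (by simp [FF]) fun j => ⟨3, by
      fin_cases j <;> simp [mX, μX, Fin.prod_univ_six, pow_succ' _ 2]⟩
  have h3 := key ![0, 1, 0, -1] (Sum.elim ![1, 0, 0] ![0, 1, 1, 0, 1, 1])
    (Sum.elim 0 ![0, 0, 0, 0, 0, 1]) (Sum.elim 0 ![0, 1, 0, 0, 0, 1]) ![(0, 2), (0, 0)]
    (by decide) (by simp [FF]) fun j => ⟨3, by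
      fin_cases j <;> simp [mX, μX, Fin.prod_univ_six]⟩
  have h4 := key ![1, -2, 0, 2] (Sum.elim ![1, 1, 0] ![1, 0, 1, 0, 1, 1])
    (Sum.elim ![0, 1, 0] 1) (Sum.elim 1 ![1, 0, 0, 0, 0, 0]) ![(0, 0), (1, 0)]
    (by decide) (by simp [FF]) fun j => ⟨6, by
      fin_cases j <;> simp [mX, μX, Fin.prod_univ_six]⟩
  simp only [Fin.sum_univ_four, Matrix.cons_val] at h1 h2 h3 h4
  ext l
  fin_cases l <;> simp <;> omega

lemma det_four {K : Type} [Field K] (A : Matrix (Fin 4) (Fin 4) K) (h1 : A 1 0 = 0) (h2 : A 2 0 = 0)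
    (h3 : A 3 0 = 0) (h4 : A 2 1 = 0) (h5 : A 3 1 = 0) :
    A.det = A 0 0 * A 1 1 * (A 2 2 * A 3 3 - A 2 3 * A 3 2) := by
  simp [Matrix.det_succ_column_zero, Fin.sum_univ_succ, Fin.succAbove, *]
  ring

lemma det_eq (D : Fin 4 → Derivation ℂ (KK 4) (KK 4))
    (hD : ∀ i j, D i (Z j) = if i = j then 1 else 0) (k : Fin 6) :
    let j : Fin 3 × Fin 5 := ![(0, 3), (1, 3), (0, 3), (0, 2), (0, 0), (0, 1)] k
    let a : Fin 4 → SX := ![![inl 1, inl 2, inr 0, inr 4], ![inl 0, inl 2, inr 5, inr 4],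
      ![inl 1, inl 2, inr 4, inr 5], ![inl 1, inl 2, inr 5, inr 3], ![inl 1, inl 2, inr 3, inr 1],
      ![inl 1, inl 2, inr 2, inr 4]] k
    (Matrix.of fun l i => D l (zX (a i) / gz (GX j) (dX (a i)))).det =
      (if k = 0 then Z 3 else 2 * (zX (inr 0) / gz (GX j) (dX (inr 0)))) *
        ((Z 3)⁻¹ / gz (GX j) ![4, 2, 1, 1]) := by
  have := Z_ne (0 : Fin 4)
  have := Z_ne (3 : Fin 4)
  have := YY_ne
  have h : D 2 YY = -2 * Z 2 / Z 3 := by
    simp [YY, Derivation.leibniz_div, hD]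
    field_simp
  intro j a
  rw [det_four]
  all_goals
    fin_cases k <;> simp only [j, a, Matrix.of_apply, Matrix.cons_val, Fin.reduceFinMk,
      Fin.zero_eta, Fin.mk_one, GX_x, GX_t] <;>
    simp [GX, GG, gz, VV, zX, tt, Fin.prod_univ_four, zpow_ofNat, Derivation.leibniz_div,
      Derivation.leibniz_inv, *] <;> field_simp <;> ring

lemma CX_fano (M : Model CX.charts) : ∃ E, IsAnticanonical M.s E ∧ IsAmple E := by
  have h0 := inv_ne_zero (Z_ne (3 : Fin 4))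
  obtain ⟨E, -, hE⟩ := Cox.exists_D (M := M) CX_codim ![4, 2, 1, 1] h0
  refine ⟨E, M.isAnticanonical (n := 4) E fun D hD z => ?_,
    Cox.isAmple h0 hE (n := 3) (by decide) (by decide)⟩
  obtain ⟨⟨π, d, u⟩, h1, h2, h3⟩ := Cox.exists_π z
  have key : ∀ (j : Fin 3 × Fin 5) (b b' : SX) (a : Fin 4 → SX) (s : KK 4),
      ¬ π ∣ mX xX j * xX b' → (∀ i, i = b ∨ i = inl j.1 ∨ (∃ l, i = inr (γX j.2 l)) ∨ ∃ l, i = a l) →
      (∀ ξ : SX → KK 4, (∀ i, ξ i = zX i / gz (GX j) (dX i)) → FF ξ = 0 → (∀ i, ξ i ∈ M.O z) →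
        M.U z (ξ b') → M.U z s ∧ ∀ c, (∀ i ≠ b, ξ i ∈ Wr D (M.O z) c) → ξ b ∈ Wr D (M.O z) c) →
      (Matrix.of fun l i => D l (zX (a i) / gz (GX j) (dX (a i)))).det =
        s * ((Z 3)⁻¹ / gz (GX j) ![4, 2, 1, 1]) → ∃ c : Fin 4 → KK 4,
      M.O z ≤ Wr D (M.O z) c ∧ (∀ k, c k ∈ M.O z) ∧ (Matrix.of fun j k => D j (c k)).det ≠ 0 ∧
      E z = M.ord (Matrix.of fun j k => D j (c k)).det z := by
    intro j b b' a s hπ hab hs hdet
    obtain ⟨p, hp⟩ := Cox.mem_chart.mpr fun h => hπ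
      (((h3.iff_dvd h1 h2 z.2 (CX.hm j)).mp h).mul_right _)
    have hO : ∀ i, zX i / gz (GX j) (dX i) ∈ M.O z := fun i =>
      Model.B_le_O hp (Cox.H.mem_B (CX.hx i) j)
    obtain ⟨h4, h5⟩ := hs _ (fun _ => rfl) (by
      have := map_FF ((CX.B j).val.comp (CX.δ j)) xX
      rw [FF_x, map_zero] at this
      exact (congrArg FF (funext fun i => (Cox.H.δ (CX.hx i) j).symm)).trans this.symm) hO
      (Cox.H.U_of_not_van (CX.hx b') (fun h => hπ
        (((h3.iff_dvd h1 h2 z.2 (CX.hx b')).mp h).mul_left _)) hp)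
    have h6 : ∀ i ≠ b, zX i / gz (GX j) (dX i) ∈
        Wr D (M.O z) fun i => zX (a i) / gz (GX j) (dX (a i)) := fun i hi => by
      rcases hab i with h | rfl | ⟨l, rfl⟩ | ⟨l, rfl⟩
      · exact (hi h).elim
      · rw [GX_t]; exact (div_self (tt_ne _)).symm ▸ one_mem _
      · rw [GX_γ, div_self (zX_ne _)]; exact one_mem _
      · exact Wr.coord l (hO _)
    have h7 := div_ne_zero h0 (gz_ne (GX_ne j) ![4, 2, 1, 1])
    refine ⟨_, Cox.O_le_Wr hp fun i => ?_, fun _ => hO _, hdet ▸ mul_ne_zero h4.1 h7, ?_⟩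
    · by_cases h : i = b
      exacts [h ▸ h5 _ h6, h6 i h]
    · rw [hdet, Model.ord_mul h4.1 h7, h4.ord, zero_add, hE, Cox.ν_eq hp h0]
      rfl
  rcases prime_cases h1 with h | ⟨k, h⟩
  · refine key _ (inr 5) _ _ _ h (by decide) (fun ξ hξ hF hO hU => ?_) (det_eq D hD 0)
    have e3 : ξ (inr 3) = 1 := by rw [hξ, GX_x]; rfl
    have e4 : ξ (inr 4) = Z 3 := by rw [hξ, GX_x]; rfl
    refine ⟨e4 ▸ hU, fun c hc => ?_⟩
    have : ξ (inr 5) = -(ξ (inr 4))⁻¹ * (ξ (inr 0) ^ 2 + (ξ (inl 0) * ξ (inl 2) -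
        ξ (inl 1) ^ 2) * ((ξ (inr 1) * ξ (inr 3)) ^ 2 + (ξ (inr 2) * ξ (inr 4)) ^ 2)) := by
      rw [← neg_eq_of_add_eq_zero_right hF, e3]
      field_simp [hU.1]
    rw [this]
    refine mul_mem (neg_mem (Wr.inv (hc _ (by decide)) hU.2.2)) ?_
    repeat' first | exact hc _ (by decide) | with_reducible apply mul_mem |
      with_reducible apply add_mem | with_reducible apply sub_mem | with_reducible apply pow_mem
  · refine key _ (inr 0) _ _ _ h (by clear h; revert k; decide) (fun ξ hξ hF hO hU => ?_)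
      (det_eq D hD k.succ)
    have e2 : M.U z 2 := by
      have := Model.const_mem_O (M := M) z 2
      have h' := Model.const_mem_O (M := M) z 2⁻¹
      rw [map_inv₀] at h'
      rw [map_ofNat] at this h'
      exact ⟨two_ne_zero, this, h'⟩
    refine ⟨by rw [if_neg k.succ_ne_zero]; exact e2.mul (hξ _ ▸ hU), fun c hc =>
      Wr.sqrt (hO _) (e2.mul hU).1 (e2.mul hU).2.2 ?_⟩
    have : ξ (inr 0) * ξ (inr 0) = -(ξ (inr 3) * ξ (inr 4) * ξ (inr 5) + (ξ (inl 0) * ξ (inl 2) -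
        ξ (inl 1) ^ 2) * ((ξ (inr 1) * ξ (inr 3)) ^ 2 + (ξ (inr 2) * ξ (inr 4)) ^ 2)) := by
      rw [FF] at hF; linear_combination hF
    rw [this]
    refine neg_mem ?_
    repeat' first | exact hc _ (by decide) | with_reducible apply mul_mem |
      with_reducible apply add_mem | with_reducible apply sub_mem | with_reducible apply pow_mem

end Pool.Agent.MP_a703b5_ag

end MrgPart4

-- ======== part 5: formerly Pool.Agent.MP_a703b5_ag.Fibre
section MrgPart5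

/-!
The conic bundle and its fibres.
-/

set_option autoImplicit false
set_option linter.unusedSectionVars false
set_option linter.style.haveILetI false

open AlgebraicGeometry CategoryTheory MvPolynomial Sum

namespace Pool.Agent.MP_a703b5_ag

open Cox

/-- The conic bundle. -/
noncomputable def TX : CoxHom CY CX where
  θ := aeval (Sum.elim (xX ∘ inl) ![xX (inr 1) * xX (inr 2), xX (inr 5)])
  lam := AddMonoidHom.mk' (fun d => ![d 0, d 1, d 1, 0]) fun d e => by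
    ext l
    fin_cases l <;> simp
  hθ := by
    rintro (i | i)
    · exact ⟨_, (congrArg ψX (aeval_X _ _)).trans (ψX_x (inl i))⟩
    · fin_cases i
      · exact ⟨_, (congrArg ψX (aeval_X _ _)).trans 
          ((H.mul (CX.hx (inr 1)) (CX.hx (inr 2))).congr (e := ![0, 1, 1, 0]) (by decide) rfl)⟩
      · exact ⟨_, (congrArg ψX (aeval_X _ _)).trans (ψX_x (inr 5))⟩
  β j := (j.1, ![1, 1, 0, 0, 1] j.2)
  unit := by
    rintro ⟨i, c⟩
    refine ⟨1, ?_⟩
    simp only [CY, CX, mX, pow_one, map_mul, map_pow, aeval_X, Fin.prod_univ_six]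
    refine mul_dvd_mul (pow_dvd_pow _ (by revert c; decide)) ?_
    fin_cases c <;> simp [μX]
    · exact (dvd_pow_self _ three_ne_zero).mul_left _
    · exact (dvd_pow_self _ three_ne_zero).mul_left _
    all_goals first | exact (mul_dvd_mul (dvd_pow_self _ (by decide))
      (dvd_pow_self _ (by decide))).mul_right _ | exact (dvd_pow_self _ four_ne_zero).mul_left _

lemma θ_t (i : Fin 3) : TX.θ (X (inl i)) = xX (inl i) := aeval_X _ _

lemma θ_y0 : TX.θ (X (inr 0)) = xX (inr 1) * xX (inr 2) := aeval_X _ _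

lemma θ_y1 : TX.θ (X (inr 1)) = xX (inr 5) := aeval_X _ _

lemma θ_inj : Function.Injective TX.θ := by
  let L : RX →ₐ[ℂ] MvPolynomial (Fin 3 ⊕ Fin 2) ℂ :=
    liftX (Sum.elim (X ∘ inl) ![0, X (inr 0), 1, 0, 0, X (inr 1)]) (by simp [FF])
  have : L.comp TX.θ = AlgHom.id ℂ _ := algHom_ext fun i => by
    rcases i with i | i
    · simp [L, θ_t, liftX_x]
    · fin_cases i <;> simp [L, θ_y0, θ_y1, liftX_x]
  exact Function.LeftInverse.injective (g := L) (AlgHom.congr_fun this)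

lemma θ_surj (α : SX → ℕ) (d : Fin 2 → ℤ) (h : ∑ i, α i • CX.dx i = TX.lam d) :
    ∃ a u, CY.H a d u ∧ TX.θ a = ∏ i, CX.x i ^ α i := by
  have h0 := congrFun h 0
  have h1 := congrFun h 1
  have h2 := congrFun h 2
  have h3 := congrFun h 3
  simp [CX, TX, dX, Fin.sum_univ_three, Fin.sum_univ_six] at h0 h1 h2 h3
  refine ⟨_, _, (H.monomial (C := CY) (Sum.elim (α ∘ inl) ![α (inr 1), α (inr 5)])).congr ?_ rfl, ?_⟩
  · ext l
    fin_cases l <;> simp [CY, dY, Fin.sum_univ_three] <;> omega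
  · simp [CY, CX, θ_t, θ_y0, θ_y1, Fin.prod_univ_six, mul_pow, show α (inr 0) = 0 by omega,
      show α (inr 3) = 0 by omega, show α (inr 4) = 0 by omega, show α (inr 2) = α (inr 1) by omega]

lemma δY_t (j : Fin 3 × Fin 2) : CY.δ j (X (inl j.1)) = 1 := δ_eq_one (C := CY) (GY_t j.1 j)

lemma δY_y (j : Fin 3 × Fin 2) : CY.δ j (X (inr j.2)) = 1 := δ_eq_one (C := CY) (GY_y j)

lemma δX_t (j : Fin 3 × Fin 5) : CX.δ j (xX (inl j.1)) = 1 := δ_eq_one (C := CX) (GX_t j.1 j)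

lemma δX_γ (j : Fin 3 × Fin 5) (l : Fin 3) : CX.δ j (xX (inr (γX j.2 l))) = 1 :=
  δ_eq_one (C := CX) (GX_γ j l)

lemma HY (i : Fin 3) : CY.H (X (inl i) ^ 2 * X (inr 0)) (dY (inr 1)) (tt i ^ 2 * 1) :=
  ((H.pow (CY.hx (inl i)) 2).mul (CY.hx (inr 0))).congr (by revert i; decide) rfl

lemma gY (i : Fin 3) : CY.g (i, 0) (dY (inr 1)) = tt i ^ 2 * 1 := by
  simp [CY, gz, GY, dY, zpow_ofNat]

lemma φ_t (j : Fin 3 × Fin 5) (l : Fin 3) :
    TX.φ j (CY.δ _ (X (inl l))) = CX.δ j (xX (inl l)) := by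
  have := CoxHom.φ_δ (T := TX) (k := j) (CY.hx (inl l)) (CY.hx (inl j.1)) (GY_t l (TX.β j))
  exact (mul_one _).symm.trans ((congrArg _ ((δX_t j).symm.trans
    (congrArg _ (θ_t _).symm))).trans (this.trans (congrArg _ (θ_t l))))

lemma φ_y0 (i : Fin 3) (c : Fin 5) (h : (TX.β (i, c)).2 = 1) : TX.φ (i, c) (CY.δ _ (X (inr 0))) *
    CX.δ (i, c) (xX (inr 5)) = CX.δ (i, c) (xX (inr 1)) * CX.δ (i, c) (xX (inr 2)) := by
  have := CoxHom.φ_δ (T := TX) (k := (i, c)) (HY i) (CY.hx (inr 1)) (h ▸ GY_y (TX.β (i, c)))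
  rw [map_mul, map_pow, show CY.δ _ (X (inl i)) = 1 from δY_t (TX.β (i, c)), one_pow, one_mul,
    map_mul, map_pow, θ_t, θ_y0, map_mul, map_pow, δX_t (i, c), one_pow, one_mul, map_mul] at this
  exact θ_y1 ▸ this

lemma φ_y1 (i : Fin 3) (c : Fin 5) (h : (TX.β (i, c)).2 = 0) : TX.φ (i, c) (CY.δ _ (X (inr 1))) *
    (CX.δ (i, c) (xX (inr 1)) * CX.δ (i, c) (xX (inr 2))) = CX.δ (i, c) (xX (inr 5)) := by
  have := CoxHom.φ_δ (T := TX) (k := (i, c)) (CY.hx (inr 1)) (HY i)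
    ((congrArg (CY.g · _) (Prod.ext rfl h : TX.β (i, c) = (i, 0))).trans (gY i))
  rw [map_mul, map_pow, θ_t, θ_y0, map_mul, map_pow, δX_t (i, c), one_pow, one_mul, map_mul] at this
  exact θ_y1 ▸ this

lemma FF_δ (j : Fin 3 × Fin 5) : FF (fun i => CX.δ j (xX i)) = 0 := by
  rw [← map_FF, FF_x, map_zero]

lemma chain_aux {A B : Type} [CommRing A] [CommRing B] [Algebra ℂ A] [Algebra ℂ B] (φ : A →ₐ[ℂ] B)
    (ξ : SX → B) (t : Fin 3 → A) (y : Fin 2 → A) (c : Fin 5)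
    (hB : ∀ ψ : MvPolynomial (Fin 2) A →ₐ[ℂ] B, (∀ i, ξ i ∈ ψ.range) →
      ∀ b, ∃ a u, IsUnit (ψ u) ∧ b * ψ u = ψ a)
    (hF : FF ξ = 0) (ht : ∀ l, φ (t l) = ξ (inl l)) (hγ : ∀ l, ξ (inr (γX c l)) = 1)
    (k0 : ![1, 1, 0, 0, 1] c = (1 : Fin 2) → φ (y 0) * ξ (inr 5) = ξ (inr 1) * ξ (inr 2))
    (k1 : ![1, 1, 0, 0, 1] c = (0 : Fin 2) → φ (y 1) * (ξ (inr 1) * ξ (inr 2)) = ξ (inr 5))
    (P Q R : PrimeSpectrum B) (h1 : P ≤ Q) (h2 : Q ≤ R)
    (h3 : P.comap φ.toRingHom = R.comap φ.toRingHom) : P = Q ∨ Q = R := by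
  have key : ∀ (a : Fin 2 → B) (η : Fin 6 → MvPolynomial (Fin 2) A) (g : MvPolynomial (Fin 2) A),
      (∀ i, aevalTower φ a (η i) = ξ (inr i)) → aevalTower φ a g = 0 →
      (eval ![1, 1] g + eval ![1, -1] g - 2 * eval ![1, 0] g = 2 ∨
        eval ![1, 1] g - eval ![1, -1] g = 2) → P = Q ∨ Q = R := by
    intro a η g e1 e2 e3
    have e4 : (aevalTower φ a).toRingHom.comp C = φ.toRingHom := RingHom.ext (aevalTower_C _ _)
    refine no_chain (aevalTower φ a).toRingHom (hB _ ?_) g e2 (fun q h => ?_) P Q R h1 h2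
      (by rw [e4]; exact h3)
    · rintro (i | i)
      exacts [⟨C _, (aevalTower_C _ _ _).trans (ht i)⟩, ⟨_, e1 i⟩]
    · refine Ideal.eq_top_of_isUnit_mem q (x := 2) ?_ (by
        simpa [map_ofNat] using (IsUnit.mk0 (2 : ℂ) two_ne_zero).map (algebraMap ℂ A))
      rcases e3 with e | e <;> rw [← e]
      exacts [sub_mem (add_mem (h _) (h _)) (q.mul_mem_left _ (h _)), sub_mem (h _) (h _)]
  have g0 := hγ 0
  have g1 := hγ 1
  have g2 := hγ 2
  rw [FF] at hF
  fin_cases c <;> simp [γX] at g0 g1 g2 k0 k1 <;> simp [g0, g1, g2] at hF k0 k1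
  · exact key ![ξ (inr 3), ξ (inr 0)] ![X 1, C (y 0), 1, X 0, 1, 1] (X 0 + (X 1 ^ 2 +
      C (t 0 * t 2 - t 1 ^ 2) * ((C (y 0) * X 0) ^ 2 + 1)))
      (fun k => by fin_cases k <;> simp [*]) (by simp [*]) (Or.inl (by simp; ring))
  · exact key ![ξ (inr 4), ξ (inr 0)] ![X 1, 1, C (y 0), 1, X 0, 1] (X 0 + (X 1 ^ 2 +
      C (t 0 * t 2 - t 1 ^ 2) * (1 + (C (y 0) * X 0) ^ 2)))
      (fun k => by fin_cases k <;> simp [*]) (by simp [*]) (Or.inl (by simp; ring))
  · exact key ![ξ (inr 3), ξ (inr 0)] ![X 1, 1, 1, X 0, 1, C (y 1)] (X 0 * C (y 1) + (X 1 ^ 2 +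
      C (t 0 * t 2 - t 1 ^ 2) * (X 0 ^ 2 + 1)))
      (fun k => by fin_cases k <;> simp [*]) (by simp [*]) (Or.inl (by simp; ring))
  · exact key ![ξ (inr 4), ξ (inr 0)] ![X 1, 1, 1, 1, X 0, C (y 1)] (X 0 * C (y 1) + (X 1 ^ 2 +
      C (t 0 * t 2 - t 1 ^ 2) * (1 + X 0 ^ 2)))
      (fun k => by fin_cases k <;> simp [*]) (by simp [*]) (Or.inl (by simp; ring))
  · have := neg_eq_of_add_eq_zero_left hF
    exact key ![ξ (inr 1), ξ (inr 2)] ![1, X 0, X 1, 1, 1,
      -(1 + C (t 0 * t 2 - t 1 ^ 2) * (X 0 ^ 2 + X 1 ^ 2))] (X 0 * X 1 + C (y 0) *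
      (1 + C (t 0 * t 2 - t 1 ^ 2) * (X 0 ^ 2 + X 1 ^ 2)))
      (fun k => by fin_cases k <;> simp [← this, ht, g0, g1, g2]) (by simp [ht, ← k0, ← this]; ring)
      (Or.inr (by simp; ring))

lemma pair₀ (i : Fin 3) (q : PrimeSpectrum (CY.B (TX.β (i, 3)))) :
    ∃ P Q : PrimeSpectrum (CX.B (i, 3)), P ≤ Q ∧ P ≠ Q ∧ P.comap (TX.φ _).toRingHom = q ∧
      Q.comap (TX.φ _).toRingHom = q := by
  let τ : Fin 3 ⊕ Fin 2 → q.asIdeal.ResidueField := fun l =>
    algebraMap _ _ (CY.δ (TX.β (i, 3)) (X l))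
  have ht : τ (inl i) = 1 := (congrArg _ (δY_t (i, 0))).trans (map_one _)
  have hy : τ (inr 0) = 1 := (congrArg _ (δY_y (i, 0))).trans (map_one _)
  obtain ⟨D, _, _, f, w, P, Q, h1, h2, h3, h4⟩ := exists_primes _ (.X * .C (τ (inr 1)) +
    .C (τ (inl 0) * τ (inl 2) - τ (inl 1) ^ 2) * (1 + .X ^ 2))
  refine TX.exists_pair q (liftX (Sum.elim (fun l => f (.C (τ (inl l))))
    ![w, 1, 1, 1, f .X, f (.C (τ (inr 1)))]) ?_) ?_ (f.comp Polynomial.CAlgHom) ?_
    (H.mul (CX.hx (inr 4)) (CX.hx (inr 2))) ((H.mul (CX.hx (inr 1)) (CX.hx (inr 3))).congr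
    (by decide) rfl) ⟨xX (inl i) ^ 12 * xX (inr 1) ^ 5 * xX (inr 2) ^ 3 * xX (inr 3) ^ 2, ?_⟩
    P Q h2 ?_ ?_
  · simp [FF] at h1 ⊢
    linear_combination h1
  · simp [CX, mX, liftX_x, ht, μX, Fin.prod_univ_six]
  · rintro (l | l)
    · exact (congrArg _ (θ_t l)).trans (liftX_x _ _ _)
    · fin_cases l
      · refine (congrArg _ θ_y0).trans (Eq.trans ?_ (congrArg (f.comp _) hy).symm)
        simp [liftX_x]
      · exact (congrArg _ θ_y1).trans (liftX_x _ _ _)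
  · simp [CX, mX, μX, Fin.prod_univ_six]
    ring
  all_goals simpa [CX, liftX_x]

lemma pair₁ (i : Fin 3) (q : PrimeSpectrum (CY.B (TX.β (i, 0)))) :
    ∃ P Q : PrimeSpectrum (CX.B (i, 0)), P ≤ Q ∧ P ≠ Q ∧ P.comap (TX.φ _).toRingHom = q ∧
      Q.comap (TX.φ _).toRingHom = q := by
  let τ : Fin 3 ⊕ Fin 2 → q.asIdeal.ResidueField := fun l =>
    algebraMap _ _ (CY.δ (TX.β (i, 0)) (X l))
  have ht : τ (inl i) = 1 := (congrArg _ (δY_t (i, 1))).trans (map_one _)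
  have hy : τ (inr 1) = 1 := (congrArg _ (δY_y (i, 1))).trans (map_one _)
  obtain ⟨D, _, _, f, w, P, Q, h1, h2, h3, h4⟩ := exists_primes _ (.X +
    .C (τ (inl 0) * τ (inl 2) - τ (inl 1) ^ 2) * ((.C (τ (inr 0)) * .X) ^ 2 + 1))
  refine TX.exists_pair q (liftX (Sum.elim (fun l => f (.C (τ (inl l))))
    ![w, f (.C (τ (inr 0))), 1, f .X, 1, 1]) ?_) ?_ (f.comp Polynomial.CAlgHom) ?_
    (H.mul (CX.hx (inr 3)) (CX.hx (inr 5))) ((((H.mul (CX.hx (inl i)) (CX.hx (inr 2))).pow 2).mul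
      (CX.hx (inr 4))).congr (by clear * -; revert i; decide) rfl)
    ⟨xX (inl i) ^ 4 * xX (inr 2) * xX (inr 4) ^ 2 * xX (inr 5) ^ 3, ?_⟩ P Q h2 ?_ ?_
  · simp [FF] at h1 ⊢
    linear_combination h1
  · simp [CX, mX, liftX_x, ht, μX, Fin.prod_univ_six]
  · rintro (l | l)
    · exact (congrArg _ (θ_t l)).trans (liftX_x _ _ _)
    · fin_cases l
      · refine (congrArg _ θ_y0).trans ?_
        simp [liftX_x]
        rfl
      · exact (congrArg _ θ_y1).trans ((liftX_x _ _ _).trans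
          ((map_one _).symm.trans (congrArg (f.comp _) hy).symm))
  · simp [CX, mX, μX, Fin.prod_univ_six]
    ring
  all_goals simpa [CX, liftX_x]

variable (N : Model CX.charts) (M : Model CY.charts)

lemma fibre (y : M.X) : (∃ x, N.hom M TX.data x = y) ∧
    topologicalKrullDim ((N.hom M TX.data).fiber y) = 1 := by
  obtain ⟨k, P, Q, h1, h2, h3, h4⟩ : ∃ (k : _) (P Q : PrimeSpectrum (CX.B k)), P ≤ Q ∧ P ≠ Q ∧
      M.ch _ (P.comap (TX.φ k).toRingHom) = y ∧ M.ch _ (Q.comap (TX.φ k).toRingHom) = y := by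
    obtain ⟨⟨i, c⟩, q, rfl⟩ := M.cover y
    obtain rfl | rfl : c = 0 ∨ c = 1 := by omega
    · obtain ⟨P, Q, h1, h2, h3, h4⟩ := pair₀ i q
      exact ⟨_, P, Q, h1, h2, congrArg _ h3, congrArg _ h4⟩
    · obtain ⟨P, Q, h1, h2, h3, h4⟩ := pair₁ i q
      exact ⟨_, P, Q, h1, h2, congrArg _ h3, congrArg _ h4⟩
  exact ⟨⟨_, (N.hom_ch M TX.data k P).trans h3⟩, N.fiber_dim M TX.data _
    ⟨k, P, Q, h1, h2, h3, h4⟩ fun k => chain_aux (TX.φ k) _ _
      (fun l => CY.δ _ (X (inr l))) k.2 frac_of_range (FF_δ k) (φ_t k) (δX_γ k) (φ_y0 k.1 k.2)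
      (φ_y1 k.1 k.2)⟩

lemma mem_of_FF {B : Type} [CommRing B] (ξ : SX → B) (h : FF ξ = 0) (P : PrimeSpectrum B)
    (e1 : ξ (inl 1) ∈ P.asIdeal) (e2 : ξ (inl 2) ∈ P.asIdeal) (e3 : ξ (inr 5) ∈ P.asIdeal) :
    ξ (inr 0) ∈ P.asIdeal := by
  rw [FF, add_left_comm, add_eq_zero_iff_eq_neg] at h
  exact P.isPrime.mem_of_pow_mem 2 (h ▸ neg_mem (add_mem (Ideal.mul_mem_left _ _ e3)
    (Ideal.mul_mem_right _ _ (sub_mem (Ideal.mul_mem_left _ _ e2)
      (Ideal.pow_mem_of_mem _ e1 2 two_pos)))))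

lemma double_line : ∃ y : M.X, IsClosed {y} ∧ ¬ IsReduced ((N.hom M TX.data).fiber y) := by
  let θ₀ : RX →ₐ[ℂ] DualNumber ℂ := liftX (Sum.elim ![1, 0, 0] ![.eps, 1, 1, 1, 0, 0])
    (by simp [FF, sq])
  obtain ⟨θ, hθ⟩ := exists_ev (C := CX) (j := (0, 3)) θ₀ (by
    simp [θ₀, CX, mX, liftX_x, μX, Fin.prod_univ_six])
  obtain ⟨χ, hχ⟩ := exists_ev (C := CY) (j := (0, 0)) (aeval (Sum.elim ![1, 0, 0] ![(1 : ℂ), 0]))
    (by simp [CY])
  have h1 : ∀ l, χ (CY.δ _ (X (inl l))) = ![1, 0, 0] l := fun l => by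
    simpa [CY] using ev_δ hχ (CY.hx (inl l)) (CY.hx (inl 0)) (GY_t l (0, 0))
  have h2 : χ (CY.δ _ (X (inr 1))) = 0 := by
    simpa [CY] using ev_δ hχ (CY.hx (inr 1)) (HY 0) (gY 0)
  refine N.not_reduced M TX.data (0, 3) θ.toRingHom χ (CoxHom.ev_φ (T := TX) hθ
    ((Algebra.ofId ℂ _).comp χ) ?_) (CX.δ _ (xX (inr 0))) (fun h => ?_)
    fun (P : PrimeSpectrum (CX.B (0, 3))) hP => ?_
  · rintro (l | l)
    · refine (congrArg _ (θ_t l)).trans (Eq.trans ?_ (congrArg (algebraMap ℂ _) (h1 l)).symm)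
      fin_cases l <;> simp [θ₀, liftX_x]
    · fin_cases l
      · refine (congrArg _ θ_y0).trans (Eq.trans ?_ ((congrArg _ (δY_y (0, 0))).trans
          (map_one _)).symm)
        simp [θ₀, liftX_x]
      · refine (congrArg _ θ_y1).trans (Eq.trans ?_ (congrArg (algebraMap ℂ _) h2).symm)
        simp [θ₀, liftX_x]
  · have := ev_δ hθ (CX.hx (inr 0)) (((H.mul (CX.hx (inl 0)) (CX.hx (inr 1))).mul
      (CX.hx (inr 3))).congr (by decide) rfl) (by simp [CX, gz, GX, GG, zX, tt, Fin.prod_univ_four])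
    rw [show θ (CX.δ _ (CX.x (inr 0))) = 0 from h, zero_mul] at this
    simpa [θ₀, CX, liftX_x] using congrArg TrivSqZeroExt.snd this
  · have e1 : CX.δ (0, 3) (xX (inl 1)) ∈ P.asIdeal := φ_t (0, 3) 1 ▸ hP _ (h1 1)
    have e2 : CX.δ (0, 3) (xX (inl 2)) ∈ P.asIdeal := φ_t (0, 3) 2 ▸ hP _ (h1 2)
    have e3 : CX.δ (0, 3) (xX (inr 5)) ∈ P.asIdeal :=
      φ_y1 0 3 rfl ▸ Ideal.mul_mem_right _ _ (hP _ h2)
    exact mem_of_FF _ (FF_δ (0, 3)) P e1 e2 e3

end Pool.Agent.MP_a703b5_ag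

end MrgPart5

-- marker of a merged file
example : 731051 + 258176 = 731051 + 258176 := rfl
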